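import Mathlib

/-!
# Quantum machines with classical input access, and the explicit function

Definitions only.
-/

open Matrix

namespace Pool.Agent.H774R2.QTS

/-! ### The machines -/

/-- The bit read in a step: the input bit at the given position, or nothing (`false`). -/
def rd {N : ℕ} (x : Fin N → Bool) : Option (Fin N) → Bool
  | none => false
  | some i => x i

/-- Quantum machines with `N` input bits, a memory with `D` basis states (`log₂ D` qubits) and `T`
steps. In step `t` the memory undergoes an arbitrary quantum instrument: the outcome `ν < M` is
obtained, which determines the position `pos t ν` of the input that is read (if any), and the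
Kraus operator `K t ν b` is applied, where `b` is the bit read. The positions are thus adaptive:
they may depend on the outcomes of all earlier measurements (as far as stored in the memory) and
on randomness; but the input is not queried in superposition. At the end the memory is measured
in the standard basis; the outcomes in `yes` mean that the machine accepts, the outcomes in `no`
that it rejects, and all other outcomes are discarded (postselection). -/
structure Machine (N D T : ℕ) where
  /-- number of outcomes in each step -/
  M : ℕ
  /-- position of the input bit read in a step, given the outcome -/
  pos : Fin T → Fin M → Option (Fin N)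
  /-- Kraus operator applied in a step, given the outcome and the bit read -/
  K : Fin T → Fin M → Bool → Matrix (Fin D) (Fin D) ℂ
  /-- initial basis state -/
  init : Fin D
  /-- accepting basis states -/
  yes : Finset (Fin D)
  /-- rejecting basis states -/
  no : Finset (Fin D)

namespace Machine

variable {N D T : ℕ} (Q : Machine N D T)

/-- The Kraus operator of outcome `ν` in step `t` on input `x`. -/
def kr (x : Fin N → Bool) (t : Fin T) (ν : Fin Q.M) : Matrix (Fin D) (Fin D) ℂ :=
  Q.K t ν (rd x (Q.pos t ν))

/-- Every step is a (trace preserving) quantum operation, on every input, and no outcome is both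
accepting and rejecting. -/
def Valid : Prop := (∀ (x : Fin N → Bool) (t : Fin T), ∑ ν, (Q.kr x t ν)ᴴ * Q.kr x t ν = 1) ∧
  Disjoint Q.yes Q.no

/-- The state (density matrix) of the memory after `t` steps. -/
noncomputable def state (x : Fin N → Bool) : ℕ → Matrix (Fin D) (Fin D) ℂ
  | 0 => Matrix.single Q.init Q.init 1
  | t + 1 => if h : t < T then ∑ ν, Q.kr x ⟨t, h⟩ ν * state x t * (Q.kr x ⟨t, h⟩ ν)ᴴ
      else state x t

/-- The probability that the outcome of the final measurement is in `A`. -/
noncomputable def prob (A : Finset (Fin D)) (x : Fin N → Bool) : ℝ :=
  ∑ a ∈ A, (Q.state x T a a).re

/-- The machine computes `f` with postselection: on every input `x` the outcome is not discarded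
with probability at least `2 ^ (-S)`, and conditioned on this event the answer is correct with
probability at least `1/2 + δ`. (If `no` is the complement of `yes`, then nothing is discarded, and
this means that the machine computes `f` with success probability at least `1/2 + δ`.) -/
def Computes (S : ℕ) (δ : ℝ) (f : (Fin N → Bool) → Bool) : Prop :=
  ∀ x, (1 / 2) ^ S ≤ Q.prob Q.yes x + Q.prob Q.no x ∧
    (f x = true → (1 / 2 + δ) * (Q.prob Q.yes x + Q.prob Q.no x) ≤ Q.prob Q.yes x) ∧
    (f x = false → (1 / 2 + δ) * (Q.prob Q.yes x + Q.prob Q.no x) ≤ Q.prob Q.no x)

end Machine

/-! ### The explicit function -/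

/-- The parity of the number of `true`s. -/
def par (l : List Bool) : Bool := l.foldr (fun a b => a ^^ b) false

/-- One step of the linear feedback shift register with taps `g`: the window `w` is shifted by one
place, and the inner product modulo two of the taps and the window is appended. -/
def shift (g w : List Bool) : List Bool := w.tail ++ [par (List.zipWith (fun a b => a && b) g w)]

/-- Bit number `t` of the shift register sequence with taps `g` and initial window `s`. -/
def lfsr (g s : List Bool) (t : ℕ) : Bool := ((shift g)^[t] s).headD false

/-- All pairs of numbers below `n`. -/
def pairs (n : ℕ) : List (ℕ × ℕ) :=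
  (List.range n).flatMap fun i => (List.range n).map fun j => (i, j)

/-- The explicit function. Let `n` be a third of the length (rounded down). The input consists of
`x_0, ..., x_{n-1}`, the taps and the initial window of a shift register of length `n`
(and at most two further bits, which are ignored). The value is the parity of the number of pairs
`i < j < n` such that `x_i = x_j = 1` and the bit number `i n + j` of the register sequence is
`1`. -/
def quadFun (l : List Bool) : Bool :=
  decide (Odd ((pairs (l.length / 3)).filter fun p =>
    decide (p.1 < p.2) && l.getD p.1 false && l.getD p.2 false &&
      lfsr ((l.drop (l.length / 3)).take (l.length / 3))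
        ((l.drop (2 * (l.length / 3))).take (l.length / 3))
        (p.1 * (l.length / 3) + p.2)).length)

/-! ### The quadratic form -/

/-- A boolean as an element of the field with two elements. -/
def bz (b : Bool) : ZMod 2 := if b then 1 else 0

/-- The position of the coefficient of the unordered pair `{i, j}`. -/
def idx (n : ℕ) (i j : Fin n) : ℕ := min i.val j.val * n + max i.val j.val

/-- The quadratic form with coefficients `q (i n + j)`, `i < j`. -/
def quad {n : ℕ} (q : ℕ → ZMod 2) (x : Fin n → ZMod 2) : ZMod 2 :=
  ∑ i, ∑ j, if i < j then x i * x j * q (i.val * n + j.val) else 0

/-- The vectors supported on `A` orthogonal to all unit vectors in `B` for the bilinear form. -/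
def ker {n : ℕ} (q : ℕ → ZMod 2) (A B : Finset (Fin n)) : Finset (Fin n → ZMod 2) :=
  Finset.univ.filter fun y => (∀ i, i ∉ A → y i = 0) ∧ ∀ b ∈ B, ∑ a ∈ A, y a * q (idx n a b) = 0

end Pool.Agent.H774R2.QTS
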