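import Mathlib
import Pool.Agent.H774R2.QTS.Defs

/-!
# The two-party bound for quadratic forms
-/

open Finset

namespace Pool.Agent.H774R2.QTS

/-- The nontrivial character of the field with two elements. -/
noncomputable def chi (z : ZMod 2) : ℂ := if z = 0 then 1 else -1

lemma chi_add (a b : ZMod 2) : chi (a + b) = chi a * chi b := by
  have h : ∀ z : ZMod 2, z = 0 ∨ z = 1 := by decide
  have h2 : (1 : ZMod 2) + 1 = 0 := by decide
  rcases h a with rfl | rfl <;> rcases h b with rfl | rfl <;> simp [chi, h2]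

lemma chi_zero : chi 0 = 1 := by simp [chi]

lemma norm_chi (a : ZMod 2) : ‖chi a‖ = 1 := by
  unfold chi; split_ifs <;> simp

lemma z2_add_self (a : ZMod 2) : a + a = 0 := by
  revert a; decide

lemma z2_cases (z : ZMod 2) : z = 0 ∨ z = 1 := by
  revert z; decide

section

variable {n : ℕ}

lemma vec_add_self (x : Fin n → ZMod 2) : x + x = 0 := by
  funext i; exact z2_add_self _

/-- The polar form. -/
def polar (q : ℕ → ZMod 2) (x y : Fin n → ZMod 2) : ZMod 2 :=
  ∑ i, ∑ j, if i < j then (x i * y j + y i * x j) * q (i.val * n + j.val) else 0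

lemma quad_add (q : ℕ → ZMod 2) (x y : Fin n → ZMod 2) :
    quad q (x + y) = quad q x + quad q y + polar q x y := by
  unfold quad polar
  rw [← sum_add_distrib, ← sum_add_distrib]
  refine sum_congr rfl fun i _ => ?_
  rw [← sum_add_distrib, ← sum_add_distrib]
  refine sum_congr rfl fun j _ => ?_
  split_ifs
  · simp only [Pi.add_apply]; ring
  · simp

lemma polar_add_left (q : ℕ → ZMod 2) (x x' y : Fin n → ZMod 2) :
    polar q (x + x') y = polar q x y + polar q x' y := by
  unfold polar
  rw [← sum_add_distrib]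
  refine sum_congr rfl fun i _ => ?_
  rw [← sum_add_distrib]
  refine sum_congr rfl fun j _ => ?_
  split_ifs
  · simp only [Pi.add_apply]; ring
  · simp

lemma polar_comm (q : ℕ → ZMod 2) (x y : Fin n → ZMod 2) : polar q x y = polar q y x := by
  unfold polar
  refine sum_congr rfl fun i _ => sum_congr rfl fun j _ => ?_
  split_ifs
  · ring
  · rfl

lemma polar_add_right (q : ℕ → ZMod 2) (x y y' : Fin n → ZMod 2) :
    polar q x (y + y') = polar q x y + polar q x y' := by
  rw [polar_comm, polar_add_left, polar_comm q y, polar_comm q y']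

lemma polar_single (q : ℕ → ZMod 2) (A : Finset (Fin n)) (k : Fin n → ZMod 2)
    (hk : ∀ i, i ∉ A → k i = 0) (b : Fin n) (hb : b ∉ A) :
    polar q k (Pi.single b 1) = ∑ a ∈ A, k a * q (idx n a b) := by
  have hkb : k b = 0 := hk b hb
  have h1 : polar q k (Pi.single b 1) =
      ∑ i, ∑ j, ((if i < j then (k i * (Pi.single b 1 : Fin n → ZMod 2) j) * q (i.val * n + j.val) else 0) +
        (if i < j then ((Pi.single b 1 : Fin n → ZMod 2) i * k j) * q (i.val * n + j.val) else 0)) := by
    unfold polar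
    refine sum_congr rfl fun i _ => sum_congr rfl fun j _ => ?_
    split_ifs
    · ring
    · simp
  rw [h1]
  simp_rw [sum_add_distrib]
  have h2 : ∑ i : Fin n, ∑ j, (if i < j then (k i * (Pi.single b 1 : Fin n → ZMod 2) j) * q (i.val * n + j.val) else 0)
      = ∑ i : Fin n, if i < b then k i * q (idx n i b) else 0 := by
    refine sum_congr rfl fun i _ => ?_
    rw [sum_eq_single b]
    · split_ifs with h
      · have : idx n i b = i.val * n + b.val := by
          unfold idx
          rw [min_eq_left (show i.val ≤ b.val from le_of_lt h), max_eq_right (show i.val ≤ b.val from le_of_lt h)]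
        rw [this]; simp
      · rfl
    · intro j _ hj
      simp [Pi.single_apply, hj]
    · intro h; exact absurd (mem_univ _) h
  have h3 : ∑ i : Fin n, ∑ j, (if i < j then ((Pi.single b 1 : Fin n → ZMod 2) i * k j) * q (i.val * n + j.val) else 0)
      = ∑ j : Fin n, if b < j then k j * q (idx n j b) else 0 := by
    rw [sum_comm]
    refine sum_congr rfl fun j _ => ?_
    rw [sum_eq_single b]
    · split_ifs with h
      · have : idx n j b = b.val * n + j.val := by
          unfold idx
          rw [min_eq_right (show b.val ≤ j.val from le_of_lt h), max_eq_left (show b.val ≤ j.val from le_of_lt h)]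
        rw [this]; simp
      · rfl
    · intro i _ hi
      simp [Pi.single_apply, hi]
    · intro h; exact absurd (mem_univ _) h
  rw [h2, h3, ← sum_add_distrib]
  have h4 : ∀ i : Fin n, ((if i < b then k i * q (idx n i b) else 0) +
      if b < i then k i * q (idx n i b) else 0) = k i * q (idx n i b) := by
    intro i
    rcases lt_trichotomy i b with h | h | h
    · simp [h, not_lt_of_gt h]
    · subst h; simp [hkb]
    · simp [h, not_lt_of_gt h]
  simp_rw [h4]
  rw [← sum_subset (subset_univ A)]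
  intro i _ hi
  rw [hk i hi, zero_mul]

/-- The vectors supported on a set. -/
def supp (A : Finset (Fin n)) : Finset (Fin n → ZMod 2) := univ.filter fun y => ∀ i, i ∉ A → y i = 0

lemma mem_supp {A : Finset (Fin n)} {y : Fin n → ZMod 2} :
    y ∈ supp A ↔ ∀ i, i ∉ A → y i = 0 := by simp [supp]

lemma supp_add {A : Finset (Fin n)} {y z : Fin n → ZMod 2} (hy : y ∈ supp A) (hz : z ∈ supp A) :
    y + z ∈ supp A := by
  rw [mem_supp] at *
  intro i hi
  rw [Pi.add_apply, hy i hi, hz i hi, add_zero]

lemma card_supp (A : Finset (Fin n)) : (supp A).card = 2 ^ A.card := by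
  have h : supp A = Fintype.piFinset (fun i => if i ∈ A then (univ : Finset (ZMod 2)) else {0}) := by
    ext y
    rw [mem_supp, Fintype.mem_piFinset]
    constructor
    · intro h i
      by_cases hi : i ∈ A
      · simp [hi]
      · simp [hi, h i hi]
    · intro h i hi
      have := h i
      simpa [hi] using this
  rw [h, Fintype.card_piFinset]
  have : ∀ i, (if i ∈ A then (univ : Finset (ZMod 2)) else {0}).card = if i ∈ A then 2 else 1 := by
    intro i
    split_ifs <;> simp [ZMod.card]
  simp_rw [this]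
  rw [prod_ite]
  simp

lemma sum_supp_translate {A : Finset (Fin n)} {a : Fin n → ZMod 2} (ha : a ∈ supp A)
    (f : (Fin n → ZMod 2) → ℂ) : ∑ y ∈ supp A, f (y + a) = ∑ y ∈ supp A, f y := by
  refine sum_nbij' (fun y => y + a) (fun y => y + a) ?_ ?_ ?_ ?_ ?_
  · intro y hy; exact supp_add hy ha
  · intro y hy; exact supp_add hy ha
  · intro y _; rw [add_assoc, vec_add_self, add_zero]
  · intro y _; rw [add_assoc, vec_add_self, add_zero]
  · intro y _; rfl

lemma sum_supp_translate_real {A : Finset (Fin n)} {a : Fin n → ZMod 2} (ha : a ∈ supp A)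
    (f : (Fin n → ZMod 2) → ℝ) : ∑ y ∈ supp A, f (y + a) = ∑ y ∈ supp A, f y := by
  refine sum_nbij' (fun y => y + a) (fun y => y + a) ?_ ?_ ?_ ?_ ?_
  · intro y hy; exact supp_add hy ha
  · intro y hy; exact supp_add hy ha
  · intro y _; rw [add_assoc, vec_add_self, add_zero]
  · intro y _; rw [add_assoc, vec_add_self, add_zero]
  · intro y _; rfl

/-- Character sums over `supp B`. -/
lemma sum_chi_polar (q : ℕ → ZMod 2) (A B : Finset (Fin n)) (hAB : Disjoint A B)
    (k : Fin n → ZMod 2) (hk : k ∈ supp A) :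
    ‖∑ b ∈ supp B, chi (polar q k b)‖ ≤ if k ∈ ker q A B then ((supp B).card : ℝ) else 0 := by
  split_ifs with h
  · refine (norm_sum_le _ _).trans ?_
    simp [norm_chi]
  · have h' : ∃ b ∈ B, ∑ a ∈ A, k a * q (idx n a b) ≠ 0 := by
      by_contra hcon
      push Not at hcon
      apply h
      unfold ker
      rw [mem_filter]
      exact ⟨mem_univ _, mem_supp.1 hk, hcon⟩
    obtain ⟨b, hb, hne⟩ := h'
    have hbA : b ∉ A := fun hA => (disjoint_left.1 hAB) hA hb
    have hp : polar q k (Pi.single b 1) = 1 := by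
      rw [polar_single q A k (mem_supp.1 hk) b hbA]
      rcases z2_cases (∑ a ∈ A, k a * q (idx n a b)) with h0 | h0
      · exact absurd h0 hne
      · exact h0
    have hs : (Pi.single b 1 : Fin n → ZMod 2) ∈ supp B := by
      rw [mem_supp]
      intro i hi
      have : i ≠ b := fun h => hi (h ▸ hb)
      simp [Pi.single_apply, this]
    have h1 := sum_supp_translate hs (fun y => chi (polar q k y))
    simp_rw [polar_add_right, chi_add, hp] at h1
    have h2 : chi 1 = -1 := by simp [chi]
    rw [h2] at h1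
    rw [← Finset.sum_mul] at h1
    have h3 : ∑ b ∈ supp B, chi (polar q k b) = 0 := by
      linear_combination (-1/2 : ℂ) * h1
    rw [h3, norm_zero]

theorem two_party (q : ℕ → ZMod 2) (A B : Finset (Fin n)) (hAB : Disjoint A B)
    (g1 g2 : (Fin n → ZMod 2) → ℂ)
    (h1 : ∀ x x', (∀ i, i ∉ B → x i = x' i) → g1 x = g1 x')
    (h2 : ∀ x x', (∀ i, i ∉ A → x i = x' i) → g2 x = g2 x') :
    ‖∑ x, chi (quad q x) * (g1 x * g2 x)‖ ^ 2 ≤
      ((ker q A B).card : ℝ) / 2 ^ A.card * (∑ x, ‖g1 x‖ ^ 2) * (∑ x, ‖g2 x‖ ^ 2) := by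
  classical
  set S := ∑ x, chi (quad q x) * (g1 x * g2 x) with hS
  set u : (Fin n → ZMod 2) → ℂ := fun x => ∑ a ∈ supp A, chi (quad q (x + a)) * g1 (x + a) with hu
  have g1B : ∀ x, ∀ b ∈ supp B, g1 (x + b) = g1 x := by
    intro x b hb
    apply h1
    intro i hi
    rw [Pi.add_apply, mem_supp.1 hb i hi, add_zero]
  have g2A : ∀ x, ∀ a ∈ supp A, g2 (x + a) = g2 x := by
    intro x a ha
    apply h2
    intro i hi
    rw [Pi.add_apply, mem_supp.1 ha i hi, add_zero]
  have hA : (0 : ℝ) < (supp A).card := by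
    rw [card_supp]; positivity
  have hB : (0 : ℝ) < (supp B).card := by
    rw [card_supp]; positivity
  -- step 1
  have e1 : ((supp A).card : ℂ) * S = ∑ x, g2 x * u x := by
    have e : ∀ a ∈ supp A, ∑ x, chi (quad q (x + a)) * (g1 (x + a) * g2 (x + a)) = S := by
      intro a _
      exact Equiv.sum_comp (Equiv.addRight a) (fun x => chi (quad q x) * (g1 x * g2 x))
    calc ((supp A).card : ℂ) * S = ∑ a ∈ supp A, S := by rw [sum_const, nsmul_eq_mul]
      _ = ∑ a ∈ supp A, ∑ x, chi (quad q (x + a)) * (g1 (x + a) * g2 (x + a)) := by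
        exact (sum_congr rfl e).symm
      _ = ∑ x, g2 x * u x := by
        rw [sum_comm]
        refine sum_congr rfl fun x _ => ?_
        rw [hu]
        dsimp only
        rw [mul_sum]
        refine sum_congr rfl fun a ha => ?_
        rw [g2A x a ha]
        ring
  -- step 2
  have e2 : ((supp A).card : ℝ) ^ 2 * ‖S‖ ^ 2 ≤ (∑ x, ‖g2 x‖ ^ 2) * ∑ x, ‖u x‖ ^ 2 := by
    have : ((supp A).card : ℝ) * ‖S‖ ≤ ∑ x, ‖g2 x‖ * ‖u x‖ := by
      calc ((supp A).card : ℝ) * ‖S‖ = ‖((supp A).card : ℂ) * S‖ := by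
            rw [norm_mul]; simp
        _ = ‖∑ x, g2 x * u x‖ := by rw [e1]
        _ ≤ ∑ x, ‖g2 x * u x‖ := norm_sum_le _ _
        _ = ∑ x, ‖g2 x‖ * ‖u x‖ := by simp_rw [norm_mul]
    calc ((supp A).card : ℝ) ^ 2 * ‖S‖ ^ 2 = (((supp A).card : ℝ) * ‖S‖) ^ 2 := by ring
      _ ≤ (∑ x, ‖g2 x‖ * ‖u x‖) ^ 2 := by
        apply pow_le_pow_left₀ (by positivity) this
      _ ≤ _ := sum_mul_sq_le_sq_mul_sq _ _ _
  -- step 3
  have e3 : ∑ x, ‖u x‖ ^ 2 ≤ ((supp A).card : ℝ) * (ker q A B).card * ∑ x, ‖g1 x‖ ^ 2 := by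
    have f1 : ((supp B).card : ℝ) * ∑ x, ‖u x‖ ^ 2 = ∑ x, ∑ b ∈ supp B, ‖u (x + b)‖ ^ 2 := by
      rw [sum_comm]
      have e : ∀ b ∈ supp B, ∑ x, ‖u (x + b)‖ ^ 2 = ∑ x, ‖u x‖ ^ 2 := by
        intro b _
        exact Equiv.sum_comp (Equiv.addRight b) (fun x => ‖u x‖ ^ 2)
      rw [sum_congr rfl e, sum_const, nsmul_eq_mul]
    have f2 : ∀ x, ∑ b ∈ supp B, ‖u (x + b)‖ ^ 2 ≤ ((supp B).card : ℝ) *
        ∑ a ∈ supp A, ∑ k ∈ ker q A B, ‖g1 (x + a)‖ * ‖g1 (x + (a + k))‖ := by
      intro x
      have c1 : ((∑ b ∈ supp B, ‖u (x + b)‖ ^ 2 : ℝ) : ℂ) =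
          ∑ a ∈ supp A, ∑ a' ∈ supp A, g1 (x + a) * (starRingEnd ℂ) (g1 (x + a')) *
            (chi (quad q (x + a) + quad q (x + a')) * ∑ b ∈ supp B, chi (polar q (a + a') b)) := by
        push_cast
        have c2 : ∀ b ∈ supp B, ((‖u (x + b)‖ : ℂ)) ^ 2 =
            ∑ a ∈ supp A, ∑ a' ∈ supp A, g1 (x + a) * (starRingEnd ℂ) (g1 (x + a')) *
            (chi (quad q (x + a) + quad q (x + a')) * chi (polar q (a + a') b)) := by
          intro b hb
          rw [← Complex.mul_conj']
          rw [hu]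
          dsimp only
          rw [map_sum, sum_mul_sum]
          refine sum_congr rfl fun a ha => sum_congr rfl fun a' ha' => ?_
          have d1 : g1 (x + b + a) = g1 (x + a) := by
            rw [add_right_comm]; exact g1B _ b hb
          have d2 : g1 (x + b + a') = g1 (x + a') := by
            rw [add_right_comm]; exact g1B _ b hb
          have d3 : (starRingEnd ℂ) (chi (quad q (x + b + a'))) = chi (quad q (x + b + a')) := by
            unfold chi; split_ifs <;> simp
          rw [map_mul, d1, d2, d3]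
          have d4 : chi (quad q (x + b + a)) * chi (quad q (x + b + a')) =
              chi (quad q (x + a) + quad q (x + a')) * chi (polar q (a + a') b) := by
            rw [← chi_add, ← chi_add]
            congr 1
            rw [add_right_comm x b a, add_right_comm x b a', quad_add q (x + a) b,
              quad_add q (x + a') b, polar_add_left q x a, polar_add_left q x a', polar_add_left q a a']
            have t1 := z2_add_self (quad q b)
            have t2 := z2_add_self (polar q x b)
            linear_combination t1 + t2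
          calc chi (quad q (x + b + a)) * g1 (x + a) * (chi (quad q (x + b + a')) *
                (starRingEnd ℂ) (g1 (x + a'))) = g1 (x + a) * (starRingEnd ℂ) (g1 (x + a')) *
                (chi (quad q (x + b + a)) * chi (quad q (x + b + a'))) := by ring
            _ = _ := by rw [d4]
        rw [sum_congr rfl c2, sum_comm]
        refine sum_congr rfl fun a _ => ?_
        rw [sum_comm]
        refine sum_congr rfl fun a' _ => ?_
        rw [mul_sum, mul_sum]
      have c3 : ∑ b ∈ supp B, ‖u (x + b)‖ ^ 2 = ‖((∑ b ∈ supp B, ‖u (x + b)‖ ^ 2 : ℝ) : ℂ)‖ := by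
        rw [Complex.norm_real, Real.norm_of_nonneg]
        exact sum_nonneg fun _ _ => by positivity
      rw [c3, c1]
      calc _ ≤ ∑ a ∈ supp A, ∑ a' ∈ supp A, ‖g1 (x + a)‖ * ‖g1 (x + a')‖ *
            (if a + a' ∈ ker q A B then ((supp B).card : ℝ) else 0) := by
            refine (norm_sum_le _ _).trans (sum_le_sum fun a ha => ?_)
            refine (norm_sum_le _ _).trans (sum_le_sum fun a' ha' => ?_)
            rw [norm_mul, norm_mul, norm_mul, norm_chi, one_mul, RCLike.norm_conj]
            exact mul_le_mul_of_nonneg_left (sum_chi_polar q A B hAB (a + a') (supp_add ha ha'))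
              (by positivity)
        _ = ∑ a ∈ supp A, ∑ k ∈ supp A, ‖g1 (x + a)‖ * ‖g1 (x + (a + k))‖ *
            (if k ∈ ker q A B then ((supp B).card : ℝ) else 0) := by
            refine sum_congr rfl fun a ha => ?_
            have := sum_supp_translate_real ha (fun k => ‖g1 (x + a)‖ * ‖g1 (x + (a + k))‖ *
              (if k ∈ ker q A B then ((supp B).card : ℝ) else 0))
            rw [← this]
            refine sum_congr rfl fun a' _ => ?_
            have e : a + (a' + a) = a' := by
              rw [add_comm a' a, ← add_assoc, vec_add_self, zero_add]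
            rw [e, add_comm a' a]
        _ = ((supp B).card : ℝ) *
            ∑ a ∈ supp A, ∑ k ∈ ker q A B, ‖g1 (x + a)‖ * ‖g1 (x + (a + k))‖ := by
            rw [mul_sum]
            refine sum_congr rfl fun a ha => ?_
            rw [mul_sum]
            have hsub : ker q A B ⊆ supp A := by
              intro k hk
              unfold ker at hk
              rw [mem_filter] at hk
              exact mem_supp.2 hk.2.1
            rw [← sum_subset hsub]
            · refine sum_congr rfl fun k hk => ?_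
              rw [if_pos hk]; ring
            · intro k _ hk
              rw [if_neg hk, mul_zero]
        _ ≤ _ := le_rfl
    have f3 : ∑ x, ∑ b ∈ supp B, ‖u (x + b)‖ ^ 2 ≤ ((supp B).card : ℝ) *
        (((supp A).card : ℝ) * (ker q A B).card * ∑ x, ‖g1 x‖ ^ 2) := by
      calc _ ≤ ∑ x, ((supp B).card : ℝ) *
          ∑ a ∈ supp A, ∑ k ∈ ker q A B, ‖g1 (x + a)‖ * ‖g1 (x + (a + k))‖ := sum_le_sum fun x _ => f2 x
        _ = ((supp B).card : ℝ) * ∑ a ∈ supp A, ∑ k ∈ ker q A B,
            ∑ x, ‖g1 (x + a)‖ * ‖g1 (x + (a + k))‖ := by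
            rw [← mul_sum, sum_comm]
            congr 1
            refine sum_congr rfl fun a _ => ?_
            rw [sum_comm]
        _ ≤ ((supp B).card : ℝ) * ∑ a ∈ supp A, ∑ k ∈ ker q A B, ∑ x, ‖g1 x‖ ^ 2 := by
            refine mul_le_mul_of_nonneg_left ?_ hB.le
            refine sum_le_sum fun a _ => sum_le_sum fun k _ => ?_
            have t1 : ∑ x, ‖g1 (x + a)‖ ^ 2 = ∑ x, ‖g1 x‖ ^ 2 :=
              Equiv.sum_comp (Equiv.addRight a) (fun x => ‖g1 x‖ ^ 2)
            have t2 : ∑ x, ‖g1 (x + (a + k))‖ ^ 2 = ∑ x, ‖g1 x‖ ^ 2 :=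
              Equiv.sum_comp (Equiv.addRight (a + k)) (fun x => ‖g1 x‖ ^ 2)
            calc ∑ x, ‖g1 (x + a)‖ * ‖g1 (x + (a + k))‖
                ≤ ∑ x, (‖g1 (x + a)‖ ^ 2 + ‖g1 (x + (a + k))‖ ^ 2) / 2 := by
                  refine sum_le_sum fun x _ => ?_
                  nlinarith [sq_nonneg (‖g1 (x + a)‖ - ‖g1 (x + (a + k))‖)]
              _ = ∑ x, ‖g1 x‖ ^ 2 := by
                  rw [← sum_div, sum_add_distrib, t1, t2]; ring
        _ = _ := by
            rw [sum_const, sum_const, nsmul_eq_mul, nsmul_eq_mul]; ring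
    rw [← f1] at f3
    exact le_of_mul_le_mul_left f3 hB
  -- conclusion
  have e4 : ((supp A).card : ℝ) ^ 2 * ‖S‖ ^ 2 ≤ (∑ x, ‖g2 x‖ ^ 2) *
      (((supp A).card : ℝ) * (ker q A B).card * ∑ x, ‖g1 x‖ ^ 2) := by
    refine e2.trans (mul_le_mul_of_nonneg_left e3 ?_)
    exact sum_nonneg fun _ _ => by positivity
  have hc : ((supp A).card : ℝ) = 2 ^ A.card := by
    rw [card_supp]; push_cast; rfl
  rw [hc] at e4 hA
  have : (2 : ℝ) ^ A.card * ((2 : ℝ) ^ A.card * ‖S‖ ^ 2) ≤ (2 : ℝ) ^ A.card *
      ((ker q A B).card * (∑ x, ‖g1 x‖ ^ 2) * (∑ x, ‖g2 x‖ ^ 2)) := by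
    nlinarith [e4]
  have h5 := le_of_mul_le_mul_left this hA
  rw [div_mul_eq_mul_div, div_mul_eq_mul_div, le_div_iff₀ hA]
  linarith

end

end Pool.Agent.H774R2.QTS
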