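import Mathlib
import Pool.Agent.H774R2.QTS.Defs

/-!
# The analytic core: good pairs of read sets contribute little
-/

open Finset

namespace Pool.Agent.H774R2.QTS

section

variable {n : ℕ}

/-- The function does not depend on the coordinates in `B`. -/
def Indep (B : Finset (Fin n)) (g : (Fin n → ZMod 2) → ℂ) : Prop :=
  ∀ x x', (∀ i, i ∉ B → x i = x' i) → g x = g x'

lemma Indep.mono {A B : Finset (Fin n)} (h : A ⊆ B) {g : (Fin n → ZMod 2) → ℂ} (hg : Indep B g) :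
    Indep A g := by
  intro x x' hx
  exact hg x x' fun i hi => hx i fun hA => hi (h hA)

lemma Indep.mul {B : Finset (Fin n)} {g g' : (Fin n → ZMod 2) → ℂ} (hg : Indep B g)
    (hg' : Indep B g') : Indep B (fun x => g x * g' x) := by
  intro x x' hx
  show g x * g' x = g x' * g' x'
  rw [hg x x' hx, hg' x x' hx]

/-- The two-party bound. -/
def TP (F : (Fin n → ZMod 2) → ℂ) (a : ℕ) (κ : ℝ) : Prop :=
  ∀ A B : Finset (Fin n), Disjoint A B → a ≤ A.card → a ≤ B.card →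
    ∀ g1 g2 : (Fin n → ZMod 2) → ℂ, Indep B g1 → Indep A g2 →
      ‖∑ x, F x * (g1 x * g2 x)‖ ≤ κ * ((∑ x, ‖g1 x‖ ^ 2 + ∑ x, ‖g2 x‖ ^ 2) / 2)

/-- Number of subsets of size at most `e`. -/
def vol (n e : ℕ) : ℕ := (univ.filter fun S : Finset (Fin n) => S.card ≤ e).card

/-- Pairs of sets of variables: those read `c` times, those not read. -/
abbrev Dat (n : ℕ) := Finset (Fin n) × Finset (Fin n)

/-- The size of the smaller core. -/
def mn (s s' : Dat n) : ℕ := min (s.1 ∩ s'.2).card (s'.1 ∩ s.2).card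

/-- The exceptional set. -/
def ex (s s' : Dat n) : Finset (Fin n) := symmDiff s.1 s'.2 ∪ symmDiff s'.1 s.2

/-- Good pairs. -/
def GoodP (Γ a0 : ℕ) (s s' : Dat n) : Prop := a0 ≤ mn s s' ∧ Γ * (ex s s').card ≤ mn s s'

instance (Γ a0 : ℕ) (s s' : Dat n) : Decidable (GoodP Γ a0 s s') := by
  unfold GoodP; infer_instance

lemma mn_comm (s s' : Dat n) : mn s s' = mn s' s := by
  unfold mn; exact min_comm _ _

lemma ex_comm (s s' : Dat n) : ex s s' = ex s' s := by
  unfold ex; exact union_comm _ _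

lemma GoodP_comm {Γ a0 : ℕ} {s s' : Dat n} : GoodP Γ a0 s s' ↔ GoodP Γ a0 s' s := by
  unfold GoodP; rw [mn_comm, ex_comm]

lemma mn_le (s s' : Dat n) : mn s s' ≤ n := by
  unfold mn
  refine (min_le_left _ _).trans ?_
  simpa using card_le_univ (s.1 ∩ s'.2)

/-- The number of good partners. -/
lemma card_partners (Γ a0 a : ℕ) (hΓ : 1 ≤ Γ) (s : Dat n) :
    (univ.filter fun s' : Dat n => GoodP Γ a0 s s' ∧ mn s s' = a).card ≤ vol n (a / Γ) ^ 2 := by
  have h : vol n (a / Γ) ^ 2 = ((univ.filter fun S : Finset (Fin n) => S.card ≤ a / Γ) ×ˢ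
      (univ.filter fun S : Finset (Fin n) => S.card ≤ a / Γ)).card := by
    rw [card_product, vol, sq]
  rw [h]
  refine card_le_card_of_injOn (fun s' => (symmDiff s.1 s'.2, symmDiff s'.1 s.2)) ?_ ?_
  · intro s' hs'
    rw [mem_coe, mem_filter] at hs'
    obtain ⟨_, ⟨_, h2⟩, h3⟩ := hs'
    have he : (ex s s').card ≤ a / Γ := by
      rw [Nat.le_div_iff_mul_le (by omega), mul_comm, ← h3]
      exact h2
    rw [mem_coe, mem_product, mem_filter, mem_filter]
    refine ⟨⟨mem_univ _, ?_⟩, mem_univ _, ?_⟩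
    · exact (card_le_card subset_union_left).trans he
    · exact (card_le_card subset_union_right).trans he
  · rintro ⟨a1, a2⟩ _ ⟨b1, b2⟩ _ hab
    simp only [Prod.mk.injEq] at hab ⊢
    refine ⟨symmDiff_left_injective _ hab.2, symmDiff_right_injective _ hab.1⟩

/-- The weighted number of good partners. -/
noncomputable def dlt (n Γ a0 : ℕ) (κ : ℕ → ℝ) : ℝ :=
  ∑ a ∈ Icc a0 n, κ a * (vol n (a / Γ) : ℝ) ^ 2

lemma sum_partners (Γ a0 : ℕ) (hΓ : 1 ≤ Γ) (κ : ℕ → ℝ) (hκ : ∀ a, 0 ≤ κ a) (s : Dat n) :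
    ∑ s' : Dat n, (if GoodP Γ a0 s s' then κ (mn s s') else 0) ≤ dlt n Γ a0 κ := by
  have h1 : ∑ s' : Dat n, (if GoodP Γ a0 s s' then κ (mn s s') else 0) =
      ∑ a ∈ Icc a0 n, ∑ s' ∈ (univ.filter fun s' : Dat n => GoodP Γ a0 s s' ∧ mn s s' = a), κ a := by
    rw [← sum_filter]
    rw [← sum_fiberwise_of_maps_to (g := fun s' => mn s s') (t := Icc a0 n)]
    · refine sum_congr rfl fun a _ => ?_
      rw [filter_filter]
      refine sum_congr rfl fun s' hs' => ?_
      rw [mem_filter] at hs'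
      rw [hs'.2.2]
    · intro s' hs'
      rw [mem_filter] at hs'
      rw [mem_Icc]
      exact ⟨hs'.2.1, mn_le _ _⟩
  rw [h1]
  unfold dlt
  refine sum_le_sum fun a _ => ?_
  rw [sum_const, nsmul_eq_mul, mul_comm]
  refine mul_le_mul_of_nonneg_left ?_ (hκ a)
  have := card_partners (n := n) Γ a0 a hΓ s
  exact_mod_cast this

/-- The sum over the histories with given data. -/
noncomputable def phi {H0 : Type} [Fintype H0] (w0 : H0 → (Fin n → ZMod 2) → ℂ)
    (σ0 : H0 → Dat n) (s : Dat n) (x : Fin n → ZMod 2) : ℂ :=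
  ∑ h0 ∈ univ.filter (fun h0 => σ0 h0 = s), w0 h0 x

lemma phi_indep {H0 : Type} [Fintype H0] (w0 : H0 → (Fin n → ZMod 2) → ℂ)
    (σ0 : H0 → Dat n) (l0 : ∀ h0, Indep (σ0 h0).2 (w0 h0)) (s : Dat n) :
    Indep s.2 (phi w0 σ0 s) := by
  intro x x' hx
  unfold phi
  refine sum_congr rfl fun h0 hh => ?_
  rw [mem_filter] at hh
  apply l0 h0
  rw [hh.2]
  exact hx

lemma phi_sq {H0 : Type} [Fintype H0] (w0 : H0 → (Fin n → ZMod 2) → ℂ)
    (σ0 : H0 → Dat n) (x : Fin n → ZMod 2) (h : ∑ h0, ‖w0 h0 x‖ ≤ 1) :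
    ∑ s, ‖phi w0 σ0 s x‖ ^ 2 ≤ 1 := by
  have h1 : ∑ s, ‖phi w0 σ0 s x‖ ≤ 1 := by
    calc ∑ s, ‖phi w0 σ0 s x‖ ≤ ∑ s, ∑ h0 ∈ univ.filter (fun h0 => σ0 h0 = s), ‖w0 h0 x‖ :=
          sum_le_sum fun s _ => norm_sum_le _ _
      _ = ∑ h0, ‖w0 h0 x‖ := by
          rw [sum_fiberwise]
      _ ≤ 1 := h
  calc ∑ s, ‖phi w0 σ0 s x‖ ^ 2 ≤ ∑ s, ‖phi w0 σ0 s x‖ := by
        refine sum_le_sum fun s _ => ?_
        have h2 : ‖phi w0 σ0 s x‖ ≤ 1 :=
          (single_le_sum (fun s _ => norm_nonneg (phi w0 σ0 s x)) (mem_univ s)).trans h1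
        nlinarith [norm_nonneg (phi w0 σ0 s x)]
    _ ≤ 1 := h1

/-- The core bound for a fixed history of the blocks belonging to nobody. -/
theorem core_fixed {H0 H1 : Type} [Fintype H0] [Fintype H1]
    (w0 : H0 → (Fin n → ZMod 2) → ℂ) (w1 : H1 → (Fin n → ZMod 2) → ℂ)
    (σ0 : H0 → Dat n) (σ1 : H1 → Dat n) (z : (Fin n → ZMod 2) → ℂ) (U : Finset (Fin n))
    (l0 : ∀ h0, Indep (σ0 h0).2 (w0 h0)) (l1 : ∀ h1, Indep (σ1 h1).2 (w1 h1))
    (d0 : ∀ h0, Disjoint (σ0 h0).1 (σ0 h0).2)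
    (u0 : ∀ h0, (σ0 h0).1 ⊆ U) (u1 : ∀ h1, (σ1 h1).1 ⊆ U)
    (hz : Indep U z)
    (n0 : ∀ x, ∑ h0, ‖w0 h0 x‖ ≤ 1) (n1 : ∀ x, ∑ h1, ‖w1 h1 x‖ ≤ 1)
    (F : (Fin n → ZMod 2) → ℂ) (Γ a0 : ℕ) (hΓ : 1 ≤ Γ) (κ : ℕ → ℝ) (hκ : ∀ a, 0 ≤ κ a)
    (hF : ∀ a, a0 ≤ a → TP F a (κ a)) :
    ‖∑ x, F x * ∑ h0, ∑ h1, if GoodP Γ a0 (σ0 h0) (σ1 h1) then w0 h0 x * w1 h1 x * z x else 0‖ ≤
      dlt n Γ a0 κ * ∑ x, ‖z x‖ := by
  classical
  -- regroup
  have r1 : ∀ x, ∑ h0, ∑ h1, (if GoodP Γ a0 (σ0 h0) (σ1 h1) then w0 h0 x * w1 h1 x * z x else 0) =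
      ∑ s, ∑ s', if GoodP Γ a0 s s' then phi w0 σ0 s x * phi w1 σ1 s' x * z x else 0 := by
    intro x
    refine (sum_fiberwise univ σ0 (fun h0 => ∑ h1,
      (if GoodP Γ a0 (σ0 h0) (σ1 h1) then w0 h0 x * w1 h1 x * z x else 0))).symm.trans ?_
    refine sum_congr rfl fun s _ => ?_
    have e1 : ∀ s', (if GoodP Γ a0 s s' then phi w0 σ0 s x * phi w1 σ1 s' x * z x else 0) =
        ∑ h0 ∈ univ.filter (fun h0 => σ0 h0 = s), ∑ h1 ∈ univ.filter (fun h1 => σ1 h1 = s'),
          if GoodP Γ a0 (σ0 h0) (σ1 h1) then w0 h0 x * w1 h1 x * z x else 0 := by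
      intro s'
      have e2 : ∀ h0 ∈ univ.filter (fun h0 => σ0 h0 = s), (∑ h1 ∈ univ.filter (fun h1 => σ1 h1 = s'),
          if GoodP Γ a0 (σ0 h0) (σ1 h1) then w0 h0 x * w1 h1 x * z x else 0) =
          ∑ h1 ∈ univ.filter (fun h1 => σ1 h1 = s'),
          if GoodP Γ a0 s s' then w0 h0 x * w1 h1 x * z x else 0 := by
        intro h0 hh0
        refine sum_congr rfl fun h1 hh1 => ?_
        rw [mem_filter] at hh0 hh1
        rw [hh0.2, hh1.2]
      rw [sum_congr rfl e2]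
      split_ifs with hg
      · unfold phi
        rw [sum_mul_sum, sum_mul]
        refine sum_congr rfl fun h0 _ => ?_
        rw [sum_mul]
      · simp
    simp_rw [e1]
    conv_rhs => rw [sum_comm]
    refine sum_congr rfl fun h0 _ => ?_
    exact (sum_fiberwise univ σ1 _).symm
  have r2 : ∑ x, F x * ∑ h0, ∑ h1, (if GoodP Γ a0 (σ0 h0) (σ1 h1) then w0 h0 x * w1 h1 x * z x else 0) =
      ∑ s, ∑ s', if GoodP Γ a0 s s' then
        ∑ x, F x * (phi w0 σ0 s x * phi w1 σ1 s' x * z x) else 0 := by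
    simp_rw [r1, mul_sum]
    rw [sum_comm]
    refine sum_congr rfl fun s _ => ?_
    rw [sum_comm]
    refine sum_congr rfl fun s' _ => ?_
    split_ifs
    · rfl
    · simp
  rw [r2]
  set Us : Dat n → ℝ := fun s => ∑ x, ‖z x‖ * ‖phi w0 σ0 s x‖ ^ 2 with hUs
  set Vs : Dat n → ℝ := fun s => ∑ x, ‖z x‖ * ‖phi w1 σ1 s x‖ ^ 2 with hVs
  have hUs0 : ∀ s, 0 ≤ Us s := fun s => sum_nonneg fun x _ => by positivity
  have hVs0 : ∀ s, 0 ≤ Vs s := fun s => sum_nonneg fun x _ => by positivity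
  have key : ∀ s s', GoodP Γ a0 s s' →
      ‖∑ x, F x * (phi w0 σ0 s x * phi w1 σ1 s' x * z x)‖ ≤ κ (mn s s') * ((Us s + Vs s') / 2) := by
    intro s s' hg
    by_cases hs : ∃ h0, σ0 h0 = s
    swap
    · have : ∀ x, phi w0 σ0 s x = 0 := by
        intro x
        unfold phi
        have : univ.filter (fun h0 => σ0 h0 = s) = ∅ := by
          ext h0; simp; exact fun h => hs ⟨h0, h⟩
        rw [this, sum_empty]
      simp_rw [this]
      simp only [zero_mul, mul_zero, sum_const_zero, norm_zero]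
      have := hκ (mn s s')
      have := hUs0 s
      have := hVs0 s'
      positivity
    by_cases hs' : ∃ h1, σ1 h1 = s'
    swap
    · have : ∀ x, phi w1 σ1 s' x = 0 := by
        intro x
        unfold phi
        have : univ.filter (fun h0 => σ1 h0 = s') = ∅ := by
          ext h0; simp; exact fun h => hs' ⟨h0, h⟩
        rw [this, sum_empty]
      simp_rw [this]
      simp only [zero_mul, mul_zero, sum_const_zero, norm_zero]
      have := hκ (mn s s')
      have := hUs0 s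
      have := hVs0 s'
      positivity
    obtain ⟨h0, rfl⟩ := hs
    obtain ⟨h1, rfl⟩ := hs'
    set A := (σ0 h0).1 ∩ (σ1 h1).2 with hA
    set B := (σ1 h1).1 ∩ (σ0 h0).2 with hB
    have hAB : Disjoint A B := by
      rw [disjoint_left]
      intro i hiA hiB
      rw [hA, mem_inter] at hiA
      rw [hB, mem_inter] at hiB
      exact disjoint_left.1 (d0 h0) hiA.1 hiB.2
    set g1 : (Fin n → ZMod 2) → ℂ := fun x => ((Real.sqrt ‖z x‖ : ℝ) : ℂ) * phi w0 σ0 (σ0 h0) x with hg1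
    set g2 : (Fin n → ZMod 2) → ℂ := fun x => (z x / ((Real.sqrt ‖z x‖ : ℝ) : ℂ)) * phi w1 σ1 (σ1 h1) x
      with hg2
    have i1 : Indep B g1 := by
      refine Indep.mul (g := fun x => ((Real.sqrt ‖z x‖ : ℝ) : ℂ)) ?_
        ((phi_indep w0 σ0 l0 (σ0 h0)).mono inter_subset_right)
      intro x x' hx
      have : z x = z x' := hz x x' fun i hi => hx i fun hiB => by
        rw [hB, mem_inter] at hiB
        exact hi (u1 h1 hiB.1)
      show ((Real.sqrt ‖z x‖ : ℝ) : ℂ) = ((Real.sqrt ‖z x'‖ : ℝ) : ℂ)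
      rw [this]
    have i2 : Indep A g2 := by
      refine Indep.mul (g := fun x => (z x / ((Real.sqrt ‖z x‖ : ℝ) : ℂ))) ?_
        ((phi_indep w1 σ1 l1 (σ1 h1)).mono inter_subset_right)
      intro x x' hx
      have : z x = z x' := hz x x' fun i hi => hx i fun hiB => by
        rw [hA, mem_inter] at hiB
        exact hi (u0 h0 hiB.1)
      show (z x / ((Real.sqrt ‖z x‖ : ℝ) : ℂ)) = (z x' / ((Real.sqrt ‖z x'‖ : ℝ) : ℂ))
      rw [this]
    have := hF (mn (σ0 h0) (σ1 h1)) hg.1 A B hAB (min_le_left _ _) (min_le_right _ _) g1 g2 i1 i2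
    have e1 : ∑ x, F x * (phi w0 σ0 (σ0 h0) x * phi w1 σ1 (σ1 h1) x * z x) =
        ∑ x, F x * (g1 x * g2 x) := by
      refine sum_congr rfl fun x _ => ?_
      rw [hg1, hg2]
      dsimp only
      by_cases hzx : z x = 0
      · simp [hzx]
      · have hne : ((Real.sqrt ‖z x‖ : ℝ) : ℂ) ≠ 0 := by
          rw [Ne, Complex.ofReal_eq_zero, Real.sqrt_eq_zero (norm_nonneg _), norm_eq_zero]
          exact hzx
        field_simp
    have e2 : ∑ x, ‖g1 x‖ ^ 2 = Us (σ0 h0) := by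
      rw [hUs]
      refine sum_congr rfl fun x _ => ?_
      rw [hg1]
      dsimp only
      rw [norm_mul, mul_pow, Complex.norm_real, Real.norm_of_nonneg (Real.sqrt_nonneg _),
        Real.sq_sqrt (norm_nonneg _)]
    have e3 : ∑ x, ‖g2 x‖ ^ 2 = Vs (σ1 h1) := by
      rw [hVs]
      refine sum_congr rfl fun x _ => ?_
      rw [hg2]
      dsimp only
      rw [norm_mul, mul_pow, norm_div, Complex.norm_real, Real.norm_of_nonneg (Real.sqrt_nonneg _),
        div_pow, Real.sq_sqrt (norm_nonneg _)]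
      congr 1
      by_cases hzx : ‖z x‖ = 0
      · rw [hzx]; simp
      · field_simp
    rw [e1]
    rw [e2, e3] at this
    exact this
  -- sum up
  calc ‖∑ s, ∑ s', if GoodP Γ a0 s s' then
        ∑ x, F x * (phi w0 σ0 s x * phi w1 σ1 s' x * z x) else 0‖
      ≤ ∑ s, ∑ s', (if GoodP Γ a0 s s' then κ (mn s s') * ((Us s + Vs s') / 2) else 0) := by
        refine (norm_sum_le _ _).trans (sum_le_sum fun s _ => ?_)
        refine (norm_sum_le _ _).trans (sum_le_sum fun s' _ => ?_)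
        split_ifs with hg
        · exact key s s' hg
        · simp
    _ = (∑ s, (∑ s', (if GoodP Γ a0 s s' then κ (mn s s') else 0)) * Us s +
        ∑ s', (∑ s, (if GoodP Γ a0 s' s then κ (mn s' s) else 0)) * Vs s') / 2 := by
        have e1 : ∀ s s', (if GoodP Γ a0 s s' then κ (mn s s') * ((Us s + Vs s') / 2) else 0) =
            (if GoodP Γ a0 s s' then κ (mn s s') else 0) * Us s / 2 +
            (if GoodP Γ a0 s' s then κ (mn s' s) else 0) * Vs s' / 2 := by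
          intro s s'
          by_cases hg : GoodP Γ a0 s s'
          · rw [if_pos hg, if_pos hg, if_pos (GoodP_comm.1 hg), mn_comm s' s]; ring
          · rw [if_neg hg, if_neg hg, if_neg (fun h => hg (GoodP_comm.1 h))]; ring
        simp_rw [e1, sum_add_distrib]
        rw [add_div]
        congr 1
        · rw [sum_div]
          refine sum_congr rfl fun s _ => ?_
          rw [sum_mul, sum_div]
        · rw [sum_comm, sum_div]
          refine sum_congr rfl fun s _ => ?_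
          rw [sum_mul, sum_div]
    _ ≤ (∑ s, dlt n Γ a0 κ * Us s + ∑ s', dlt n Γ a0 κ * Vs s') / 2 := by
        have a1 : ∑ s, (∑ s', (if GoodP Γ a0 s s' then κ (mn s s') else 0)) * Us s ≤
            ∑ s, dlt n Γ a0 κ * Us s :=
          sum_le_sum fun s _ => mul_le_mul_of_nonneg_right (sum_partners Γ a0 hΓ κ hκ s) (hUs0 s)
        have a2 : ∑ s', (∑ s, (if GoodP Γ a0 s' s then κ (mn s' s) else 0)) * Vs s' ≤
            ∑ s', dlt n Γ a0 κ * Vs s' :=
          sum_le_sum fun s _ => mul_le_mul_of_nonneg_right (sum_partners Γ a0 hΓ κ hκ s) (hVs0 s)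
        linarith
    _ ≤ dlt n Γ a0 κ * ∑ x, ‖z x‖ := by
        have hd : 0 ≤ dlt n Γ a0 κ := sum_nonneg fun a _ => mul_nonneg (hκ a) (by positivity)
        have b1 : ∑ s, Us s ≤ ∑ x, ‖z x‖ := by
          rw [hUs]
          dsimp only
          rw [sum_comm]
          refine sum_le_sum fun x _ => ?_
          rw [← mul_sum]
          have := phi_sq w0 σ0 x (n0 x)
          nlinarith [norm_nonneg (z x)]
        have b2 : ∑ s, Vs s ≤ ∑ x, ‖z x‖ := by
          rw [hVs]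
          dsimp only
          rw [sum_comm]
          refine sum_le_sum fun x _ => ?_
          rw [← mul_sum]
          have := phi_sq w1 σ1 x (n1 x)
          nlinarith [norm_nonneg (z x)]
        rw [← mul_sum, ← mul_sum]
        nlinarith

end

end Pool.Agent.H774R2.QTS
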