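import Mathlib

/-!
# Good partitions of the blocks

`J i` is the set of blocks in which the variable `i` is read; `ω` assigns the blocks to the first
player (`0`), the second player (`1`) or nobody (`≥ 2`).
-/

open Finset

namespace Pool.Agent.H774R2.QTS

section
variable {n : ℕ} {β : Type}

/-- Number of blocks of player `b` which read `i`. -/
def cnt (b : ℕ) (ω : β → ℕ) (J : Fin n → Finset β) (i : Fin n) : ℕ :=
  ((J i).filter fun j => ω j = b).card

/-- The variables read by the two players only. -/
def uset (ω : β → ℕ) (J : Fin n → Finset β) : Finset (Fin n) :=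
  univ.filter fun i => ∀ j ∈ J i, ω j < 2

/-- The variables in `uset` read by exactly `c` blocks of player `b`. -/
def pset (b c : ℕ) (ω : β → ℕ) (J : Fin n → Finset β) : Finset (Fin n) :=
  (uset ω J).filter fun i => cnt b ω J i = c

/-- The variables read `c` times by player 0 and by nobody else. -/
def aset0 (c : ℕ) (ω : β → ℕ) (J : Fin n → Finset β) : Finset (Fin n) :=
  pset 0 c ω J ∩ pset 1 0 ω J

/-- The variables read `c` times by player 1 and by nobody else. -/
def aset1 (c : ℕ) (ω : β → ℕ) (J : Fin n → Finset β) : Finset (Fin n) :=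
  pset 1 c ω J ∩ pset 0 0 ω J

/-- The exceptional variables. -/
def eset (c : ℕ) (ω : β → ℕ) (J : Fin n → Finset β) : Finset (Fin n) :=
  symmDiff (pset 0 c ω J) (pset 1 0 ω J) ∪ symmDiff (pset 1 c ω J) (pset 0 0 ω J)

/-- `ω` is good for `J` at level `c`. -/
def Good (c Γ a0 : ℕ) (ω : β → ℕ) (J : Fin n → Finset β) : Prop :=
  a0 ≤ min (aset0 c ω J).card (aset1 c ω J).card ∧
    Γ * (eset c ω J).card ≤ min (aset0 c ω J).card (aset1 c ω J).card

instance (c Γ a0 : ℕ) (ω : β → ℕ) (J : Fin n → Finset β) : Decidable (Good c Γ a0 ω J) := by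
  unfold Good; infer_instance

end

end Pool.Agent.H774R2.QTS
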