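import Mathlib
import Pool.Agent.H774R2.QTS.Defs
import Pool.Agent.H774R2.QTS.GoodDefs
import Pool.Agent.H774R2.QTS.Core

/-!
# The core bound for families of blocks
-/

open Finset

namespace Pool.Agent.H774R2.QTS

section

variable {n : ℕ} {β : Type} [Fintype β] [DecidableEq β] {H : Type} [Fintype H]

/-- The blocks reading a variable. -/
def Jof (V : β → H → Finset (Fin n)) (h : β → H) (i : Fin n) : Finset β :=
  univ.filter fun j => i ∈ V j (h j)

/-- Gluing three partial histories. -/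
def glue (ω : β → ℕ) (p : ({j // ω j = 0} → H) × ({j // ω j = 1} → H) × ({j // 2 ≤ ω j} → H)) :
    β → H := fun j =>
  if h0 : ω j = 0 then p.1 ⟨j, h0⟩ else if h1 : ω j = 1 then p.2.1 ⟨j, h1⟩
    else p.2.2 ⟨j, by omega⟩

/-- Histories are triples of partial histories. -/
def glueEquiv (ω : β → ℕ) :
    (({j // ω j = 0} → H) × ({j // ω j = 1} → H) × ({j // 2 ≤ ω j} → H)) ≃ (β → H) where
  toFun := glue ω
  invFun h := (fun j => h j.1, fun j => h j.1, fun j => h j.1)
  left_inv := by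
    rintro ⟨p0, p1, p2⟩
    ext j
    · simp [glue, j.2]
    · have := j.2
      simp [glue, this]
    · have := j.2
      have h0 : ω j.1 ≠ 0 := by omega
      have h1 : ω j.1 ≠ 1 := by omega
      simp [glue, h0, h1]
  right_inv := by
    intro h
    funext j
    unfold glue
    split_ifs <;> rfl

lemma glue_zero (ω : β → ℕ) (p : ({j // ω j = 0} → H) × ({j // ω j = 1} → H) × ({j // 2 ≤ ω j} → H))
    (j : {j // ω j = 0}) : glue ω p j.1 = p.1 j := by
  simp [glue, j.2]

lemma glue_one (ω : β → ℕ) (p : ({j // ω j = 0} → H) × ({j // ω j = 1} → H) × ({j // 2 ≤ ω j} → H))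
    (j : {j // ω j = 1}) : glue ω p j.1 = p.2.1 j := by
  have := j.2
  simp [glue, this]

lemma glue_two (ω : β → ℕ) (p : ({j // ω j = 0} → H) × ({j // ω j = 1} → H) × ({j // 2 ≤ ω j} → H))
    (j : {j // 2 ≤ ω j}) : glue ω p j.1 = p.2.2 j := by
  have := j.2
  have h0 : ω j.1 ≠ 0 := by omega
  have h1 : ω j.1 ≠ 1 := by omega
  simp [glue, h0, h1]

lemma prod_split (ω : β → ℕ) (f : β → ℂ) :
    ∏ j, f j = (∏ j : {j // ω j = 0}, f j.1) * (∏ j : {j // ω j = 1}, f j.1) *
      ∏ j : {j // 2 ≤ ω j}, f j.1 := by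
  have h0 : ∏ j : {j // ω j = 0}, f j.1 = ∏ j ∈ univ.filter (fun j => ω j = 0), f j :=
    (prod_subtype _ (by simp) _).symm
  have h1 : ∏ j : {j // ω j = 1}, f j.1 = ∏ j ∈ univ.filter (fun j => ω j = 1), f j :=
    (prod_subtype _ (by simp) _).symm
  have h2 : ∏ j : {j // 2 ≤ ω j}, f j.1 = ∏ j ∈ univ.filter (fun j => 2 ≤ ω j), f j :=
    (prod_subtype _ (by simp) _).symm
  rw [h0, h1, h2]
  rw [← prod_union, ← prod_union]
  · refine prod_congr ?_ fun _ _ => rfl
    ext j
    simp only [mem_univ, mem_union, mem_filter, true_and, true_iff]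
    omega
  · rw [disjoint_left]
    intro j hj hj'
    simp only [mem_union, mem_filter, mem_univ, true_and] at hj hj'
    omega
  · rw [disjoint_left]
    intro j hj hj'
    simp only [mem_filter, mem_univ, true_and] at hj hj'
    omega

/-- The number of blocks in a family reading a variable. -/
def cnt' {γ : Type} [Fintype γ] (V : γ → H → Finset (Fin n)) (h : γ → H) (i : Fin n) : ℕ :=
  (univ.filter fun j => i ∈ V j (h j)).card

lemma cnt_glue_zero (ω : β → ℕ) (V : β → H → Finset (Fin n))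
    (p : ({j // ω j = 0} → H) × ({j // ω j = 1} → H) × ({j // 2 ≤ ω j} → H)) (i : Fin n) :
    cnt 0 ω (Jof V (glue ω p)) i = cnt' (fun j : {j // ω j = 0} => V j.1) p.1 i := by
  unfold cnt cnt' Jof
  rw [filter_filter]
  refine (card_bij (fun (j : {j // ω j = 0}) _ => j.1) ?_ ?_ ?_).symm
  · intro j hj
    rw [mem_filter] at hj ⊢
    rw [glue_zero]
    exact ⟨mem_univ _, hj.2, j.2⟩
  · intro j _ j' _ h
    exact Subtype.ext h
  · intro j hj
    rw [mem_filter] at hj
    refine ⟨⟨j, hj.2.2⟩, ?_, rfl⟩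
    rw [mem_filter]
    refine ⟨mem_univ _, ?_⟩
    rw [← glue_zero ω p ⟨j, hj.2.2⟩]
    exact hj.2.1

lemma cnt_glue_one (ω : β → ℕ) (V : β → H → Finset (Fin n))
    (p : ({j // ω j = 0} → H) × ({j // ω j = 1} → H) × ({j // 2 ≤ ω j} → H)) (i : Fin n) :
    cnt 1 ω (Jof V (glue ω p)) i = cnt' (fun j : {j // ω j = 1} => V j.1) p.2.1 i := by
  unfold cnt cnt' Jof
  rw [filter_filter]
  refine (card_bij (fun (j : {j // ω j = 1}) _ => j.1) ?_ ?_ ?_).symm
  · intro j hj
    rw [mem_filter] at hj ⊢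
    rw [glue_one]
    exact ⟨mem_univ _, hj.2, j.2⟩
  · intro j _ j' _ h
    exact Subtype.ext h
  · intro j hj
    rw [mem_filter] at hj
    refine ⟨⟨j, hj.2.2⟩, ?_, rfl⟩
    rw [mem_filter]
    refine ⟨mem_univ _, ?_⟩
    rw [← glue_one ω p ⟨j, hj.2.2⟩]
    exact hj.2.1

/-- The variables not read by the blocks of a family. -/
def unread {γ : Type} [Fintype γ] (V : γ → H → Finset (Fin n)) (h : γ → H) : Finset (Fin n) :=
  univ.filter fun i => ∀ j, i ∉ V j (h j)

lemma uset_glue (ω : β → ℕ) (V : β → H → Finset (Fin n))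
    (p : ({j // ω j = 0} → H) × ({j // ω j = 1} → H) × ({j // 2 ≤ ω j} → H)) :
    uset ω (Jof V (glue ω p)) = unread (fun j : {j // 2 ≤ ω j} => V j.1) p.2.2 := by
  unfold uset unread Jof
  ext i
  simp only [mem_filter, mem_univ, true_and]
  constructor
  · intro h j hj
    have := h j.1 (by rw [glue_two]; exact hj)
    have := j.2
    omega
  · intro h j hj
    by_contra hcon
    have h2 : 2 ≤ ω j := by omega
    apply h ⟨j, h2⟩
    rw [← glue_two ω p ⟨j, h2⟩]
    exact hj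

/-- The data of the history of one player. -/
def sg {γ : Type} [Fintype γ] (c : ℕ) (U : Finset (Fin n)) (V : γ → H → Finset (Fin n)) (h : γ → H) :
    Dat n :=
  (U.filter fun i => cnt' V h i = c, U.filter fun i => cnt' V h i = 0)

lemma Good_glue (c Γ a0 : ℕ) (ω : β → ℕ) (V : β → H → Finset (Fin n))
    (p : ({j // ω j = 0} → H) × ({j // ω j = 1} → H) × ({j // 2 ≤ ω j} → H)) :
    Good c Γ a0 ω (Jof V (glue ω p)) ↔
      GoodP Γ a0
        (sg c (unread (fun j : {j // 2 ≤ ω j} => V j.1) p.2.2) (fun j : {j // ω j = 0} => V j.1) p.1)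
        (sg c (unread (fun j : {j // 2 ≤ ω j} => V j.1) p.2.2) (fun j : {j // ω j = 1} => V j.1)
          p.2.1) := by
  have e0 : ∀ c', pset 0 c' ω (Jof V (glue ω p)) =
      (unread (fun j : {j // 2 ≤ ω j} => V j.1) p.2.2).filter
        fun i => cnt' (fun j : {j // ω j = 0} => V j.1) p.1 i = c' := by
    intro c'
    unfold pset
    rw [uset_glue]
    refine filter_congr fun i _ => ?_
    rw [cnt_glue_zero]
  have e1 : ∀ c', pset 1 c' ω (Jof V (glue ω p)) =
      (unread (fun j : {j // 2 ≤ ω j} => V j.1) p.2.2).filter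
        fun i => cnt' (fun j : {j // ω j = 1} => V j.1) p.2.1 i = c' := by
    intro c'
    unfold pset
    rw [uset_glue]
    refine filter_congr fun i _ => ?_
    rw [cnt_glue_one]
  unfold Good GoodP mn ex aset0 aset1 eset sg
  simp only [e0, e1]

lemma sum_prod_norm {γ : Type} [Fintype γ] [DecidableEq γ] (w : γ → H → (Fin n → ZMod 2) → ℂ)
    (hnorm : ∀ j x, ∑ h, ‖w j h x‖ ≤ 1) (x : Fin n → ZMod 2) :
    ∑ h : γ → H, ‖∏ j, w j (h j) x‖ ≤ 1 := by
  simp_rw [norm_prod]
  have h1 := Finset.prod_univ_sum (fun _ : γ => (univ : Finset H)) (fun j h => ‖w j h x‖)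
  rw [Fintype.piFinset_univ] at h1
  rw [← h1]
  exact prod_le_one (fun j _ => sum_nonneg fun h _ => norm_nonneg _) (fun j _ => hnorm j x)

lemma indep_prod {γ : Type} [Fintype γ] (V : γ → H → Finset (Fin n))
    (w : γ → H → (Fin n → ZMod 2) → ℂ)
    (hloc : ∀ j h x x', (∀ i, i ∈ V j h → x i = x' i) → w j h x = w j h x')
    (h : γ → H) (B : Finset (Fin n)) (hB : ∀ i ∈ B, ∀ j, i ∉ V j (h j)) :
    Indep B (fun x => ∏ j, w j (h j) x) := by
  intro x x' hx
  refine prod_congr rfl fun j _ => ?_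
  apply hloc
  intro i hi
  exact hx i fun hiB => hB i hiB j hi

/-- The core bound for blocks. -/
theorem core_blocks (V : β → H → Finset (Fin n)) (w : β → H → (Fin n → ZMod 2) → ℂ)
    (hloc : ∀ j h x x', (∀ i, i ∈ V j h → x i = x' i) → w j h x = w j h x')
    (hnorm : ∀ j x, ∑ h, ‖w j h x‖ ≤ 1) (ω : β → ℕ)
    (F : (Fin n → ZMod 2) → ℂ) (c Γ a0 : ℕ) (hc : 1 ≤ c) (hΓ : 1 ≤ Γ) (κ : ℕ → ℝ)
    (hκ : ∀ a, 0 ≤ κ a) (hF : ∀ a, a0 ≤ a → TP F a (κ a)) :
    ‖∑ x, F x * ∑ h : β → H, if Good c Γ a0 ω (Jof V h) then ∏ j, w j (h j) x else 0‖ ≤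
      dlt n Γ a0 κ * 2 ^ n := by
  classical
  have hd : 0 ≤ dlt n Γ a0 κ := sum_nonneg fun a _ => mul_nonneg (hκ a) (by positivity)
  set w0 : ({j // ω j = 0} → H) → (Fin n → ZMod 2) → ℂ := fun h x => ∏ j, w j.1 (h j) x with hw0
  set w1 : ({j // ω j = 1} → H) → (Fin n → ZMod 2) → ℂ := fun h x => ∏ j, w j.1 (h j) x with hw1
  set w2 : ({j // 2 ≤ ω j} → H) → (Fin n → ZMod 2) → ℂ := fun h x => ∏ j, w j.1 (h j) x with hw2
  set U : ({j // 2 ≤ ω j} → H) → Finset (Fin n) := fun h =>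
    unread (fun j : {j // 2 ≤ ω j} => V j.1) h with hU
  set σ0 : ({j // 2 ≤ ω j} → H) → ({j // ω j = 0} → H) → Dat n := fun h2 h0 =>
    sg c (U h2) (fun j : {j // ω j = 0} => V j.1) h0 with hσ0
  set σ1 : ({j // 2 ≤ ω j} → H) → ({j // ω j = 1} → H) → Dat n := fun h2 h0 =>
    sg c (U h2) (fun j : {j // ω j = 1} => V j.1) h0 with hσ1
  have e1 : ∀ x, ∑ h : β → H, (if Good c Γ a0 ω (Jof V h) then ∏ j, w j (h j) x else 0) =
      ∑ h2, ∑ h0, ∑ h1, if GoodP Γ a0 (σ0 h2 h0) (σ1 h2 h1) then w0 h0 x * w1 h1 x * w2 h2 x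
        else 0 := by
    intro x
    rw [← (glueEquiv ω).sum_comp]
    rw [Fintype.sum_prod_type]
    have s1 : ∀ h0 : {j // ω j = 0} → H,
        (∑ q : ({j // ω j = 1} → H) × ({j // 2 ≤ ω j} → H),
          (if Good c Γ a0 ω (Jof V (glueEquiv ω (h0, q))) then
            ∏ j, w j (glueEquiv ω (h0, q) j) x else 0)) =
        ∑ h2, ∑ h1, if GoodP Γ a0 (σ0 h2 h0) (σ1 h2 h1) then w0 h0 x * w1 h1 x * w2 h2 x
        else 0 := by
      intro h0
      rw [Fintype.sum_prod_type, sum_comm]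
      refine sum_congr rfl fun h2 _ => sum_congr rfl fun h1 _ => ?_
      have hg := Good_glue c Γ a0 ω V (h0, h1, h2)
      have hp : ∏ j, w j (glueEquiv ω (h0, h1, h2) j) x = w0 h0 x * w1 h1 x * w2 h2 x := by
        rw [prod_split ω]
        rw [hw0, hw1, hw2]
        dsimp only
        congr 1
        · congr 1
          · refine prod_congr rfl fun j _ => ?_
            congr 1
            exact glue_zero ω (h0, h1, h2) j
          · refine prod_congr rfl fun j _ => ?_
            congr 1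
            exact glue_one ω (h0, h1, h2) j
        · refine prod_congr rfl fun j _ => ?_
          congr 1
          exact glue_two ω (h0, h1, h2) j
      rw [hp]
      by_cases hgg : Good c Γ a0 ω (Jof V (glue ω (h0, h1, h2)))
      · rw [if_pos (show Good c Γ a0 ω (Jof V (glueEquiv ω (h0, h1, h2))) from hgg),
          if_pos (hg.1 hgg)]
      · rw [if_neg (show ¬ Good c Γ a0 ω (Jof V (glueEquiv ω (h0, h1, h2))) from hgg),
          if_neg (fun h => hgg (hg.2 h))]
    rw [sum_congr rfl fun h0 _ => s1 h0]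
    rw [sum_comm]
  have e2 : ∑ x, F x * ∑ h : β → H, (if Good c Γ a0 ω (Jof V h) then ∏ j, w j (h j) x else 0) =
      ∑ h2, ∑ x, F x * ∑ h0, ∑ h1, if GoodP Γ a0 (σ0 h2 h0) (σ1 h2 h1) then
        w0 h0 x * w1 h1 x * w2 h2 x else 0 := by
    simp_rw [e1]
    rw [sum_comm]
    refine sum_congr rfl fun x _ => ?_
    rw [mul_sum]
  rw [e2]
  have key : ∀ h2, ‖∑ x, F x * ∑ h0, ∑ h1, if GoodP Γ a0 (σ0 h2 h0) (σ1 h2 h1) then
        w0 h0 x * w1 h1 x * w2 h2 x else 0‖ ≤ dlt n Γ a0 κ * ∑ x, ‖w2 h2 x‖ := by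
    intro h2
    refine core_fixed w0 w1 (σ0 h2) (σ1 h2) (w2 h2) (U h2) ?_ ?_ ?_ ?_ ?_ ?_ ?_ ?_ F Γ a0 hΓ κ hκ hF
    · intro h0
      refine indep_prod (fun j : {j // ω j = 0} => V j.1) (fun j => w j.1)
        (fun j => hloc j.1) h0 _ ?_
      intro i hi j hj
      rw [hσ0] at hi
      simp only [sg, mem_filter, cnt', card_eq_zero] at hi
      have : j ∈ univ.filter (fun j : {j // ω j = 0} => i ∈ V j.1 (h0 j)) := by simp [hj]
      rw [hi.2] at this
      exact absurd this (notMem_empty _)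
    · intro h0
      refine indep_prod (fun j : {j // ω j = 1} => V j.1) (fun j => w j.1)
        (fun j => hloc j.1) h0 _ ?_
      intro i hi j hj
      rw [hσ1] at hi
      simp only [sg, mem_filter, cnt', card_eq_zero] at hi
      have : j ∈ univ.filter (fun j : {j // ω j = 1} => i ∈ V j.1 (h0 j)) := by simp [hj]
      rw [hi.2] at this
      exact absurd this (notMem_empty _)
    · intro h0
      rw [disjoint_left]
      intro i hi hi'
      rw [hσ0] at hi hi'
      simp only [sg, mem_filter] at hi hi'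
      omega
    · intro h0; exact filter_subset _ _
    · intro h0; exact filter_subset _ _
    · refine indep_prod (fun j : {j // 2 ≤ ω j} => V j.1) (fun j => w j.1)
        (fun j => hloc j.1) h2 _ ?_
      intro i hi j
      rw [hU] at hi
      simp only [unread, mem_filter] at hi
      exact hi.2 j
    · intro x; exact sum_prod_norm (fun j : {j // ω j = 0} => w j.1) (fun j => hnorm j.1) x
    · intro x; exact sum_prod_norm (fun j : {j // ω j = 1} => w j.1) (fun j => hnorm j.1) x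
  calc _ ≤ ∑ h2, dlt n Γ a0 κ * ∑ x, ‖w2 h2 x‖ := (norm_sum_le _ _).trans (sum_le_sum fun h2 _ => key h2)
    _ = dlt n Γ a0 κ * ∑ x, ∑ h2, ‖w2 h2 x‖ := by
      rw [← mul_sum, sum_comm]
    _ ≤ dlt n Γ a0 κ * ∑ _x : Fin n → ZMod 2, (1 : ℝ) := by
      refine mul_le_mul_of_nonneg_left (sum_le_sum fun x _ => ?_) hd
      exact sum_prod_norm (fun j : {j // 2 ≤ ω j} => w j.1) (fun j => hnorm j.1) x
    _ = dlt n Γ a0 κ * 2 ^ n := by
      rw [sum_const, nsmul_eq_mul, mul_one, card_univ, Fintype.card_fun, ZMod.card, Fintype.card_fin]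
      push_cast
      rfl

end

end Pool.Agent.H774R2.QTS
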