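import Mathlib

/-!
# Products of Kraus operators along histories
-/

open Finset Matrix

namespace Pool.Agent.H774R2.QTS

section

variable {D : ℕ} {ι : Type} [Fintype ι]

/-- The product of the operators along a history. -/
def prodK (A : ℕ → ι → Matrix (Fin D) (Fin D) ℂ) : (s : ℕ) → (Fin s → ι) → Matrix (Fin D) (Fin D) ℂ
  | 0, _ => 1
  | s + 1, h => A s (h (Fin.last s)) * prodK A s (fun j => h j.castSucc)

lemma sum_snoc {M : Type} [AddCommMonoid M] {α : Type} [Fintype α] (s : ℕ) (f : (Fin (s + 1) → α) → M) :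
    ∑ h, f h = ∑ i : α, ∑ h : Fin s → α, f (Fin.snoc (α := fun _ => α) h i) := by
  rw [← (Fin.snocEquiv (fun _ : Fin (s + 1) => α)).sum_comp, Fintype.sum_prod_type]
  rfl

omit [Fintype ι] in
lemma prodK_snoc (A : ℕ → ι → Matrix (Fin D) (Fin D) ℂ) (s : ℕ) (h : Fin s → ι) (i : ι) :
    prodK A (s + 1) (Fin.snoc (α := fun _ => ι) h i) = A s i * prodK A s h := by
  unfold prodK
  simp only [Fin.snoc_last, Fin.snoc_castSucc]
  cases s <;> rfl

lemma state_eq (A : ℕ → ι → Matrix (Fin D) (Fin D) ℂ) (ρ : ℕ → Matrix (Fin D) (Fin D) ℂ)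
    (hρ : ∀ s, ρ (s + 1) = ∑ i, A s i * ρ s * (A s i)ᴴ) (s : ℕ) :
    ρ s = ∑ h : Fin s → ι, prodK A s h * ρ 0 * (prodK A s h)ᴴ := by
  induction s with
  | zero => simp [prodK]
  | succ s ih =>
    rw [sum_snoc, hρ]
    refine sum_congr rfl fun i _ => ?_
    rw [ih, mul_sum, sum_mul]
    refine sum_congr rfl fun h _ => ?_
    rw [prodK_snoc, conjTranspose_mul]
    simp only [Matrix.mul_assoc]

lemma unit_eq (A : ℕ → ι → Matrix (Fin D) (Fin D) ℂ)
    (hA : ∀ s, ∑ i, (A s i)ᴴ * A s i = 1) (s : ℕ) :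
    ∑ h : Fin s → ι, (prodK A s h)ᴴ * prodK A s h = 1 := by
  induction s with
  | zero => simp [prodK]
  | succ s ih =>
    rw [sum_snoc, sum_comm]
    have : ∀ h : Fin s → ι, ∑ i, (prodK A (s + 1) (Fin.snoc (α := fun _ => ι) h i))ᴴ *
        prodK A (s + 1) (Fin.snoc (α := fun _ => ι) h i) = (prodK A s h)ᴴ * prodK A s h := by
      intro h
      calc _ = ∑ i, (prodK A s h)ᴴ * ((A s i)ᴴ * A s i) * prodK A s h := by
            refine sum_congr rfl fun i _ => ?_
            rw [prodK_snoc, conjTranspose_mul]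
            simp only [Matrix.mul_assoc]
        _ = _ := by rw [← sum_mul, ← mul_sum, hA, Matrix.mul_one]
    rw [sum_congr rfl fun h _ => this h, ih]

/-- Entries of the product as sums over paths. -/
lemma prodK_apply (A : ℕ → ι → Matrix (Fin D) (Fin D) ℂ) (s : ℕ) (h : Fin s → ι) (a b : Fin D) :
    prodK A s h a b = ∑ p : Fin (s + 1) → Fin D, if p 0 = b ∧ p (Fin.last s) = a then
      ∏ j : Fin s, A j (h j) (p j.succ) (p j.castSucc) else 0 := by
  induction s generalizing a with
  | zero =>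
    have : ∑ p : Fin (0 + 1) → Fin D, (if p 0 = b ∧ p (Fin.last 0) = a then
        ∏ j : Fin 0, A j (h j) (p j.succ) (p j.castSucc) else 0) =
        ∑ i : Fin D, if i = b ∧ i = a then (1 : ℂ) else 0 := by
      refine Fintype.sum_equiv (Equiv.funUnique (Fin 1) (Fin D)) _ _ fun p => ?_
      simp only [univ_eq_empty, prod_empty]
      rfl
    rw [this]
    unfold prodK
    rw [Matrix.one_apply]
    by_cases hab : a = b
    · subst hab
      simp
    · rw [if_neg hab]
      symm
      apply sum_eq_zero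
      intro i _
      rw [if_neg]
      rintro ⟨h1, h2⟩
      exact hab (h2.symm.trans h1)
  | succ s ih =>
    rw [sum_snoc]
    have e1 : ∀ i : Fin D, ∑ p : Fin (s + 1) → Fin D,
        (if (Fin.snoc (α := fun _ => Fin D) p i : Fin (s + 1 + 1) → Fin D) 0 = b ∧
          (Fin.snoc (α := fun _ => Fin D) p i : Fin (s + 1 + 1) → Fin D) (Fin.last (s + 1)) = a then
        ∏ j : Fin (s + 1), A j (h j) ((Fin.snoc (α := fun _ => Fin D) p i : Fin (s + 1 + 1) → Fin D) j.succ)
          ((Fin.snoc (α := fun _ => Fin D) p i : Fin (s + 1 + 1) → Fin D) j.castSucc) else 0) =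
        if i = a then ∑ p : Fin (s + 1) → Fin D, (if p 0 = b then
          (∏ j : Fin s, A j (h j.castSucc) (p j.succ) (p j.castSucc)) *
            A s (h (Fin.last s)) a (p (Fin.last s)) else 0) else 0 := by
      intro i
      by_cases hi : i = a
      · subst hi
        rw [if_pos rfl]
        refine sum_congr rfl fun p _ => ?_
        have z0 : (Fin.snoc (α := fun _ => Fin D) p i : Fin (s + 1 + 1) → Fin D) 0 = p 0 :=
          Fin.snoc_castSucc (α := fun _ => Fin D) i p 0
        rw [z0, Fin.snoc_last]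
        by_cases hb : p 0 = b
        · rw [if_pos ⟨hb, rfl⟩, if_pos hb, Fin.prod_univ_castSucc]
          congr 1
          · refine prod_congr rfl fun j _ => ?_
            have z1 : (Fin.snoc (α := fun _ => Fin D) p i : Fin (s + 1 + 1) → Fin D) j.castSucc.succ =
                p j.succ := Fin.snoc_castSucc (α := fun _ => Fin D) i p j.succ
            rw [z1, Fin.snoc_castSucc]
            rfl
          · rw [Fin.snoc_castSucc]
            have z2 : (Fin.snoc (α := fun _ => Fin D) p i : Fin (s + 1 + 1) → Fin D) (Fin.last s).succ =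
                i := Fin.snoc_last (α := fun _ => Fin D) i p
            rw [z2]
            rfl
        · rw [if_neg (fun h => hb h.1), if_neg hb]
      · rw [if_neg hi]
        apply sum_eq_zero
        intro p _
        rw [Fin.snoc_last, if_neg]
        rintro ⟨_, h2⟩
        exact hi h2
    rw [sum_congr rfl fun i _ => e1 i, sum_ite_eq' univ a, if_pos (mem_univ _)]
    show (A s (h (Fin.last s)) * prodK A s (fun j => h j.castSucc)) a b = _
    rw [Matrix.mul_apply]
    have e2 : ∀ c, A s (h (Fin.last s)) a c * prodK A s (fun j => h j.castSucc) c b =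
        ∑ p : Fin (s + 1) → Fin D, if p (Fin.last s) = c then (if p 0 = b then
          (∏ j : Fin s, A j (h j.castSucc) (p j.succ) (p j.castSucc)) *
            A s (h (Fin.last s)) a (p (Fin.last s)) else 0) else 0 := by
      intro c
      rw [ih, mul_sum]
      refine sum_congr rfl fun p _ => ?_
      by_cases h1 : p (Fin.last s) = c
      · by_cases h2 : p 0 = b
        · rw [if_pos ⟨h2, h1⟩, if_pos h1, if_pos h2, h1]; ring
        · rw [if_neg (fun h => h2 h.1), if_pos h1, if_neg h2, mul_zero]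
      · rw [if_neg (fun h => h1 h.2), if_neg h1, mul_zero]
    rw [sum_congr rfl fun c _ => e2 c, sum_comm]
    refine sum_congr rfl fun p _ => ?_
    rw [sum_ite_eq univ (p (Fin.last s)), if_pos (mem_univ _)]

/-- Bound on the sum of products of entries. -/
lemma sum_entries (A : ι → Matrix (Fin D) (Fin D) ℂ) (hA : ∑ i, (A i)ᴴ * A i = 1)
    (a b a' b' : Fin D) : ∑ i, ‖A i a b * (starRingEnd ℂ) (A i a' b')‖ ≤ 1 := by
  have key : ∀ a b : Fin D, ∑ i, ‖A i a b‖ ^ 2 ≤ 1 := by
    intro a b
    have h1 : (∑ i, (A i)ᴴ * A i) b b = 1 := by rw [hA]; simp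
    rw [Matrix.sum_apply] at h1
    have h2 : ∀ i, ((A i)ᴴ * A i) b b = ((∑ c, ‖A i c b‖ ^ 2 : ℝ) : ℂ) := by
      intro i
      rw [Matrix.mul_apply]
      push_cast
      refine sum_congr rfl fun c _ => ?_
      rw [conjTranspose_apply, ← Complex.conj_mul']
      rfl
    simp_rw [h2] at h1
    have h3 : ∑ i, ∑ c, ‖A i c b‖ ^ 2 = (1 : ℝ) := by exact_mod_cast h1
    rw [← h3]
    refine sum_le_sum fun i _ => ?_
    exact single_le_sum (f := fun c => ‖A i c b‖ ^ 2) (fun c _ => by positivity) (mem_univ a)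
  calc ∑ i, ‖A i a b * (starRingEnd ℂ) (A i a' b')‖
      ≤ ∑ i, (‖A i a b‖ ^ 2 + ‖A i a' b'‖ ^ 2) / 2 := by
        refine sum_le_sum fun i _ => ?_
        rw [norm_mul, RCLike.norm_conj]
        nlinarith [sq_nonneg (‖A i a b‖ - ‖A i a' b'‖)]
    _ = ((∑ i, ‖A i a b‖ ^ 2) + ∑ i, ‖A i a' b'‖ ^ 2) / 2 := by
        rw [← sum_div, sum_add_distrib]
    _ ≤ 1 := by
        have := key a b
        have := key a' b'
        linarith

end

end Pool.Agent.H774R2.QTS
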