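import Mathlib
import Pool.Agent.H774R2.QTS.Defs

/-!
# The explicit function as a quadratic form
-/

open Finset

namespace Pool.Agent.H774R2.QTS

section

variable {N : ℕ}

/-- The input with data part `x`, taps `g` and window `s`. -/
def inp (N : ℕ) (g s : List Bool) (x : Fin (N / 3) → ZMod 2) (i : Fin N) : Bool :=
  if h : i.val < N / 3 then decide (x ⟨i.val, h⟩ = 1)
  else if i.val < 2 * (N / 3) then g.getD (i.val - N / 3) false
  else if i.val < 3 * (N / 3) then s.getD (i.val - 2 * (N / 3)) false else false

/-- The data variable at a position. -/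
def loc (N : ℕ) (i : Fin N) : Option (Fin (N / 3)) :=
  if h : i.val < N / 3 then some ⟨i.val, h⟩ else none

lemma inp_local (g s : List Bool) (x x' : Fin (N / 3) → ZMod 2) (i : Fin N)
    (h : ∀ k, loc N i = some k → x k = x' k) : inp N g s x i = inp N g s x' i := by
  unfold inp
  split_ifs with h1
  · rw [h ⟨i.val, h1⟩ (by unfold loc; rw [dif_pos h1])]
  · rfl
  · rfl
  · rfl

lemma loc_surj (k : Fin (N / 3)) : ∃ i, loc N i = some k := by
  have hk := k.2
  refine ⟨⟨k.val, by omega⟩, ?_⟩
  unfold loc
  rw [dif_pos hk]

lemma getD_ofFn_inp (g s : List Bool) (x : Fin (N / 3) → ZMod 2) (i : ℕ) (hi : i < N / 3) :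
    (List.ofFn (inp N g s x)).getD i false = decide (x ⟨i, hi⟩ = 1) := by
  have hN : i < N := by omega
  rw [List.getD_eq_getElem _ _ (by simpa using hN), List.getElem_ofFn]
  unfold inp
  rw [dif_pos hi]

lemma taps_inp (g s : List Bool) (hg : g.length = N / 3) (x : Fin (N / 3) → ZMod 2) :
    ((List.ofFn (inp N g s x)).drop (N / 3)).take (N / 3) = g := by
  apply List.ext_getElem
  · simp [hg]; omega
  · intro i h1 h2
    rw [List.getElem_take, List.getElem_drop, List.getElem_ofFn]
    unfold inp
    have : i < N / 3 := by omega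
    simp only
    rw [dif_neg (by omega), if_pos (by omega), List.getD_eq_getElem _ _ (by omega)]
    congr 1
    omega

lemma start_inp (g s : List Bool) (hs : s.length = N / 3) (x : Fin (N / 3) → ZMod 2) :
    ((List.ofFn (inp N g s x)).drop (2 * (N / 3))).take (N / 3) = s := by
  apply List.ext_getElem
  · simp [hs]; omega
  · intro i h1 h2
    rw [List.getElem_take, List.getElem_drop, List.getElem_ofFn]
    unfold inp
    have : i < N / 3 := by omega
    simp only
    rw [dif_neg (by omega), if_neg (by omega), if_pos (by omega), List.getD_eq_getElem _ _ (by omega)]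
    congr 1
    omega

lemma length_filter_flatMap (n : ℕ) (P : ℕ × ℕ → Bool) :
    ((pairs n).filter P).length = ∑ i ∈ range n, ∑ j ∈ range n, if P (i, j) then 1 else 0 := by
  unfold pairs
  rw [List.filter_flatMap, List.length_flatMap]
  have h1 : ∀ (f : ℕ → ℕ) (n : ℕ), ((List.range n).map f).sum = ∑ i ∈ range n, f i := by
    intro f n
    induction n with
    | zero => simp
    | succ n ih => rw [List.range_succ, List.map_append, List.sum_append, ih, sum_range_succ]; simp
  rw [h1]
  refine sum_congr rfl fun i _ => ?_
  rw [List.filter_map, List.length_map]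
  have h2 : ∀ (p : ℕ → Bool) (n : ℕ), ((List.range n).filter p).length =
      ∑ j ∈ range n, if p j then 1 else 0 := by
    intro p n
    induction n with
    | zero => simp
    | succ n ih =>
      rw [List.range_succ, List.filter_append, List.length_append, ih, sum_range_succ]
      congr 1
      by_cases h : p n <;> simp [h]
  rw [h2]
  rfl

lemma odd_iff_cast (k : ℕ) : Odd k ↔ (k : ZMod 2) = 1 := by
  rw [← ZMod.natCast_eq_one_iff_odd]

theorem quadFun_inp (g s : List Bool) (hg : g.length = N / 3) (hs : s.length = N / 3)
    (x : Fin (N / 3) → ZMod 2) :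
    quadFun (List.ofFn (inp N g s x)) = true ↔ quad (fun t => bz (lfsr g s t)) x = 1 := by
  unfold quadFun
  rw [decide_eq_true_eq, odd_iff_cast, List.length_ofFn, taps_inp g s hg, start_inp g s hs,
    length_filter_flatMap]
  have key : ((∑ i ∈ range (N / 3), ∑ j ∈ range (N / 3),
      if (decide ((i, j).1 < (i, j).2) && (List.ofFn (inp N g s x)).getD (i, j).1 false &&
        (List.ofFn (inp N g s x)).getD (i, j).2 false &&
        lfsr g s ((i, j).1 * (N / 3) + (i, j).2)) = true then 1 else 0 : ℕ) : ZMod 2) =
      quad (fun t => bz (lfsr g s t)) x := by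
    push_cast
    unfold quad
    rw [← Fin.sum_univ_eq_sum_range (fun i => ∑ j ∈ range (N / 3),
      if (decide (i < j) && (List.ofFn (inp N g s x)).getD i false &&
        (List.ofFn (inp N g s x)).getD j false && lfsr g s (i * (N / 3) + j)) = true then
        (1 : ZMod 2) else 0)]
    refine sum_congr rfl fun i _ => ?_
    rw [← Fin.sum_univ_eq_sum_range (fun j =>
      if (decide (i.val < j) && (List.ofFn (inp N g s x)).getD i.val false &&
        (List.ofFn (inp N g s x)).getD j false && lfsr g s (i.val * (N / 3) + j)) = true then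
        (1 : ZMod 2) else 0)]
    refine sum_congr rfl fun j _ => ?_
    rw [getD_ofFn_inp g s x i.val i.2, getD_ofFn_inp g s x j.val j.2]
    have z2 : ∀ z : ZMod 2, z = 0 ∨ z = 1 := by decide
    by_cases hij : i < j
    · have hij' : i.val < j.val := hij
      rw [if_pos hij]
      have ei : (⟨i.val, i.2⟩ : Fin (N / 3)) = i := rfl
      have ej : (⟨j.val, j.2⟩ : Fin (N / 3)) = j := rfl
      rw [ei, ej]
      rcases z2 (x i) with h1 | h1 <;> rcases z2 (x j) with h2 | h2 <;>
        cases h3 : lfsr g s (i.val * (N / 3) + j.val) <;>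
        simp [h1, h2, h3, hij', bz]
    · have hij' : ¬ i.val < j.val := hij
      rw [if_neg hij]
      simp [hij']
  rw [← key]

end

end Pool.Agent.H774R2.QTS
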