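import Mathlib
import Pool.Agent.H774R2.QTS.GoodDefs

/-! Task PROB : random partitions of the blocks are good. -/

open Finset

set_option linter.unusedSectionVars false

namespace Pool.Agent.H774R2.QTS
namespace ProbT

section count
variable {n : ℕ} {β : Type} [Fintype β] [DecidableEq β]

lemma count_fix {Q : ℕ} (K : Finset β) (v : β → ℕ) (hv : ∀ j, v j < Q) :
    (univ.filter fun ω : β → Fin Q => ∀ j ∈ K, (ω j).val = v j).card * Q ^ K.card
      = Q ^ Fintype.card β := by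
  have h1 : (univ.filter fun ω : β → Fin Q => ∀ j ∈ K, (ω j).val = v j) =
      Fintype.piFinset (fun j => if j ∈ K then ({⟨v j, hv j⟩} : Finset (Fin Q)) else univ) := by
    ext ω
    simp only [mem_filter, mem_univ, true_and, Fintype.mem_piFinset]
    refine forall_congr' fun j => ?_
    by_cases h : j ∈ K
    · simp [h, Fin.ext_iff]
    · simp [h]
  rw [h1, Fintype.card_piFinset]
  have h2 : ∀ j, (if j ∈ K then ({⟨v j, hv j⟩} : Finset (Fin Q)) else univ).card
      = if j ∈ K then 1 else Q := by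
    intro j; split_ifs <;> simp
  simp only [h2]
  rw [Finset.prod_ite, Finset.prod_const, Finset.prod_const, one_pow, one_mul, ← pow_add]
  congr 1
  have h3 := Finset.card_filter_add_card_filter_not (s := (univ : Finset β)) (fun j => j ∈ K)
  have h4 : (univ.filter fun j => j ∈ K) = K := by ext j; simp
  rw [h4, Finset.card_univ] at h3
  omega

lemma count_fix_real {Q : ℕ} (hQ : 0 < Q) (K : Finset β) (v : β → ℕ) (hv : ∀ j, v j < Q) :
    ((univ.filter fun ω : β → Fin Q => ∀ j ∈ K, (ω j).val = v j).card : ℝ)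
      = (Q : ℝ) ^ Fintype.card β / (Q : ℝ) ^ K.card := by
  have h := count_fix K v hv
  have hQ' : (0 : ℝ) < (Q : ℝ) ^ K.card := by positivity
  rw [eq_div_iff hQ'.ne']
  exact_mod_cast h

/-- indices with `card = c` whose blocks all have the value `b`. -/
def zset (J : Fin n → Finset β) (b c : ℕ) (ω : β → ℕ) : Finset (Fin n) :=
  univ.filter fun i => (J i).card = c ∧ ∀ j ∈ J i, ω j = b

lemma cnt_add (J : Fin n → Finset β) {ω : β → ℕ} {i : Fin n} (h : ∀ j ∈ J i, ω j < 2) :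
    cnt 0 ω J i + cnt 1 ω J i = (J i).card := by
  unfold cnt
  rw [← Finset.card_filter_add_card_filter_not (s := J i) (fun j => ω j = 0)]
  congr 1
  congr 1
  refine Finset.filter_congr fun j hj => ?_
  have := h j hj
  constructor
  · intro h1; omega
  · intro h1; omega

lemma cnt_eq_zero (J : Fin n → Finset β) {ω : β → ℕ} {i : Fin n} {b : ℕ} :
    cnt b ω J i = 0 ↔ ∀ j ∈ J i, ω j ≠ b := by
  unfold cnt
  rw [Finset.card_eq_zero, Finset.filter_eq_empty_iff]

lemma mem_uset (J : Fin n → Finset β) {ω : β → ℕ} {i : Fin n} :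
    i ∈ uset ω J ↔ ∀ j ∈ J i, ω j < 2 := by
  simp [uset]

lemma aset0_eq (J : Fin n → Finset β) (c : ℕ) (ω : β → ℕ) : aset0 c ω J = zset J 0 c ω := by
  ext i
  simp only [aset0, pset, zset, mem_inter, mem_filter, mem_univ, true_and]
  constructor
  · rintro ⟨⟨h1, h2⟩, -, h3⟩
    rw [mem_uset] at h1
    have h4 := cnt_add J h1
    refine ⟨by omega, fun j hj => ?_⟩
    have h5 := (cnt_eq_zero J).1 h3 j hj
    have := h1 j hj
    omega
  · rintro ⟨h1, h2⟩
    have hu : i ∈ uset ω J := by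
      rw [mem_uset]
      intro j hj
      rw [h2 j hj]; norm_num
    have h3 : cnt 1 ω J i = 0 := by
      rw [cnt_eq_zero]
      intro j hj
      rw [h2 j hj]; norm_num
    have h4 := cnt_add J ((mem_uset J).1 hu)
    exact ⟨⟨hu, by omega⟩, hu, h3⟩

lemma aset1_eq (J : Fin n → Finset β) (c : ℕ) (ω : β → ℕ) : aset1 c ω J = zset J 1 c ω := by
  ext i
  simp only [aset1, pset, zset, mem_inter, mem_filter, mem_univ, true_and]
  constructor
  · rintro ⟨⟨h1, h2⟩, -, h3⟩
    rw [mem_uset] at h1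
    have h4 := cnt_add J h1
    refine ⟨by omega, fun j hj => ?_⟩
    have h5 := (cnt_eq_zero J).1 h3 j hj
    have := h1 j hj
    omega
  · rintro ⟨h1, h2⟩
    have hu : i ∈ uset ω J := by
      rw [mem_uset]
      intro j hj
      rw [h2 j hj]; norm_num
    have h3 : cnt 0 ω J i = 0 := by
      rw [cnt_eq_zero]
      intro j hj
      rw [h2 j hj]; norm_num
    have h4 := cnt_add J ((mem_uset J).1 hu)
    exact ⟨⟨hu, by omega⟩, hu, h3⟩

/-- the patterns of exceptional indices. -/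
def patt (J : Fin n → Finset β) (c : ℕ) (i : Fin n) : Finset (Finset β) :=
  (powersetCard c (J i) ∪ (powersetCard c (J i)).image (fun Z => J i \ Z)) ∪ {∅, J i}

lemma card_patt (J : Fin n → Finset β) (c : ℕ) (i : Fin n) :
    (patt J c i).card ≤ 2 + 2 * (J i).card.choose c := by
  unfold patt
  refine (card_union_le _ _).trans ?_
  have h1 : (powersetCard c (J i) ∪ (powersetCard c (J i)).image (fun Z => J i \ Z)).card
      ≤ (J i).card.choose c + (J i).card.choose c := by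
    refine (card_union_le _ _).trans ?_
    refine Nat.add_le_add (card_powersetCard _ _).le ?_
    exact card_image_le.trans (card_powersetCard _ _).le
  have h2 : ({∅, J i} : Finset (Finset β)).card ≤ 2 := card_le_two
  omega

lemma eset_spec (J : Fin n → Finset β) (c : ℕ) (ω : β → ℕ) {i : Fin n} (hi : i ∈ eset c ω J) :
    (J i).card ≠ c ∧ ∃ Z ∈ patt J c i, ∀ j ∈ J i, ω j = if j ∈ Z then 0 else 1 := by
  have hu : i ∈ uset ω J := by
    simp only [eset, pset, mem_union, mem_symmDiff, mem_filter] at hi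
    tauto
  have hu' := (mem_uset J).1 hu
  have hadd := cnt_add J hu'
  have hor : (cnt 0 ω J i = c ∧ cnt 1 ω J i ≠ 0) ∨ (cnt 1 ω J i = 0 ∧ cnt 0 ω J i ≠ c) ∨
      (cnt 1 ω J i = c ∧ cnt 0 ω J i ≠ 0) ∨ (cnt 0 ω J i = 0 ∧ cnt 1 ω J i ≠ c) := by
    simp only [eset, pset, mem_union, mem_symmDiff, mem_filter] at hi
    tauto
  refine ⟨by omega, (J i).filter (fun j => ω j = 0), ?_, ?_⟩
  · unfold patt
    rw [mem_union, mem_union, mem_insert, mem_singleton]
    rcases hor with h | h | h | h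
    · left; left
      rw [mem_powersetCard]
      exact ⟨filter_subset _ _, h.1⟩
    · right; right
      rw [Finset.filter_eq_self]
      intro j hj
      have h1 := (cnt_eq_zero J).1 h.1 j hj
      have := hu' j hj
      omega
    · left; right
      rw [mem_image]
      refine ⟨(J i).filter (fun j => ω j = 1), ?_, ?_⟩
      · rw [mem_powersetCard]
        exact ⟨filter_subset _ _, h.1⟩
      · ext j
        simp only [mem_sdiff, mem_filter]
        constructor
        · rintro ⟨h1, h2⟩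
          have := hu' j h1
          refine ⟨h1, ?_⟩
          by_contra h3
          exact h2 ⟨h1, by omega⟩
        · rintro ⟨h1, h2⟩
          exact ⟨h1, fun h3 => by omega⟩
    · right; left
      rw [Finset.filter_eq_empty_iff]
      exact (cnt_eq_zero J).1 h.1
  · intro j hj
    have := hu' j hj
    split_ifs with h1
    · exact (mem_filter.1 h1).2
    · have : ω j ≠ 0 := fun h2 => h1 (mem_filter.2 ⟨hj, h2⟩)
      omega

end count

section moments
variable {n : ℕ} {β : Type} [Fintype β] [DecidableEq β] {Q : ℕ}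

/-- number of `i` with `card = c`. -/
def mu (J : Fin n → Finset β) (c : ℕ) : ℕ := (univ.filter fun i => (J i).card = c).card

lemma sum_ite_zero (b : ℕ) (hQ : 0 < Q) (hb : b < Q) (J : Fin n → Finset β) (c : ℕ) (i : Fin n) :
    ∑ ω : β → Fin Q, (if (J i).card = c ∧ ∀ j ∈ J i, (ω j).val = b then (1 : ℝ) else 0)
      = if (J i).card = c then (Q : ℝ) ^ Fintype.card β / (Q : ℝ) ^ c else 0 := by
  split_ifs with h
  · simp only [h, true_and]
    rw [← Finset.natCast_card_filter, count_fix_real hQ (J i) (fun _ => b) (fun _ => hb), h]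
  · simp [h]

lemma sum_zset (hQ : 0 < Q) (J : Fin n → Finset β) (b c : ℕ) (hb : b < Q) :
    ∑ ω : β → Fin Q, ((zset J b c (fun j => (ω j).val)).card : ℝ)
      = (mu J c : ℝ) / (Q : ℝ) ^ c * (Q : ℝ) ^ Fintype.card β := by
  unfold zset
  simp only [Finset.natCast_card_filter]
  rw [Finset.sum_comm]
  simp only [sum_ite_zero b hQ hb J c]
  rw [← Finset.sum_filter, Finset.sum_const, nsmul_eq_mul]
  unfold mu
  ring

lemma card_not_disjoint (J : Fin n → Finset β) (d : ℕ)
    (hd : ∀ j, (univ.filter fun i => j ∈ J i).card ≤ d) (i : Fin n) :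
    (univ.filter fun i' => ¬ Disjoint (J i) (J i')).card ≤ (J i).card * d := by
  have h1 : (univ.filter fun i' => ¬ Disjoint (J i) (J i')) ⊆
      (J i).biUnion (fun j => univ.filter fun i' => j ∈ J i') := by
    intro i' h
    rw [mem_filter, Finset.not_disjoint_iff] at h
    obtain ⟨-, j, h2, h3⟩ := h
    rw [mem_biUnion]
    exact ⟨j, h2, by simp [h3]⟩
  refine (card_le_card h1).trans (card_biUnion_le.trans ?_)
  refine (Finset.sum_le_sum fun j _ => hd j).trans ?_
  simp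

lemma sum_zset_sq (hQ : 0 < Q) (J : Fin n → Finset β) (b c d : ℕ) (hb : b < Q)
    (hd : ∀ j, (univ.filter fun i => j ∈ J i).card ≤ d) :
    ∑ ω : β → Fin Q, ((zset J b c (fun j => (ω j).val)).card : ℝ) ^ 2
      ≤ (((mu J c : ℝ) / (Q : ℝ) ^ c) ^ 2 + c * d * ((mu J c : ℝ) / (Q : ℝ) ^ c))
        * (Q : ℝ) ^ Fintype.card β := by
  have hQr : (0 : ℝ) < Q := by exact_mod_cast hQ
  have hQ1 : (1 : ℝ) ≤ Q := by exact_mod_cast hQ
  set W : ℝ := (Q : ℝ) ^ Fintype.card β with hW
  have hW0 : 0 < W := by positivity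
  have hpair : ∀ i i' : Fin n, ∑ ω : β → Fin Q,
      ((if (J i).card = c ∧ ∀ j ∈ J i, (ω j).val = b then (1 : ℝ) else 0) *
        (if (J i').card = c ∧ ∀ j ∈ J i', (ω j).val = b then (1 : ℝ) else 0))
      ≤ (if (J i).card = c then (1 : ℝ) else 0) * (if (J i').card = c then (1 : ℝ) else 0)
          * (W / ((Q : ℝ) ^ c) ^ 2)
        + (if (J i).card = c then (1 : ℝ) else 0) *
          (if ¬ Disjoint (J i) (J i') then (1 : ℝ) else 0) * (W / (Q : ℝ) ^ c) := by
    intro i i'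
    by_cases h1 : (J i).card = c
    swap
    · simp [h1]
    by_cases h2 : (J i').card = c
    swap
    · simp only [h2, false_and, if_false, mul_zero, Finset.sum_const_zero, zero_mul, zero_add]
      positivity
    simp only [h1, h2, true_and, if_true, one_mul]
    have h3 : ∀ ω : β → Fin Q, ((if ∀ j ∈ J i, (ω j).val = b then (1 : ℝ) else 0) *
        (if ∀ j ∈ J i', (ω j).val = b then (1 : ℝ) else 0))
        = if ∀ j ∈ J i ∪ J i', (ω j).val = b then (1 : ℝ) else 0 := by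
      intro ω
      have : (∀ j ∈ J i ∪ J i', (ω j).val = b) ↔
          ((∀ j ∈ J i, (ω j).val = b) ∧ ∀ j ∈ J i', (ω j).val = b) := by
        simp only [mem_union]
        constructor
        · intro h; exact ⟨fun j hj => h j (Or.inl hj), fun j hj => h j (Or.inr hj)⟩
        · rintro ⟨h, h'⟩ j (hj | hj)
          · exact h j hj
          · exact h' j hj
      simp only [this]
      by_cases ha : ∀ j ∈ J i, (ω j).val = b
      · by_cases hb : ∀ j ∈ J i', (ω j).val = b
        · rw [if_pos ha, if_pos hb, if_pos ⟨ha, hb⟩, one_mul]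
        · have hn : ¬ ((∀ j ∈ J i, (ω j).val = b) ∧ ∀ j ∈ J i', (ω j).val = b) := fun h => hb h.2
          rw [if_neg hb, if_neg hn, mul_zero]
      · have hn : ¬ ((∀ j ∈ J i, (ω j).val = b) ∧ ∀ j ∈ J i', (ω j).val = b) := fun h => ha h.1
        rw [if_neg ha, if_neg hn, zero_mul]
    simp only [h3]
    rw [← Finset.natCast_card_filter, count_fix_real hQ (J i ∪ J i') (fun _ => b) (fun _ => hb)]
    by_cases h4 : Disjoint (J i) (J i')
    · rw [card_union_of_disjoint h4, h1, h2]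
      simp only [h4, not_true, if_false, zero_mul, add_zero]
      rw [pow_add, sq]
    · simp only [h4, not_false_iff, if_true, one_mul]
      have h5 : c ≤ (J i ∪ J i').card := by
        rw [← h1]; exact card_le_card subset_union_left
      have h6 : W / (Q : ℝ) ^ (J i ∪ J i').card ≤ W / (Q : ℝ) ^ c := by
        apply div_le_div_of_nonneg_left hW0.le (by positivity)
        exact pow_le_pow_right₀ hQ1 h5
      have h7 : 0 ≤ W / ((Q : ℝ) ^ c) ^ 2 := by positivity
      linarith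
  have hsq : ∀ ω : β → Fin Q, ((zset J b c (fun j => (ω j).val)).card : ℝ) ^ 2
      = ∑ i, ∑ i', ((if (J i).card = c ∧ ∀ j ∈ J i, (ω j).val = b then (1 : ℝ) else 0) *
        (if (J i').card = c ∧ ∀ j ∈ J i', (ω j).val = b then (1 : ℝ) else 0)) := by
    intro ω
    unfold zset
    rw [sq, Finset.natCast_card_filter, Finset.sum_mul_sum]
  simp only [hsq]
  rw [Finset.sum_comm]
  have hcomm : ∀ i : Fin n, ∑ ω : β → Fin Q, ∑ i',
      ((if (J i).card = c ∧ ∀ j ∈ J i, (ω j).val = b then (1 : ℝ) else 0) *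
        (if (J i').card = c ∧ ∀ j ∈ J i', (ω j).val = b then (1 : ℝ) else 0))
      = ∑ i', ∑ ω : β → Fin Q,
      ((if (J i).card = c ∧ ∀ j ∈ J i, (ω j).val = b then (1 : ℝ) else 0) *
        (if (J i').card = c ∧ ∀ j ∈ J i', (ω j).val = b then (1 : ℝ) else 0)) :=
    fun i => Finset.sum_comm
  simp only [hcomm]
  refine (Finset.sum_le_sum fun i _ => Finset.sum_le_sum fun i' _ => hpair i i').trans ?_
  simp only [Finset.sum_add_distrib]
  have hmu : (∑ i : Fin n, (if (J i).card = c then (1 : ℝ) else 0)) = mu J c := by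
    rw [← Finset.natCast_card_filter]; rfl
  have e1 : ∑ i : Fin n, ∑ i' : Fin n, (if (J i).card = c then (1 : ℝ) else 0) *
      (if (J i').card = c then (1 : ℝ) else 0) * (W / ((Q : ℝ) ^ c) ^ 2)
      = ((mu J c : ℝ) / (Q : ℝ) ^ c) ^ 2 * W := by
    simp only [← Finset.sum_mul]
    rw [← Finset.sum_mul_sum, hmu]
    field_simp
  have e2 : ∑ i : Fin n, ∑ i' : Fin n, (if (J i).card = c then (1 : ℝ) else 0) *
      (if ¬ Disjoint (J i) (J i') then (1 : ℝ) else 0) * (W / (Q : ℝ) ^ c)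
      ≤ c * d * ((mu J c : ℝ) / (Q : ℝ) ^ c) * W := by
    have h1 : ∀ i : Fin n, ∑ i' : Fin n, (if (J i).card = c then (1 : ℝ) else 0) *
        (if ¬ Disjoint (J i) (J i') then (1 : ℝ) else 0) * (W / (Q : ℝ) ^ c)
        ≤ (if (J i).card = c then (1 : ℝ) else 0) * (c * d * (W / (Q : ℝ) ^ c)) := by
      intro i
      rw [← Finset.sum_mul, ← Finset.mul_sum, ← Finset.natCast_card_filter, mul_assoc]
      split_ifs with h
      · rw [one_mul, one_mul]
        have h2 := card_not_disjoint J d hd i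
        rw [h] at h2
        have h3 : ((univ.filter fun i' => ¬ Disjoint (J i) (J i')).card : ℝ) ≤ c * d := by
          exact_mod_cast h2
        have h4 : 0 ≤ W / (Q : ℝ) ^ c := by positivity
        exact mul_le_mul_of_nonneg_right h3 h4
      · simp
    refine (Finset.sum_le_sum fun i _ => h1 i).trans ?_
    rw [← Finset.sum_mul, hmu]
    apply le_of_eq
    ring
  rw [e1]
  linarith [e2]

lemma sum_eset (hQ : 2 ≤ Q) (J : Fin n → Finset β) (c : ℕ) :
    ∑ ω : β → Fin Q, ((eset c (fun j => (ω j).val) J).card : ℝ)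
      ≤ ∑ i : Fin n, if (J i).card = c then 0 else
        (2 + 2 * ((J i).card.choose c : ℝ)) / (Q : ℝ) ^ (J i).card * (Q : ℝ) ^ Fintype.card β := by
  classical
  have h1 : ∀ ω : β → Fin Q, ((eset c (fun j => (ω j).val) J).card : ℝ)
      ≤ ∑ i : Fin n, if (J i).card = c then (0 : ℝ) else
        ∑ Z ∈ patt J c i, if (∀ j ∈ J i, (ω j).val = if j ∈ Z then 0 else 1) then (1 : ℝ) else 0 := by
    intro ω
    have h2 : ((eset c (fun j => (ω j).val) J).card : ℝ) = ∑ i : Fin n,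
        if i ∈ eset c (fun j => (ω j).val) J then (1 : ℝ) else 0 := by
      rw [← Finset.natCast_card_filter]
      congr 2
      ext i; simp
    rw [h2]
    refine Finset.sum_le_sum fun i _ => ?_
    by_cases hi : i ∈ eset c (fun j => (ω j).val) J
    · obtain ⟨h3, Z, hZ, h4⟩ := eset_spec J c _ hi
      rw [if_pos hi, if_neg h3]
      have h5 : (1 : ℝ) = if (∀ j ∈ J i, (ω j).val = if j ∈ Z then 0 else 1) then (1 : ℝ) else 0 := by
        rw [if_pos h4]
      refine h5.le.trans ?_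
      exact Finset.single_le_sum
        (f := fun Z => if (∀ j ∈ J i, (ω j).val = if j ∈ Z then 0 else 1) then (1 : ℝ) else 0)
        (fun Z _ => by split_ifs <;> norm_num) hZ
    · rw [if_neg hi]
      split_ifs
      · exact le_rfl
      · exact Finset.sum_nonneg fun Z _ => by split_ifs <;> norm_num
  refine (Finset.sum_le_sum fun ω _ => h1 ω).trans ?_
  rw [Finset.sum_comm]
  refine Finset.sum_le_sum fun i _ => ?_
  split_ifs with h
  · simp
  · rw [Finset.sum_comm]
    have h2 : ∀ Z ∈ patt J c i, ∑ ω : β → Fin Q,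
        (if (∀ j ∈ J i, (ω j).val = if j ∈ Z then 0 else 1) then (1 : ℝ) else 0)
        = (Q : ℝ) ^ Fintype.card β / (Q : ℝ) ^ (J i).card := by
      intro Z _
      rw [← Finset.natCast_card_filter, count_fix_real (by omega) (J i)
        (fun j => if j ∈ Z then 0 else 1) (fun j => by split_ifs <;> omega)]
    rw [Finset.sum_congr rfl h2, Finset.sum_const, nsmul_eq_mul]
    have h3 : ((patt J c i).card : ℝ) ≤ 2 + 2 * ((J i).card.choose c : ℝ) := by
      exact_mod_cast card_patt J c i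
    have h4 : (0 : ℝ) ≤ (Q : ℝ) ^ Fintype.card β / (Q : ℝ) ^ (J i).card := by positivity
    calc ((patt J c i).card : ℝ) * ((Q : ℝ) ^ Fintype.card β / (Q : ℝ) ^ (J i).card)
        ≤ (2 + 2 * ((J i).card.choose c : ℝ)) * ((Q : ℝ) ^ Fintype.card β / (Q : ℝ) ^ (J i).card) :=
          mul_le_mul_of_nonneg_right h3 h4
      _ = _ := by ring

end moments

section core

lemma cheb {Ω : Type} [Fintype Ω] (f : Ω → ℝ) (M V : ℝ)
    (h1 : ∑ ω, f ω = M * (Fintype.card Ω : ℝ)) (h2 : ∑ ω, f ω ^ 2 ≤ (M ^ 2 + V) * (Fintype.card Ω : ℝ))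
    (hM : 0 < M) :
    ((univ.filter fun ω => f ω < M / 2).card : ℝ) ≤ 4 * V / M ^ 2 * (Fintype.card Ω : ℝ) := by
  have h3 : ((univ.filter fun ω => f ω < M / 2).card : ℝ) * (M / 2) ^ 2 ≤ ∑ ω, (f ω - M) ^ 2 := by
    calc ((univ.filter fun ω => f ω < M / 2).card : ℝ) * (M / 2) ^ 2
        = ∑ ω ∈ univ.filter (fun ω => f ω < M / 2), (M / 2) ^ 2 := by
          rw [Finset.sum_const, nsmul_eq_mul]
      _ ≤ ∑ ω ∈ univ.filter (fun ω => f ω < M / 2), (f ω - M) ^ 2 := by
          refine Finset.sum_le_sum fun ω hω => ?_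
          have := (mem_filter.1 hω).2
          nlinarith
      _ ≤ ∑ ω, (f ω - M) ^ 2 :=
          Finset.sum_le_sum_of_subset_of_nonneg (filter_subset _ _) fun ω _ _ => sq_nonneg _
  have h4 : ∑ ω, (f ω - M) ^ 2 = ∑ ω, f ω ^ 2 - 2 * M * ∑ ω, f ω + M ^ 2 * (Fintype.card Ω : ℝ) := by
    have : ∀ ω, (f ω - M) ^ 2 = f ω ^ 2 - 2 * M * f ω + M ^ 2 := fun ω => by ring
    simp only [this, Finset.sum_add_distrib, Finset.sum_sub_distrib, ← Finset.mul_sum]
    rw [Finset.sum_const, nsmul_eq_mul, Finset.card_univ]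
    ring
  rw [h4, h1] at h3
  have h5 : ((univ.filter fun ω => f ω < M / 2).card : ℝ) * (M / 2) ^ 2
      ≤ V * (Fintype.card Ω : ℝ) := by nlinarith
  rw [div_mul_eq_mul_div, le_div_iff₀ (by positivity)]
  nlinarith

lemma markov {Ω : Type} [Fintype Ω] (f : Ω → ℝ) (hf : ∀ ω, 0 ≤ f ω) (t E : ℝ) (ht : 0 < t)
    (h1 : ∑ ω, f ω ≤ E) : ((univ.filter fun ω => t < f ω).card : ℝ) ≤ E / t := by
  rw [le_div_iff₀ ht]
  calc ((univ.filter fun ω => t < f ω).card : ℝ) * t
      = ∑ ω ∈ univ.filter (fun ω => t < f ω), t := by rw [Finset.sum_const, nsmul_eq_mul]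
    _ ≤ ∑ ω ∈ univ.filter (fun ω => t < f ω), f ω :=
        Finset.sum_le_sum fun ω hω => (mem_filter.1 hω).2.le
    _ ≤ ∑ ω, f ω := Finset.sum_le_sum_of_subset_of_nonneg (filter_subset _ _) fun ω _ _ => hf ω
    _ ≤ E := h1

lemma geom1 {x : ℝ} (hx0 : 0 ≤ x) (hx : x ≤ 1 / 2) (m : ℕ) :
    ∑ j ∈ range m, x ^ (j + 1) ≤ 2 * x := by
  have h : ∑ j ∈ range m, x ^ (j + 1) ≤ 2 * x - 2 * x ^ (m + 1) := by
    induction m with
    | zero => simp
    | succ m ih =>
      rw [Finset.sum_range_succ]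
      have h1 : 0 ≤ x ^ (m + 1) := by positivity
      have h2 : x ^ (m + 1 + 1) = x ^ (m + 1) * x := pow_succ _ _
      rw [h2]
      nlinarith
  have h1 : 0 ≤ x ^ (m + 1) := by positivity
  linarith

lemma geom2 {x : ℝ} (hx0 : 0 ≤ x) (hx : x ≤ 1 / 2) (c : ℕ) (S : Finset ℕ) :
    ∑ b ∈ S, (if b = c then 0 else x ^ ((b - c) + (c - b))) ≤ 4 * x := by
  obtain ⟨N, hN⟩ : ∃ N, S ⊆ range N ∧ c < N := by
    refine ⟨S.sup id + c + 1, ?_, by omega⟩
    intro b hb
    rw [mem_range]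
    have : b ≤ S.sup id := Finset.le_sup (f := id) hb
    omega
  have h1 : ∑ b ∈ S, (if b = c then 0 else x ^ ((b - c) + (c - b)))
      ≤ ∑ b ∈ range N, (if b = c then 0 else x ^ ((b - c) + (c - b))) :=
    Finset.sum_le_sum_of_subset_of_nonneg hN.1 fun b _ _ => by split_ifs <;> positivity
  refine h1.trans ?_
  rw [Finset.range_eq_Ico, ← Finset.sum_Ico_consecutive _ (Nat.zero_le c) hN.2.le,
    ← Finset.sum_Ico_consecutive _ (Nat.le_succ c) (by omega : c + 1 ≤ N)]
  have h2 : ∑ b ∈ Ico 0 c, (if b = c then 0 else x ^ ((b - c) + (c - b))) ≤ 2 * x := by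
    rw [← Finset.range_eq_Ico, ← Finset.sum_range_reflect]
    have : ∀ j ∈ range c, (if c - 1 - j = c then 0 else x ^ ((c - 1 - j - c) + (c - (c - 1 - j))))
        = x ^ (j + 1) := by
      intro j hj
      rw [mem_range] at hj
      rw [if_neg (by omega)]
      congr 1
      omega
    rw [Finset.sum_congr rfl this]
    exact geom1 hx0 hx c
  have h3 : ∑ b ∈ Ico c (c + 1), (if b = c then 0 else x ^ ((b - c) + (c - b))) = 0 := by
    rw [Nat.Ico_succ_singleton, Finset.sum_singleton, if_pos rfl]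
  have h4 : ∑ b ∈ Ico (c + 1) N, (if b = c then 0 else x ^ ((b - c) + (c - b))) ≤ 2 * x := by
    rw [Finset.sum_Ico_eq_sum_range]
    have : ∀ j ∈ range (N - (c + 1)), (if c + 1 + j = c then 0
        else x ^ ((c + 1 + j - c) + (c - (c + 1 + j)))) = x ^ (j + 1) := by
      intro j hj
      rw [if_neg (by omega)]
      congr 1
      omega
    rw [Finset.sum_congr rfl this]
    exact geom1 hx0 hx _
  rw [h3]
  linarith

variable {n : ℕ} {β : Type} [Fintype β] [DecidableEq β] {Q : ℕ}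

lemma sum_eset_le (hQ : 2 ≤ Q) (J : Fin n → Finset β) (c : ℕ) (x M : ℝ) (hx0 : 0 ≤ x)
    (hx : x ≤ 1 / 2) (hM0 : 0 ≤ M)
    (hcomp : ∀ c', c' ≠ c → (2 + 2 * (c'.choose c : ℝ)) * ((mu J c' : ℝ) / (Q : ℝ) ^ c')
      ≤ 4 * x ^ ((c' - c) + (c - c')) * M) :
    ∑ ω : β → Fin Q, ((eset c (fun j => (ω j).val) J).card : ℝ)
      ≤ 16 * x * M * (Q : ℝ) ^ Fintype.card β := by
  set W : ℝ := (Q : ℝ) ^ Fintype.card β with hW
  have hW0 : 0 ≤ W := by positivity
  refine (sum_eset hQ J c).trans ?_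
  have h1 := Finset.sum_comp (s := (univ : Finset (Fin n)))
    (fun b : ℕ => if b = c then (0 : ℝ) else (2 + 2 * (b.choose c : ℝ)) / (Q : ℝ) ^ b * W)
    (fun i => (J i).card)
  rw [h1]
  have h2 : ∀ b ∈ (univ : Finset (Fin n)).image (fun i => (J i).card),
      (univ.filter (fun i => (J i).card = b)).card •
        (if b = c then (0 : ℝ) else (2 + 2 * (b.choose c : ℝ)) / (Q : ℝ) ^ b * W)
      ≤ 4 * M * W * (if b = c then 0 else x ^ ((b - c) + (c - b))) := by
    intro b _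
    rw [nsmul_eq_mul]
    split_ifs with h
    · simp
    · have h3 := hcomp b h
      have h4 := mul_le_mul_of_nonneg_right h3 hW0
      have h5 : ((univ.filter (fun i => (J i).card = b)).card : ℝ) = mu J b := rfl
      rw [h5]
      calc (mu J b : ℝ) * ((2 + 2 * (b.choose c : ℝ)) / (Q : ℝ) ^ b * W)
          = (2 + 2 * (b.choose c : ℝ)) * ((mu J b : ℝ) / (Q : ℝ) ^ b) * W := by ring
        _ ≤ 4 * x ^ ((b - c) + (c - b)) * M * W := h4
        _ = _ := by ring
  refine (Finset.sum_le_sum h2).trans ?_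
  rw [← Finset.mul_sum]
  have h3 := geom2 hx0 hx c ((univ : Finset (Fin n)).image (fun i => (J i).card))
  calc 4 * M * W * _ ≤ 4 * M * W * (4 * x) := by gcongr
    _ = _ := by ring

lemma core (hQ : 2 ≤ Q) (J : Fin n → Finset β) (c d Γ a0 : ℕ) (x M : ℝ) (hx0 : 0 ≤ x)
    (hx : x ≤ 1 / 2) (hΓ : 1 ≤ Γ) (hd : ∀ j, (univ.filter fun i => j ∈ J i).card ≤ d)
    (hM : M = (mu J c : ℝ) / (Q : ℝ) ^ c) (hM0 : 0 < M)
    (hcomp : ∀ c', c' ≠ c → (2 + 2 * (c'.choose c : ℝ)) * ((mu J c' : ℝ) / (Q : ℝ) ^ c')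
      ≤ 4 * x ^ ((c' - c) + (c - c')) * M) (ha : (a0 : ℝ) ≤ M / 2) :
    ((univ.filter fun ω : β → Fin Q => ¬ Good c Γ a0 (fun j => (ω j).val) J).card : ℝ)
      ≤ (8 * c * d / M + 32 * Γ * x) * (Q : ℝ) ^ Fintype.card β := by
  set W : ℝ := (Q : ℝ) ^ Fintype.card β with hW
  have hWc : (Fintype.card (β → Fin Q) : ℝ) = W := by
    rw [Fintype.card_fun, Fintype.card_fin]
    push_cast
    rfl
  have hΓ0 : (0 : ℝ) < Γ := by exact_mod_cast hΓ
  have hX : ∀ b, b < 2 → ((univ.filter fun ω : β → Fin Q =>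
      ((zset J b c (fun j => (ω j).val)).card : ℝ) < M / 2).card : ℝ) ≤ 4 * c * d / M * W := by
    intro b hb
    have h1 := sum_zset (by omega : 0 < Q) J b c (by omega)
    have h2 := sum_zset_sq (by omega : 0 < Q) J b c d (by omega) hd
    rw [← hM, ← hW, ← hWc] at h1 h2
    have h3 := cheb (fun ω : β → Fin Q => ((zset J b c (fun j => (ω j).val)).card : ℝ)) M
      (c * d * M) h1 h2 hM0
    rw [hWc] at h3
    refine h3.trans (le_of_eq ?_)
    field_simp
  have hE : ((univ.filter fun ω : β → Fin Q =>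
      M / (2 * Γ) < ((eset c (fun j => (ω j).val) J).card : ℝ)).card : ℝ) ≤ 32 * Γ * x * W := by
    have h1 := sum_eset_le hQ J c x M hx0 hx hM0.le hcomp
    have h2 := markov (fun ω : β → Fin Q => ((eset c (fun j => (ω j).val) J).card : ℝ))
      (fun ω => Nat.cast_nonneg _) (M / (2 * Γ)) (16 * x * M * W) (by positivity) h1
    refine h2.trans (le_of_eq ?_)
    field_simp
    ring
  have hsub : (univ.filter fun ω : β → Fin Q => ¬ Good c Γ a0 (fun j => (ω j).val) J) ⊆
      ((univ.filter fun ω : β → Fin Q => ((zset J 0 c (fun j => (ω j).val)).card : ℝ) < M / 2) ∪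
       (univ.filter fun ω : β → Fin Q => ((zset J 1 c (fun j => (ω j).val)).card : ℝ) < M / 2)) ∪
      (univ.filter fun ω : β → Fin Q =>
        M / (2 * Γ) < ((eset c (fun j => (ω j).val) J).card : ℝ)) := by
    intro ω hω
    rw [mem_filter] at hω
    by_contra hcon
    simp only [mem_union, mem_filter, mem_univ, true_and, not_or, not_lt] at hcon
    obtain ⟨⟨h0, h1⟩, h2⟩ := hcon
    apply hω.2
    unfold Good
    rw [aset0_eq, aset1_eq]
    have hmin : M / 2 ≤ ((min (zset J 0 c (fun j => (ω j).val)).card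
        (zset J 1 c (fun j => (ω j).val)).card : ℕ) : ℝ) := by
      rw [Nat.cast_min]
      exact le_min h0 h1
    constructor
    · have : (a0 : ℝ) ≤ ((min (zset J 0 c (fun j => (ω j).val)).card
        (zset J 1 c (fun j => (ω j).val)).card : ℕ) : ℝ) := ha.trans hmin
      exact_mod_cast this
    · have h3 : (Γ : ℝ) * ((eset c (fun j => (ω j).val) J).card : ℝ) ≤ M / 2 := by
        calc (Γ : ℝ) * ((eset c (fun j => (ω j).val) J).card : ℝ) ≤ Γ * (M / (2 * Γ)) := by gcongr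
          _ = M / 2 := by field_simp
      have h4 := h3.trans hmin
      exact_mod_cast h4
  have h1 := (Nat.cast_le (α := ℝ)).2 (card_le_card hsub)
  have h2 := (Nat.cast_le (α := ℝ)).2 (card_union_le
      ((univ.filter fun ω : β → Fin Q => ((zset J 0 c (fun j => (ω j).val)).card : ℝ) < M / 2) ∪
       (univ.filter fun ω : β → Fin Q => ((zset J 1 c (fun j => (ω j).val)).card : ℝ) < M / 2))
      (univ.filter fun ω : β → Fin Q =>
        M / (2 * Γ) < ((eset c (fun j => (ω j).val) J).card : ℝ)))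
  have h3 := (Nat.cast_le (α := ℝ)).2 (card_union_le
      (univ.filter fun ω : β → Fin Q => ((zset J 0 c (fun j => (ω j).val)).card : ℝ) < M / 2)
       (univ.filter fun ω : β → Fin Q => ((zset J 1 c (fun j => (ω j).val)).card : ℝ) < M / 2))
  push_cast at h2 h3
  have h4 := hX 0 (by norm_num)
  have h5 := hX 1 (by norm_num)
  have h6 : (8 * c * d / M + 32 * Γ * x) * W = 4 * c * d / M * W + 4 * c * d / M * W
      + 32 * Γ * x * W := by ring
  rw [h6]
  linarith

end core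

section scale
variable {n : ℕ} {β : Type} [Fintype β] [DecidableEq β]

/-- the expected number of indices at the level `c`. -/
noncomputable def AA (J : Fin n → Finset β) (R l c : ℕ) : ℝ := (mu J c : ℝ) / ((R : ℝ) ^ l) ^ c

lemma AA_nonneg (J : Fin n → Finset β) (R l c : ℕ) : 0 ≤ AA J R l c := by
  unfold AA; positivity

lemma mu_le (J : Fin n → Finset β) (c : ℕ) : mu J c ≤ n := by
  unfold mu
  exact (card_filter_le _ _).trans (by simp)

/-- maximality -/
def PP (J : Fin n → Finset β) (R l c : ℕ) : Prop := ∀ c', AA J R l c' ≤ AA J R l c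

lemma exists_PP (J : Fin n → Finset β) (R l : ℕ) : ∃ c, PP J R l c := by
  obtain ⟨c, hc, hmax⟩ := Finset.exists_max_image (range (Fintype.card β + 1)) (AA J R l)
    ⟨0, by simp⟩
  refine ⟨c, fun c' => ?_⟩
  by_cases h : c' ∈ range (Fintype.card β + 1)
  · exact hmax c' h
  · have h1 : mu J c' = 0 := by
      unfold mu
      rw [Finset.card_eq_zero, Finset.filter_eq_empty_iff]
      intro i _ hi
      apply h
      rw [mem_range, ← hi]
      exact Nat.lt_succ_of_le (Finset.card_le_univ _)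
    have h2 : AA J R l c' = 0 := by unfold AA; rw [h1]; simp
    rw [h2]
    exact AA_nonneg J R l c

open Classical in
/-- the smallest maximiser -/
noncomputable def c0 (J : Fin n → Finset β) (R l : ℕ) : ℕ := Nat.find (exists_PP J R l)

open Classical in
lemma c0_spec (J : Fin n → Finset β) (R l : ℕ) : PP J R l (c0 J R l) :=
  Nat.find_spec (exists_PP J R l)

lemma exists_low (J : Fin n → Finset β) (k : ℕ) (hn : 1 ≤ n) (hk : 1 ≤ k)
    (hJ : ∀ i, (J i).Nonempty) (hsum : ∑ i, (J i).card ≤ k * n) :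
    ∃ c, 1 ≤ c ∧ c ≤ 2 * k ∧ n ≤ 4 * k * mu J c := by
  by_contra hcon
  push Not at hcon
  -- the number of indices with card ≤ 2k
  have h1 : (univ.filter fun i : Fin n => (J i).card ≤ 2 * k).card
      ≤ ∑ c ∈ Icc 1 (2 * k), mu J c := by
    have h2 : (univ.filter fun i : Fin n => (J i).card ≤ 2 * k) ⊆
        (Icc 1 (2 * k)).biUnion (fun c => univ.filter fun i => (J i).card = c) := by
      intro i hi
      rw [mem_biUnion]
      refine ⟨(J i).card, ?_, by simp⟩
      rw [mem_Icc]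
      exact ⟨Finset.card_pos.2 (hJ i), (mem_filter.1 hi).2⟩
    exact (card_le_card h2).trans card_biUnion_le
  have h3 : (univ.filter fun i : Fin n => ¬ (J i).card ≤ 2 * k).card * (2 * k + 1) ≤ k * n := by
    calc (univ.filter fun i : Fin n => ¬ (J i).card ≤ 2 * k).card * (2 * k + 1)
        = ∑ i ∈ univ.filter (fun i : Fin n => ¬ (J i).card ≤ 2 * k), (2 * k + 1) := by
          rw [Finset.sum_const, smul_eq_mul]
      _ ≤ ∑ i ∈ univ.filter (fun i : Fin n => ¬ (J i).card ≤ 2 * k), (J i).card := by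
          refine Finset.sum_le_sum fun i hi => ?_
          have := (mem_filter.1 hi).2
          omega
      _ ≤ ∑ i, (J i).card := Finset.sum_le_sum_of_subset (filter_subset _ _)
      _ ≤ k * n := hsum
  have h4 := Finset.card_filter_add_card_filter_not (s := (univ : Finset (Fin n)))
    (fun i => (J i).card ≤ 2 * k)
  rw [Finset.card_univ, Fintype.card_fin] at h4
  have h5 : 4 * k * ∑ c ∈ Icc 1 (2 * k), mu J c ≤ 2 * k * (n - 1) := by
    rw [Finset.mul_sum]
    have h6 : ∀ c ∈ Icc 1 (2 * k), 4 * k * mu J c ≤ n - 1 := by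
      intro c hc
      rw [mem_Icc] at hc
      have := hcon c hc.1 hc.2
      omega
    refine (Finset.sum_le_sum h6).trans ?_
    rw [Finset.sum_const, Nat.card_Icc, smul_eq_mul, Nat.add_sub_cancel]
  -- conclude
  set a := (univ.filter fun i : Fin n => (J i).card ≤ 2 * k).card with ha
  set b := (univ.filter fun i : Fin n => ¬ (J i).card ≤ 2 * k).card with hb
  have h7 : 2 * a < n := by
    have : 4 * k * a ≤ 2 * k * (n - 1) := (Nat.mul_le_mul_left _ h1).trans h5
    have h8 : 2 * k * (2 * a) ≤ 2 * k * (n - 1) := by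
      calc 2 * k * (2 * a) = 4 * k * a := by ring
        _ ≤ _ := this
    have h9 := Nat.le_of_mul_le_mul_left h8 (by omega)
    omega
  have h8 : 2 * b ≤ n := by
    by_contra h
    push Not at h
    have : k * n < b * (2 * k + 1) := by
      calc k * n < k * (2 * b) := Nat.mul_lt_mul_of_pos_left h (by omega)
        _ ≤ b * (2 * k + 1) := by nlinarith
    omega
  omega

lemma AA_succ (J : Fin n → Finset β) {R : ℕ} (hR : 0 < R) (l c : ℕ) :
    AA J R (l + 1) c = AA J R l c / (R : ℝ) ^ c := by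
  unfold AA
  have : (0 : ℝ) < R := by exact_mod_cast hR
  rw [pow_succ, mul_pow]
  field_simp

/-- lower bound for the maximum -/
lemma AA_c0_lower (J : Fin n → Finset β) {R : ℕ} (k l : ℕ) (hn : 1 ≤ n) (hk : 1 ≤ k) (hR : 1 ≤ R)
    (hJ : ∀ i, (J i).Nonempty) (hsum : ∑ i, (J i).card ≤ k * n) :
    (n : ℝ) / (4 * k) / ((R : ℝ) ^ l) ^ (2 * k) ≤ AA J R l (c0 J R l) := by
  obtain ⟨c, -, hc2, hc3⟩ := exists_low J k hn hk hJ hsum
  refine le_trans ?_ (c0_spec J R l c)
  unfold AA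
  have hR1 : (1 : ℝ) ≤ (R : ℝ) ^ l := one_le_pow₀ (by exact_mod_cast hR)
  have hk0 : (0 : ℝ) < k := by exact_mod_cast hk
  have h1 : (n : ℝ) / (4 * k) ≤ mu J c := by
    rw [div_le_iff₀ (by positivity)]
    have : (n : ℝ) ≤ 4 * k * mu J c := by exact_mod_cast hc3
    linarith
  have h2 : ((R : ℝ) ^ l) ^ c ≤ ((R : ℝ) ^ l) ^ (2 * k) := pow_le_pow_right₀ hR1 hc2
  have h3 : 0 < ((R : ℝ) ^ l) ^ c := by positivity
  have h4 : (0 : ℝ) ≤ (n : ℝ) / (4 * k) := by positivity
  calc (n : ℝ) / (4 * k) / ((R : ℝ) ^ l) ^ (2 * k) ≤ (n : ℝ) / (4 * k) / ((R : ℝ) ^ l) ^ c :=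
        div_le_div_of_nonneg_left h4 h3 h2
    _ ≤ (mu J c : ℝ) / ((R : ℝ) ^ l) ^ c := div_le_div_of_nonneg_right h1 h3.le

lemma AA_c0_pos (J : Fin n → Finset β) {R : ℕ} (k l : ℕ) (hn : 1 ≤ n) (hk : 1 ≤ k) (hR : 1 ≤ R)
    (hJ : ∀ i, (J i).Nonempty) (hsum : ∑ i, (J i).card ≤ k * n) :
    0 < AA J R l (c0 J R l) := by
  refine lt_of_lt_of_le ?_ (AA_c0_lower J k l hn hk hR hJ hsum)
  have h1 : (0 : ℝ) < n := by exact_mod_cast hn
  have h2 : (0 : ℝ) < k := by exact_mod_cast hk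
  have h3 : (0 : ℝ) < R := by exact_mod_cast hR
  positivity

lemma c0_le (J : Fin n → Finset β) {R : ℕ} (k l : ℕ) (hn : 1 ≤ n) (hk : 1 ≤ k) (hR : 4 * k < R)
    (hl : 1 ≤ l) (hJ : ∀ i, (J i).Nonempty) (hsum : ∑ i, (J i).card ≤ k * n) :
    c0 J R l ≤ 2 * k := by
  by_contra hcon
  push Not at hcon
  have h1 := AA_c0_lower J (R := R) k l hn hk (by omega) hJ hsum
  set c := c0 J R l with hc
  have hR0 : (0 : ℝ) < R := by exact_mod_cast (by omega : 0 < R)
  have hR1 : (1 : ℝ) ≤ (R : ℝ) ^ l := one_le_pow₀ (by exact_mod_cast (by omega : 1 ≤ R))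
  have hn0 : (0 : ℝ) < n := by exact_mod_cast hn
  have hk0 : (0 : ℝ) < k := by exact_mod_cast hk
  have h2 : AA J R l c ≤ (n : ℝ) / ((R : ℝ) ^ l) ^ (2 * k + 1) := by
    unfold AA
    have h3 : (mu J c : ℝ) ≤ n := by exact_mod_cast mu_le J c
    have h4 : ((R : ℝ) ^ l) ^ (2 * k + 1) ≤ ((R : ℝ) ^ l) ^ c := pow_le_pow_right₀ hR1 hcon
    calc (mu J c : ℝ) / ((R : ℝ) ^ l) ^ c ≤ (n : ℝ) / ((R : ℝ) ^ l) ^ c := by gcongr
      _ ≤ (n : ℝ) / ((R : ℝ) ^ l) ^ (2 * k + 1) := by gcongr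
  have h3 : (n : ℝ) / (4 * k) / ((R : ℝ) ^ l) ^ (2 * k) ≤ (n : ℝ) / ((R : ℝ) ^ l) ^ (2 * k + 1) :=
    h1.trans h2
  rw [pow_succ, div_le_div_iff₀ (by positivity) (by positivity)] at h3
  have h4 : (R : ℝ) ≤ (R : ℝ) ^ l := by
    calc (R : ℝ) = (R : ℝ) ^ 1 := (pow_one _).symm
      _ ≤ (R : ℝ) ^ l := pow_le_pow_right₀ (by exact_mod_cast (by omega : 1 ≤ R)) hl
  have h5 : (4 * k : ℝ) < (R : ℝ) ^ l := lt_of_lt_of_le (by exact_mod_cast hR) h4
  have h6 : (0 : ℝ) < ((R : ℝ) ^ l) ^ (2 * k) := by positivity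
  have h7 : (n : ℝ) / (4 * k) * (((R : ℝ) ^ l) ^ (2 * k) * (R : ℝ) ^ l)
      = n * ((R : ℝ) ^ l) ^ (2 * k) * ((R : ℝ) ^ l / (4 * k)) := by
    field_simp
  rw [h7] at h3
  have h8 : 1 < (R : ℝ) ^ l / (4 * k) := by
    rw [lt_div_iff₀ (by positivity)]
    linarith
  have h9 : 0 < n * ((R : ℝ) ^ l) ^ (2 * k) := by positivity
  nlinarith

lemma c0_anti (J : Fin n → Finset β) {R : ℕ} (k l : ℕ) (hn : 1 ≤ n) (hk : 1 ≤ k) (hR : 2 ≤ R)
    (hJ : ∀ i, (J i).Nonempty) (hsum : ∑ i, (J i).card ≤ k * n) :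
    c0 J R (l + 1) ≤ c0 J R l := by
  by_contra hcon
  push Not at hcon
  set c := c0 J R l with hc
  set x := c0 J R (l + 1) with hx
  have h1 := c0_spec J R l x
  have h2 := c0_spec J R (l + 1) c
  rw [← hc] at h1
  rw [← hx, AA_succ J (by omega), AA_succ J (by omega)] at h2
  have h3 := AA_c0_pos J (R := R) k l hn hk (by omega) hJ hsum
  rw [← hc] at h3
  have hR0 : (0 : ℝ) < R := by exact_mod_cast (by omega : 0 < R)
  have hR1 : (1 : ℝ) < R := by exact_mod_cast (by omega : 1 < R)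
  have h4 : (R : ℝ) ^ c < (R : ℝ) ^ x := pow_lt_pow_right₀ hR1 hcon
  have h5 : AA J R l x / (R : ℝ) ^ x < AA J R l c / (R : ℝ) ^ c := by
    calc AA J R l x / (R : ℝ) ^ x ≤ AA J R l c / (R : ℝ) ^ x := by gcongr
      _ < AA J R l c / (R : ℝ) ^ c := by gcongr
  linarith

lemma choose_bound (c j : ℕ) : (c + j).choose c ≤ (c + 1) ^ j := by
  induction j with
  | zero => simp
  | succ j ih =>
    have h1 := Nat.choose_mul_succ_eq (c + j) c
    have h2 : c + j + 1 - c = j + 1 := by omega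
    rw [h2] at h1
    have h3 : (c + j + 1).choose c * (j + 1) ≤ (c + 1) ^ (j + 1) * (j + 1) := by
      rw [← h1]
      calc (c + j).choose c * (c + j + 1) ≤ (c + 1) ^ j * (c + j + 1) := Nat.mul_le_mul_right _ ih
        _ ≤ (c + 1) ^ j * ((c + 1) * (j + 1)) := Nat.mul_le_mul_left _ (by nlinarith)
        _ = (c + 1) ^ (j + 1) * (j + 1) := by ring
    exact Nat.le_of_mul_le_mul_right h3 (Nat.succ_pos j)

lemma steady_comp (J : Fin n → Finset β) {R : ℕ} (hR : 0 < R) (l c : ℕ) (h1 : PP J R l c)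
    (h2 : PP J R (l + 2) c) (c' : ℕ) :
    AA J R (l + 1) c' * (R : ℝ) ^ ((c' - c) + (c - c')) ≤ AA J R (l + 1) c := by
  have hR0 : (0 : ℝ) < R := by exact_mod_cast hR
  rcases le_or_gt c c' with h | h
  · obtain ⟨e, rfl⟩ := Nat.exists_eq_add_of_le h
    have h3 := h1 (c + e)
    rw [AA_succ J hR, AA_succ J hR, show (c + e - c) + (c - (c + e)) = e by omega, pow_add]
    have h4 : AA J R l (c + e) / ((R : ℝ) ^ c * (R : ℝ) ^ e) * (R : ℝ) ^ e
        = AA J R l (c + e) / (R : ℝ) ^ c := by field_simp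
    rw [h4]
    gcongr
  · obtain ⟨e, rfl⟩ := Nat.exists_eq_add_of_le h.le
    have h3 := h2 c'
    rw [show l + 2 = (l + 1) + 1 by ring, AA_succ J hR (l + 1) c', AA_succ J hR (l + 1) (c' + e)]
      at h3
    rw [show (c' - (c' + e)) + (c' + e - c') = e by omega]
    rw [pow_add, div_le_div_iff₀ (by positivity) (by positivity)] at h3
    have h4 : 0 < (R : ℝ) ^ c' := by positivity
    have h5 : (AA J R (l + 1) c' * (R : ℝ) ^ e) * (R : ℝ) ^ c'
        ≤ AA J R (l + 1) (c' + e) * (R : ℝ) ^ c' := by linarith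
    exact le_of_mul_le_mul_right h5 h4

lemma sum_tele (f : ℕ → ℤ) (L : ℕ) :
    ∑ m ∈ range L, (f (m + 1) - f (m + 3)) = f 1 + f 2 - f (L + 1) - f (L + 2) := by
  induction L with
  | zero => simp
  | succ L ih =>
    rw [Finset.sum_range_succ, ih]
    ring

end scale

open Classical in
lemma steady_level {n : ℕ} {β : Type} [Fintype β] [DecidableEq β] (J : Fin n → Finset β)
    (k d Γ H R L a0 : ℕ) (hn : 1 ≤ n) (hk : 1 ≤ k) (hH : 1 ≤ H) (hΓ : 1 ≤ Γ)
    (hJ : ∀ i, (J i).Nonempty) (hsum : ∑ i, (J i).card ≤ k * n)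
    (hd : ∀ j, (univ.filter fun i => j ∈ J i).card ≤ d)
    (hR : 200 * Γ * H * (2 * k + 1) ≤ R)
    (hdn : 200 * H * k ^ 2 * d * (R ^ (L + 1)) ^ (2 * k) ≤ n)
    (ha : 8 * k * a0 * (R ^ (L + 1)) ^ (2 * k) ≤ n) (m : ℕ) (hm : m < L)
    (hst : c0 J R (m + 1) = c0 J R (m + 3)) :
    1 - 1 / (2 * (H : ℝ)) ≤ ((univ.filter fun ω : β → Fin (R ^ (m + 2)) =>
        ∃ c ∈ Icc 1 (2 * k), Good c Γ a0 (fun j => (ω j).val) J).card : ℝ) /
        ((R : ℝ) ^ (m + 2)) ^ (Fintype.card β) := by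
  have hR2 : 2 * (2 * k + 1) ≤ R := by
    have : 1 ≤ Γ * H := Nat.one_le_iff_ne_zero.2 (by positivity)
    nlinarith
  have hRpos : 0 < R := by omega
  have hk0 : (0 : ℝ) < k := by exact_mod_cast hk
  have hn0 : (0 : ℝ) < n := by exact_mod_cast hn
  have hH0 : (0 : ℝ) < H := by exact_mod_cast hH
  have hΓ0 : (0 : ℝ) < Γ := by exact_mod_cast hΓ
  have hR0 : (0 : ℝ) < R := by exact_mod_cast hRpos
  have hR1 : (1 : ℝ) ≤ R := by exact_mod_cast (by omega : 1 ≤ R)
  set c := c0 J R (m + 1) with hc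
  have hanti1 := c0_anti J (R := R) k (m + 1) hn hk (by omega) hJ hsum
  have hanti2 := c0_anti J (R := R) k (m + 2) hn hk (by omega) hJ hsum
  have hcm : c0 J R (m + 2) = c := by
    apply le_antisymm
    · exact hanti1
    · rw [hst]; exact hanti2
  have hP1 : PP J R (m + 1) c := c0_spec J R (m + 1)
  have hP2 : PP J R (m + 2) c := by rw [← hcm]; exact c0_spec J R (m + 2)
  have hP3 : PP J R (m + 1 + 2) c := by rw [hst]; exact c0_spec J R (m + 3)
  have hck : c ≤ 2 * k := c0_le J k (m + 1) hn hk (by omega) (by omega) hJ hsum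
  set M : ℝ := AA J R (m + 2) c with hM
  have hM0 : 0 < M := by
    have := AA_c0_pos J (R := R) k (m + 2) hn hk (by omega) hJ hsum
    rw [hcm] at this
    exact this
  have hMlow : (n : ℝ) / (4 * k) / ((R : ℝ) ^ (m + 2)) ^ (2 * k) ≤ M := by
    have := AA_c0_lower J (R := R) k (m + 2) hn hk (by omega) hJ hsum
    rw [hcm] at this
    exact this
  have hc1 : 1 ≤ c := by
    by_contra hcon
    have hc00 : c = 0 := by omega
    have : M = 0 := by
      rw [hM, hc00]
      unfold AA mu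
      have h0 : (univ.filter fun i => (J i).card = 0) = ∅ := by
        rw [Finset.filter_eq_empty_iff]
        intro i _
        exact (Finset.card_pos.2 (hJ i)).ne'
      rw [h0]
      simp
    linarith
  set x : ℝ := (2 * k + 1) / R with hx
  have hx0 : 0 ≤ x := by positivity
  have hx1 : x ≤ 1 / 2 := by
    rw [hx, div_le_iff₀ hR0]
    have : ((2 * (2 * k + 1) : ℕ) : ℝ) ≤ R := by exact_mod_cast hR2
    push_cast at this
    linarith
  have hQ2 : 2 ≤ R ^ (m + 2) := by
    calc 2 ≤ R := by omega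
      _ = R ^ 1 := (pow_one R).symm
      _ ≤ R ^ (m + 2) := Nat.pow_le_pow_right hRpos (by omega)
  -- powers
  set Z : ℝ := ((R : ℝ) ^ (m + 2)) ^ (2 * k) with hZ
  set Z' : ℝ := ((R : ℝ) ^ (L + 1)) ^ (2 * k) with hZ'
  have hZ0 : 0 < Z := by positivity
  have hZZ : Z ≤ Z' := by
    rw [hZ, hZ']
    apply pow_le_pow_left₀ (by positivity)
    exact pow_le_pow_right₀ hR1 (by omega)
  have hdn' : 200 * (H : ℝ) * (k : ℝ) ^ 2 * d * Z' ≤ n := by
    rw [hZ']; exact_mod_cast hdn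
  have ha' : 8 * (k : ℝ) * a0 * Z' ≤ n := by
    rw [hZ']; exact_mod_cast ha
  have hcomp : ∀ c', c' ≠ c → (2 + 2 * (c'.choose c : ℝ)) *
      ((mu J c' : ℝ) / (((R ^ (m + 2) : ℕ)) : ℝ) ^ c') ≤ 4 * x ^ ((c' - c) + (c - c')) * M := by
    intro c' hcc
    have h1 := steady_comp J hRpos (m + 1) c hP1 hP3 c'
    set e := (c' - c) + (c - c') with he
    have h2 : ((mu J c' : ℝ) / (((R ^ (m + 2) : ℕ)) : ℝ) ^ c') = AA J R (m + 1 + 1) c' := by
      unfold AA; push_cast; rfl
    rw [h2]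
    have h3 : (2 + 2 * (c'.choose c : ℝ)) ≤ 4 * (2 * k + 1 : ℝ) ^ e := by
      have h4 : c'.choose c ≤ (2 * k + 1) ^ e := by
        rcases lt_or_ge c' c with h | h
        · rw [Nat.choose_eq_zero_of_lt h]; exact Nat.zero_le _
        · obtain ⟨j, rfl⟩ := Nat.exists_eq_add_of_le h
          have h5 : e = j := by omega
          rw [h5]
          exact (choose_bound c j).trans (Nat.pow_le_pow_left (by omega) j)
      have h5 : ((c'.choose c : ℕ) : ℝ) ≤ (2 * k + 1 : ℝ) ^ e := by exact_mod_cast h4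
      have h6 : (1 : ℝ) ≤ (2 * k + 1 : ℝ) ^ e := one_le_pow₀ (by linarith)
      linarith
    have h4 : AA J R (m + 1 + 1) c' ≤ M / (R : ℝ) ^ e := by
      rw [le_div_iff₀ (by positivity)]
      exact h1
    calc (2 + 2 * (c'.choose c : ℝ)) * AA J R (m + 1 + 1) c'
        ≤ (4 * (2 * k + 1 : ℝ) ^ e) * (M / (R : ℝ) ^ e) := by
          apply mul_le_mul h3 h4 (AA_nonneg _ _ _ _) (by positivity)
      _ = 4 * x ^ e * M := by rw [hx, div_pow]; ring
  have haM : (a0 : ℝ) ≤ M / 2 := by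
    have h1 : (n : ℝ) / (4 * k) / Z / 2 ≤ M / 2 := by linarith
    refine le_trans ?_ h1
    rw [div_div, div_div, le_div_iff₀ (by positivity)]
    have h2 : (k : ℝ) * a0 * Z ≤ (k : ℝ) * a0 * Z' := by gcongr
    linarith
  have hcore := core hQ2 J c d Γ a0 x M hx0 hx1 hΓ hd (by rw [hM]; unfold AA; push_cast; rfl) hM0
    hcomp haM
  set W : ℝ := ((R : ℝ) ^ (m + 2)) ^ Fintype.card β with hW
  have hW0 : 0 < W := by positivity
  have hcore' : ((univ.filter fun ω : β → Fin (R ^ (m + 2)) =>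
      ¬ Good c Γ a0 (fun j => (ω j).val) J).card : ℝ) ≤ (8 * c * d / M + 32 * Γ * x) * W := by
    refine hcore.trans (le_of_eq ?_)
    rw [hW]; push_cast; rfl
  have hb1 : 8 * c * d / M ≤ 64 / (200 * H) := by
    rw [div_le_div_iff₀ hM0 (by positivity)]
    have h1 : (n : ℝ) / (4 * k) / Z ≤ M := hMlow
    rw [div_div, div_le_iff₀ (by positivity)] at h1
    have h2 : (c : ℝ) ≤ 2 * k := by exact_mod_cast hck
    have h3 : 200 * (H : ℝ) * (k : ℝ) ^ 2 * d * Z ≤ M * (4 * k * Z) := by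
      calc 200 * (H : ℝ) * (k : ℝ) ^ 2 * d * Z ≤ 200 * (H : ℝ) * (k : ℝ) ^ 2 * d * Z' := by gcongr
        _ ≤ (n : ℝ) := hdn'
        _ ≤ _ := h1
    have h4 : (200 * (H : ℝ) * k * d) * (k * Z) ≤ (4 * M) * (k * Z) := by
      calc (200 * (H : ℝ) * k * d) * (k * Z) = 200 * (H : ℝ) * (k : ℝ) ^ 2 * d * Z := by ring
        _ ≤ M * (4 * k * Z) := h3
        _ = _ := by ring
    have h5 : 200 * (H : ℝ) * k * d ≤ 4 * M := le_of_mul_le_mul_right h4 (by positivity)
    calc 8 * (c : ℝ) * d * (200 * H) ≤ 8 * (2 * k) * d * (200 * H) := by gcongr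
      _ = 16 * (200 * H * k * d) := by ring
      _ ≤ 16 * (4 * M) := by gcongr
      _ = 64 * M := by ring
  have hb2 : 32 * Γ * x ≤ 32 / (200 * H) := by
    rw [hx, mul_div_assoc', div_le_div_iff₀ hR0 (by positivity)]
    have : ((200 * Γ * H * (2 * k + 1) : ℕ) : ℝ) ≤ R := by exact_mod_cast hR
    push_cast at this
    nlinarith
  have hb3 : (8 * c * d / M + 32 * Γ * x) ≤ 1 / (2 * (H : ℝ)) := by
    have h1 : 64 / (200 * (H : ℝ)) + 32 / (200 * H) ≤ 1 / (2 * (H : ℝ)) := by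
      rw [← add_div, div_le_div_iff₀ (by positivity) (by positivity)]
      nlinarith
    linarith
  -- complement
  have hcompl := Finset.card_filter_add_card_filter_not
    (s := (univ : Finset (β → Fin (R ^ (m + 2)))))
    (fun ω => Good c Γ a0 (fun j => (ω j).val) J)
  rw [Finset.card_univ, Fintype.card_fun, Fintype.card_fin] at hcompl
  have hcompl' : ((univ.filter fun ω : β → Fin (R ^ (m + 2)) =>
      Good c Γ a0 (fun j => (ω j).val) J).card : ℝ) + ((univ.filter fun ω : β → Fin (R ^ (m + 2)) =>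
      ¬ Good c Γ a0 (fun j => (ω j).val) J).card : ℝ) = W := by
    rw [hW]
    exact_mod_cast hcompl
  have hsub : ((univ.filter fun ω : β → Fin (R ^ (m + 2)) =>
      Good c Γ a0 (fun j => (ω j).val) J).card : ℝ) ≤
      ((univ.filter fun ω : β → Fin (R ^ (m + 2)) =>
        ∃ c ∈ Icc 1 (2 * k), Good c Γ a0 (fun j => (ω j).val) J).card : ℝ) := by
    have : (univ.filter fun ω : β → Fin (R ^ (m + 2)) =>
      Good c Γ a0 (fun j => (ω j).val) J) ⊆ (univ.filter fun ω : β → Fin (R ^ (m + 2)) =>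
        ∃ c ∈ Icc 1 (2 * k), Good c Γ a0 (fun j => (ω j).val) J) := by
      intro ω hω
      simp only [mem_filter, mem_univ, true_and] at hω ⊢
      exact ⟨c, mem_Icc.2 ⟨hc1, hck⟩, hω⟩
    have h10 := card_le_card this
    exact_mod_cast h10
  rw [le_div_iff₀ hW0]
  have h9 : (8 * c * d / M + 32 * Γ * x) * W ≤ 1 / (2 * (H : ℝ)) * W :=
    mul_le_mul_of_nonneg_right hb3 hW0.le
  nlinarith

end ProbT

open ProbT

open Classical in
/-- Task PROB. -/
theorem prob_good {n : ℕ} {β : Type} [Fintype β] [DecidableEq β] (J : Fin n → Finset β)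
    (k d Γ H R L a0 : ℕ) (hn : 1 ≤ n) (hk : 1 ≤ k) (hH : 1 ≤ H) (hΓ : 1 ≤ Γ)
    (hJ : ∀ i, (J i).Nonempty) (hsum : ∑ i, (J i).card ≤ k * n)
    (hd : ∀ j, (univ.filter fun i => j ∈ J i).card ≤ d)
    (hL : 12 * k * H ≤ L) (hR : 200 * Γ * H * (2 * k + 1) ≤ R)
    (hdn : 200 * H * k ^ 2 * d * (R ^ (L + 1)) ^ (2 * k) ≤ n)
    (ha : 8 * k * a0 * (R ^ (L + 1)) ^ (2 * k) ≤ n) :
    (1 - 1 / (H : ℝ)) * L ≤ ∑ l ∈ Icc 2 (L + 1),
      ((univ.filter fun ω : β → Fin (R ^ l) =>
        ∃ c ∈ Icc 1 (2 * k), Good c Γ a0 (fun j => (ω j).val) J).card : ℝ) /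
        ((R : ℝ) ^ l) ^ (Fintype.card β) := by
  have hR2 : 2 * (2 * k + 1) ≤ R := by
    have : 1 ≤ Γ * H := Nat.one_le_iff_ne_zero.2 (by positivity)
    nlinarith
  have hH0 : (0 : ℝ) < H := by exact_mod_cast hH
  set F : ℕ → ℝ := fun l => ((univ.filter fun ω : β → Fin (R ^ l) =>
        ∃ c ∈ Icc 1 (2 * k), Good c Γ a0 (fun j => (ω j).val) J).card : ℝ) /
        ((R : ℝ) ^ l) ^ (Fintype.card β) with hF
  have hF0 : ∀ l, 0 ≤ F l := fun l => by
    rw [hF]
    positivity
  have h1 : ∑ l ∈ Icc 2 (L + 1), F l = ∑ m ∈ range L, F (m + 2) := by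
    have : Icc 2 (L + 1) = Ico 2 (L + 2) := by
      ext a; simp only [mem_Icc, mem_Ico]; omega
    rw [this, Finset.sum_Ico_eq_sum_range, Nat.add_sub_cancel]
    exact Finset.sum_congr rfl fun m _ => by rw [Nat.add_comm]
  rw [h1]
  set S := (range L).filter (fun m => c0 J R (m + 1) = c0 J R (m + 3)) with hS
  have h2 : ∀ m ∈ S, 1 - 1 / (2 * (H : ℝ)) ≤ F (m + 2) := by
    intro m hm
    rw [hS, mem_filter, mem_range] at hm
    exact steady_level J k d Γ H R L a0 hn hk hH hΓ hJ hsum hd hR hdn ha m hm.1 hm.2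
  have h3 : (S.card : ℝ) * (1 - 1 / (2 * (H : ℝ))) ≤ ∑ m ∈ range L, F (m + 2) := by
    calc (S.card : ℝ) * (1 - 1 / (2 * (H : ℝ))) = ∑ m ∈ S, (1 - 1 / (2 * (H : ℝ))) := by
          rw [Finset.sum_const, nsmul_eq_mul]
      _ ≤ ∑ m ∈ S, F (m + 2) := Finset.sum_le_sum h2
      _ ≤ ∑ m ∈ range L, F (m + 2) :=
          Finset.sum_le_sum_of_subset_of_nonneg (filter_subset _ _) fun m _ _ => hF0 _
  have h4 : L ≤ S.card + 4 * k := by
    have hN : S.card + ((range L).filter (fun m => ¬ c0 J R (m + 1) = c0 J R (m + 3))).card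
        = L := by
      rw [hS]
      convert Finset.card_filter_add_card_filter_not (s := range L)
        (fun m => c0 J R (m + 1) = c0 J R (m + 3))
      exact (card_range L).symm
    have h5 : (((range L).filter (fun m => ¬ c0 J R (m + 1) = c0 J R (m + 3))).card : ℤ)
        ≤ ∑ m ∈ range L, ((c0 J R (m + 1) : ℤ) - (c0 J R (m + 3) : ℤ)) := by
      have hle : ∀ m, (c0 J R (m + 3) : ℤ) ≤ c0 J R (m + 1) := by
        intro m
        have a1 := c0_anti J (R := R) k (m + 1) hn hk (by omega) hJ hsum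
        have a2 := c0_anti J (R := R) k (m + 2) hn hk (by omega) hJ hsum
        exact_mod_cast a2.trans a1
      calc (((range L).filter (fun m => ¬ c0 J R (m + 1) = c0 J R (m + 3))).card : ℤ)
          = ∑ m ∈ (range L).filter (fun m => ¬ c0 J R (m + 1) = c0 J R (m + 3)), (1 : ℤ) := by
            simp
        _ ≤ ∑ m ∈ (range L).filter (fun m => ¬ c0 J R (m + 1) = c0 J R (m + 3)),
            ((c0 J R (m + 1) : ℤ) - (c0 J R (m + 3) : ℤ)) := by
            refine Finset.sum_le_sum fun m hm => ?_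
            have a1 := (mem_filter.1 hm).2
            have a2 := hle m
            have a3 : (c0 J R (m + 1) : ℤ) ≠ c0 J R (m + 3) := by exact_mod_cast a1
            omega
        _ ≤ _ := Finset.sum_le_sum_of_subset_of_nonneg (filter_subset _ _) fun m _ _ => by
            have := hle m
            omega
    rw [sum_tele (fun m => (c0 J R m : ℤ))] at h5
    have b1 := c0_le J (R := R) k 1 hn hk (by omega) (by omega) hJ hsum
    have b2 := c0_le J (R := R) k 2 hn hk (by omega) (by omega) hJ hsum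
    omega
  have h5 : (L : ℝ) - 4 * k ≤ S.card := by
    have : (L : ℝ) ≤ S.card + 4 * k := by exact_mod_cast h4
    linarith
  have h6 : 12 * (k : ℝ) * H ≤ L := by exact_mod_cast hL
  have hH1 : (1 : ℝ) ≤ H := by exact_mod_cast hH
  have h7 : 0 < 1 - 1 / (2 * (H : ℝ)) := by
    rw [sub_pos, div_lt_one (by positivity)]
    linarith
  have h8 : ((L : ℝ) - 4 * k) * (1 - 1 / (2 * (H : ℝ))) ≤ ∑ m ∈ range L, F (m + 2) :=
    (mul_le_mul_of_nonneg_right h5 h7.le).trans h3
  refine le_trans ?_ h8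
  have h9 : 4 * (k : ℝ) ≤ L / (3 * H) := by
    rw [le_div_iff₀ (by positivity)]
    linarith
  have hL0 : (0 : ℝ) ≤ L := Nat.cast_nonneg L
  calc (1 - 1 / (H : ℝ)) * L ≤ (L - L / (3 * H)) * (1 - 1 / (2 * (H : ℝ))) := by
        have : (L - L / (3 * (H : ℝ))) * (1 - 1 / (2 * (H : ℝ))) - (1 - 1 / (H : ℝ)) * L
            = L / (6 * H) + L / (6 * H ^ 2) := by
          field_simp
          ring
        have h10 : 0 ≤ L / (6 * (H : ℝ)) + L / (6 * (H : ℝ) ^ 2) := by positivity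
        linarith
    _ ≤ (L - 4 * k) * (1 - 1 / (2 * (H : ℝ))) := by gcongr

end Pool.Agent.H774R2.QTS
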