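import Mathlib
import Pool.Agent.H774R2.QTS.Defs

/-!
# Good taps and initial windows of linear feedback shift registers
-/

open Finset

namespace Pool.Agent.H774R2.QTS

namespace Rank

/-! ### The character of the field with two elements -/

/-- the character of `ZMod 2` -/
def chi (z : ZMod 2) : ℤ := if z = 0 then 1 else -1

theorem chi_add (x y : ZMod 2) : chi (x + y) = chi x * chi y := by
  revert x y
  decide

theorem chi_zero : chi 0 = 1 := rfl

theorem chi_one : chi 1 = -1 := rfl

theorem zmod2 (x : ZMod 2) : x = 0 ∨ x = 1 := by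
  revert x
  decide

theorem chi_sum {ι : Type*} (s : Finset ι) (f : ι → ZMod 2) :
    chi (∑ i ∈ s, f i) = ∏ i ∈ s, chi (f i) := by
  classical
  induction s using Finset.induction_on with
  | empty => simp [chi_zero]
  | insert i s hi ih => rw [sum_insert hi, prod_insert hi, chi_add, ih]

theorem sum_chi {F : Type*} [Field F] [Fintype F] [DecidableEq F] [Algebra (ZMod 2) F]
    {lam : F →ₗ[ZMod 2] ZMod 2} (hlam : lam ≠ 0) (c : F) :
    ∑ β : F, chi (lam (β * c)) = if c = 0 then (Fintype.card F : ℤ) else 0 := by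
  split_ifs with hc
  · simp [hc, chi_zero]
  · obtain ⟨x0, hx0⟩ : ∃ x, lam x ≠ 0 := by
      by_contra h
      push Not at h
      exact hlam (LinearMap.ext fun x => by rw [h x]; rfl)
    have h1 : lam x0 = 1 := (zmod2 _).resolve_left hx0
    have h2 : ∑ β : F, chi (lam (β * c)) = ∑ β : F, chi (lam ((β + x0 * c⁻¹) * c)) :=
      (Equiv.sum_comp (Equiv.addRight (x0 * c⁻¹)) fun β => chi (lam (β * c))).symm
    have h3 : ∀ β : F, chi (lam ((β + x0 * c⁻¹) * c)) = - chi (lam (β * c)) := by
      intro β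
      have : (β + x0 * c⁻¹) * c = β * c + x0 := by
        field_simp
      rw [this, map_add, chi_add, h1, chi_one]
      ring
    simp_rw [h3] at h2
    rw [sum_neg_distrib] at h2
    omega

/-! ### The polynomials -/

theorem idx_lt {n : ℕ} (a b : Fin n) : idx n a b < n ^ 2 := by
  unfold idx
  have ha := a.isLt
  have hb := b.isLt
  have h1 : min a.val b.val ≤ n - 1 := by omega
  have h2 : max a.val b.val ≤ n - 1 := by omega
  have h3 : min a.val b.val * n ≤ (n - 1) * n := Nat.mul_le_mul_right _ h1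
  have h4 : (n - 1) * n + n = n ^ 2 := by
    obtain ⟨k, rfl⟩ : ∃ k, n = k + 1 := ⟨n - 1, by omega⟩
    simp
    ring
  omega

theorem idx_inj {n : ℕ} {A B : Finset (Fin n)} (hAB : Disjoint A B) {a a' b b' : Fin n}
    (ha : a ∈ A) (ha' : a' ∈ A) (hb : b ∈ B) (hb' : b' ∈ B) (h : idx n a b = idx n a' b') :
    a = a' ∧ b = b' := by
  unfold idx at h
  have l1 := a.isLt
  have l2 := b.isLt
  have l3 := a'.isLt
  have l4 := b'.isLt
  have hn : 0 < n := by omega
  have m1 : max a.val b.val < n := by omega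
  have m2 : max a'.val b'.val < n := by omega
  have e1 : min a.val b.val = min a'.val b'.val := by
    have : (min a.val b.val * n + max a.val b.val) / n =
        (min a'.val b'.val * n + max a'.val b'.val) / n := by rw [h]
    rw [Nat.add_comm, Nat.add_mul_div_right _ _ hn, Nat.div_eq_of_lt m1, Nat.add_comm _ (max _ _),
      Nat.add_mul_div_right _ _ hn, Nat.div_eq_of_lt m2] at this
    omega
  have e2 : max a.val b.val = max a'.val b'.val := by
    rw [e1] at h
    omega
  have n1 : a.val ≠ b'.val := by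
    intro h1
    have : a = b' := Fin.ext h1
    exact (Finset.disjoint_left.1 hAB ha) (this ▸ hb')
  have n2 : a'.val ≠ b.val := by
    intro h1
    have : a' = b := Fin.ext h1
    exact (Finset.disjoint_left.1 hAB ha') (this ▸ hb)
  have n3 : a.val ≠ b.val := by
    intro h1
    have : a = b := Fin.ext h1
    exact (Finset.disjoint_left.1 hAB ha) (this ▸ hb)
  have n4 : a'.val ≠ b'.val := by
    intro h1
    have : a' = b' := Fin.ext h1
    exact (Finset.disjoint_left.1 hAB ha') (this ▸ hb')
  constructor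
  · apply Fin.ext
    omega
  · apply Fin.ext
    omega

open Polynomial in
/-- the polynomial of a set of conditions -/
noncomputable def GT (F : Type*) [Field F] [Algebra (ZMod 2) F] {n p : ℕ} (A : Finset (Fin n))
    (y : Fin p → Fin n → ZMod 2) (T : Finset (Fin p × Fin n)) : F[X] :=
  ∑ w ∈ T, ∑ a ∈ A, C (algebraMap (ZMod 2) F (y w.1 a)) * X ^ (idx n a w.2)

open Polynomial in
theorem GT_natDegree {F : Type*} [Field F] [Algebra (ZMod 2) F] {n p : ℕ} (A : Finset (Fin n))
    (y : Fin p → Fin n → ZMod 2) (T : Finset (Fin p × Fin n)) :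
    (GT F A y T).natDegree ≤ n ^ 2 := by
  apply natDegree_sum_le_of_forall_le
  intro w _
  apply natDegree_sum_le_of_forall_le
  intro a _
  exact (natDegree_C_mul_X_pow_le _ _).trans (idx_lt a w.2).le

open Polynomial in
theorem GT_ne_zero {F : Type*} [Field F] [Algebra (ZMod 2) F] {n p : ℕ} {A B : Finset (Fin n)}
    (hAB : Disjoint A B) {y : Fin p → Fin n → ZMod 2} (hy : LinearIndependent (ZMod 2) y)
    (hsupp : ∀ t, ∀ i, i ∉ A → y t i = 0) {T : Finset (Fin p × Fin n)}
    (hT : T ⊆ univ ×ˢ B) (hne : T.Nonempty) : GT F A y T ≠ 0 := by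
  classical
  obtain ⟨⟨t0, b0⟩, h0⟩ := hne
  set T' : Finset (Fin p × Fin n) := T.filter (fun w => w.2 = b0) with hT'
  have hb0 : b0 ∈ B := (mem_product.1 (hT h0)).2
  have h1 : ∑ t ∈ T'.image Prod.fst, y t ≠ 0 := by
    intro h
    have h2 := linearIndependent_iff'.1 hy (T'.image Prod.fst) (fun _ => 1)
      (by simpa using h) t0 (mem_image.2 ⟨(t0, b0), by rw [hT', mem_filter]; exact ⟨h0, rfl⟩, rfl⟩)
    exact one_ne_zero h2
  obtain ⟨a0, ha0⟩ : ∃ a0, (∑ t ∈ T'.image Prod.fst, y t) a0 ≠ 0 := by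
    by_contra h
    push Not at h
    exact h1 (funext h)
  have haA : a0 ∈ A := by
    by_contra h
    apply ha0
    rw [Finset.sum_apply]
    exact sum_eq_zero fun t _ => hsupp t a0 h
  intro hG
  have hc : (GT F A y T).coeff (idx n a0 b0) = 0 := by rw [hG]; simp
  unfold GT at hc
  rw [finsetSum_coeff] at hc
  have h3 : ∀ w ∈ T, (∑ a ∈ A, C (algebraMap (ZMod 2) F (y w.1 a)) * X ^ (idx n a w.2)).coeff
      (idx n a0 b0) = if w.2 = b0 then algebraMap (ZMod 2) F (y w.1 a0) else 0 := by
    intro w hw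
    have hwB : w.2 ∈ B := (mem_product.1 (hT hw)).2
    rw [finsetSum_coeff]
    simp_rw [coeff_C_mul_X_pow]
    split_ifs with hb
    · rw [sum_eq_single a0]
      · rw [if_pos (by rw [hb])]
      · intro a ha hne
        rw [if_neg]
        intro h
        exact hne (idx_inj hAB haA ha hb0 hwB h).1.symm
      · intro h
        exact absurd haA h
    · apply sum_eq_zero
      intro a ha
      rw [if_neg]
      intro h
      exact hb (idx_inj hAB haA ha hb0 hwB h).2.symm
  rw [sum_congr rfl h3, ← sum_filter, ← map_sum] at hc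
  have h4 : ∑ w ∈ T', y w.1 a0 = (∑ t ∈ T'.image Prod.fst, y t) a0 := by
    rw [Finset.sum_apply, sum_image]
    intro w hw w' hw' h
    have e1 := (mem_filter.1 (mem_coe.1 hw)).2
    have e2 := (mem_filter.1 (mem_coe.1 hw')).2
    exact Prod.ext h (e1.trans e2.symm)
  rw [← hT', h4] at hc
  exact ha0 ((_root_.map_eq_zero _).1 hc)

open Polynomial in
theorem eval_GT {F : Type*} [Field F] [Algebra (ZMod 2) F] {n p : ℕ} (A : Finset (Fin n))
    (y : Fin p → Fin n → ZMod 2) (T : Finset (Fin p × Fin n)) (lam : F →ₗ[ZMod 2] ZMod 2)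
    (α β : F) : lam (β * (GT F A y T).eval α) =
      ∑ w ∈ T, ∑ a ∈ A, y w.1 a * lam (β * α ^ (idx n a w.2)) := by
  unfold GT
  rw [eval_finsetSum, mul_sum, map_sum]
  apply sum_congr rfl
  intro w _
  rw [eval_finsetSum, mul_sum, map_sum]
  apply sum_congr rfl
  intro a _
  rw [eval_mul, eval_C, eval_pow, eval_X]
  have : β * (algebraMap (ZMod 2) F (y w.1 a) * α ^ idx n a w.2) =
      (y w.1 a) • (β * α ^ idx n a w.2) := by
    rw [Algebra.smul_def]; ring
  rw [this, map_smul, smul_eq_mul]

theorem prod_one_add_chi {ι : Type*} (W : Finset ι) (S : ι → ZMod 2)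
    [Decidable (∀ w ∈ W, S w = 0)] :
    ∏ w ∈ W, (1 + chi (S w)) = if ∀ w ∈ W, S w = 0 then (2 : ℤ) ^ W.card else 0 := by
  split_ifs with h
  · rw [prod_congr rfl (fun w hw => by rw [h w hw, chi_zero]), prod_const]
    norm_num
  · push Not at h
    obtain ⟨w, hw, hne⟩ := h
    apply prod_eq_zero hw
    rw [(zmod2 _).resolve_left hne, chi_one]
    norm_num

/-- the number of pairs satisfying all conditions -/
theorem count_le {F : Type*} [Field F] [Fintype F] [DecidableEq F] [Algebra (ZMod 2) F]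
    {lam : F →ₗ[ZMod 2] ZMod 2} (hlam : lam ≠ 0) {n m p : ℕ} {A B : Finset (Fin n)}
    (hAB : Disjoint A B) (hB : B.card = 2 * m)
    {y : Fin p → Fin n → ZMod 2} (hy : LinearIndependent (ZMod 2) y)
    (hsupp : ∀ t, ∀ i, i ∉ A → y t i = 0) :
    2 ^ (2 * m * p) * ((univ : Finset (F × F)).filter fun ab => ∀ w ∈ (univ : Finset (Fin p)) ×ˢ B,
      ∑ a ∈ A, y w.1 a * lam (ab.2 * ab.1 ^ (idx n a w.2)) = 0).card ≤
      Fintype.card F * Fintype.card F + 2 ^ (2 * m * p) * (n ^ 2 * Fintype.card F) := by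
  classical
  set W : Finset (Fin p × Fin n) := (univ : Finset (Fin p)) ×ˢ B with hW
  have hWc : W.card = 2 * m * p := by
    rw [hW, card_product, card_univ, Fintype.card_fin, hB]
    ring
  set S : F × F → Fin p × Fin n → ZMod 2 := fun ab w =>
    ∑ a ∈ A, y w.1 a * lam (ab.2 * ab.1 ^ (idx n a w.2)) with hS
  have h1 : (2 : ℤ) ^ (2 * m * p) * ((univ : Finset (F × F)).filter fun ab => ∀ w ∈ W,
      S ab w = 0).card = ∑ ab : F × F, ∏ w ∈ W, (1 + chi (S ab w)) := by
    simp_rw [prod_one_add_chi]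
    rw [← sum_filter, sum_const, nsmul_eq_mul, hWc]
    ring
  have h2 : ∀ T ∈ W.powerset, ∑ ab : F × F, ∏ w ∈ T, chi (S ab w) ≤
      if T = ∅ then (Fintype.card F * Fintype.card F : ℤ) else n ^ 2 * Fintype.card F := by
    intro T hT
    rw [mem_powerset] at hT
    split_ifs with hE
    · rw [hE]
      simp
    · have hne : T.Nonempty := nonempty_iff_ne_empty.2 hE
      have h3 : ∀ ab : F × F, ∏ w ∈ T, chi (S ab w) =
          chi (lam (ab.2 * (GT F A y T).eval ab.1)) := by
        intro ab
        rw [← chi_sum, eval_GT]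
      simp_rw [h3]
      rw [Fintype.sum_prod_type]
      simp only
      have h4 : ∀ α : F, ∑ β : F, chi (lam (β * (GT F A y T).eval α)) =
          if (GT F A y T).eval α = 0 then (Fintype.card F : ℤ) else 0 := fun α =>
        sum_chi hlam _
      simp_rw [h4]
      rw [← sum_filter, sum_const, nsmul_eq_mul]
      apply mul_le_mul_of_nonneg_right _ (by positivity)
      have hG := GT_ne_zero (F := F) hAB hy hsupp hT hne
      have h5 : (univ.filter fun α : F => (GT F A y T).eval α = 0) ⊆
          (GT F A y T).roots.toFinset := by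
        intro α hα
        rw [mem_filter] at hα
        rw [Multiset.mem_toFinset, Polynomial.mem_roots hG]
        exact hα.2
      have h6 := (card_le_card h5).trans ((Multiset.toFinset_card_le _).trans
        ((Polynomial.card_roots' _).trans (GT_natDegree A y T)))
      exact_mod_cast h6
  have h7 : ∑ ab : F × F, ∏ w ∈ W, (1 + chi (S ab w)) ≤
      Fintype.card F * Fintype.card F + 2 ^ (2 * m * p) * (n ^ 2 * Fintype.card F) := by
    simp_rw [prod_one_add]
    rw [sum_comm]
    refine (sum_le_sum h2).trans ?_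
    rw [← sum_filter_add_sum_filter_not W.powerset (fun T => T = ∅)]
    apply add_le_add
    · rw [sum_congr rfl (fun T hT => if_pos (mem_filter.1 hT).2), sum_const, nsmul_eq_mul]
      have : (W.powerset.filter fun T => T = ∅) = {∅} := by
        ext T
        rw [mem_filter, mem_singleton, mem_powerset]
        constructor
        · exact fun h => h.2
        · rintro rfl
          exact ⟨empty_subset _, rfl⟩
      rw [this]
      simp
    · rw [sum_congr rfl (fun T hT => if_neg (mem_filter.1 hT).2), sum_const, nsmul_eq_mul]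
      apply mul_le_mul_of_nonneg_right _ (by positivity)
      have := card_filter_le W.powerset (fun T => ¬ T = ∅)
      rw [card_powerset, hWc] at this
      exact_mod_cast this
  rw [← h1] at h7
  exact_mod_cast h7

/-! ### The shift register -/

theorem bz_decide (x : ZMod 2) : bz (decide (x = 1)) = x := by
  revert x
  decide

theorem bz_inj {a b : Bool} (h : bz a = bz b) : a = b := by
  revert a b
  decide

theorem bz_xor (a b : Bool) : bz (a ^^ b) = bz a + bz b := by
  revert a b
  decide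

theorem bz_and (a b : Bool) : bz (a && b) = bz a * bz b := by
  revert a b
  decide

theorem bz_par (l : List Bool) : bz (par l) = (l.map bz).sum := by
  unfold par
  induction l with
  | nil => rfl
  | cons a l ih => rw [List.foldr_cons, List.map_cons, List.sum_cons, bz_xor, ih]

theorem zipWith_ofFn {k : ℕ} (f g : Fin k → Bool) :
    List.zipWith (fun a b => a && b) (List.ofFn f) (List.ofFn g) =
      List.ofFn (fun j => f j && g j) := by
  apply List.ext_getElem
  · simp
  · intro i h1 h2
    simp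

theorem lfsr_step {k : ℕ} (c : Fin (k + 1) → ZMod 2) (r : ℕ → ZMod 2)
    (hr : ∀ t, r (t + (k + 1)) = ∑ j : Fin (k + 1), c j * r (t + j)) (t : ℕ) :
    shift (List.ofFn fun j => decide (c j = 1))
      (List.ofFn fun j : Fin (k + 1) => decide (r (t + j) = 1)) =
      List.ofFn fun j : Fin (k + 1) => decide (r (t + 1 + j) = 1) := by
  unfold shift
  have h1 : (List.ofFn fun j : Fin (k + 1) => decide (r (t + j) = 1)).tail =
      List.ofFn fun j : Fin k => decide (r (t + 1 + j) = 1) := by
    rw [List.ofFn_succ, List.tail_cons]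
    congr 1
    funext j
    congr 2
    rw [Fin.val_succ]
    congr 1
    omega
  have h2 : (List.ofFn fun j : Fin (k + 1) => decide (r (t + 1 + j) = 1)) =
      (List.ofFn fun j : Fin k => decide (r (t + 1 + j) = 1)) ++
        [decide (r (t + (k + 1)) = 1)] := by
    rw [List.ofFn_succ', List.concat_eq_append]
    congr 2
    rw [Fin.val_last]
    congr 3
    omega
  rw [h1, h2]
  congr 2
  apply bz_inj
  rw [bz_par, zipWith_ofFn, bz_decide, hr, List.map_ofFn, List.sum_ofFn]
  apply sum_congr rfl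
  intro j _
  rw [Function.comp, bz_and, bz_decide, bz_decide]

theorem lfsr_eq {k : ℕ} (c : Fin (k + 1) → ZMod 2) (r : ℕ → ZMod 2)
    (hr : ∀ t, r (t + (k + 1)) = ∑ j : Fin (k + 1), c j * r (t + j)) (t : ℕ) :
    bz (lfsr (List.ofFn fun j => decide (c j = 1))
      (List.ofFn fun j : Fin (k + 1) => decide (r j = 1)) t) = r t := by
  have h1 : (shift (List.ofFn fun j => decide (c j = 1)))^[t]
      (List.ofFn fun j : Fin (k + 1) => decide (r j = 1)) =
      List.ofFn fun j : Fin (k + 1) => decide (r (t + j) = 1) := by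
    induction t with
    | zero => simp
    | succ t ih =>
      rw [Function.iterate_succ_apply', ih, lfsr_step c r hr]
  unfold lfsr
  rw [h1, List.ofFn_succ]
  simp only [List.headD_cons, Fin.val_zero, add_zero]
  exact bz_decide _

/-- recurrence of the powers of an element -/
theorem exists_rec {F : Type*} [Field F] [Finite F] [Algebra (ZMod 2) F] {n : ℕ}
    (hF : Module.finrank (ZMod 2) F = n) (α : F) :
    ∃ c : Fin n → ZMod 2, α ^ n = ∑ j : Fin n, algebraMap (ZMod 2) F (c j) * α ^ (j : ℕ) := by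
  have hint : IsIntegral (ZMod 2) α := Algebra.IsIntegral.isIntegral α
  have hdeg : (minpoly (ZMod 2) α).natDegree ≤ n := by
    rw [← hF]
    exact minpoly.natDegree_le α
  set P : Polynomial (ZMod 2) := minpoly (ZMod 2) α *
    Polynomial.X ^ (n - (minpoly (ZMod 2) α).natDegree) with hP
  have hm : P.Monic := (minpoly.monic hint).mul (Polynomial.monic_X_pow _)
  have hd : P.natDegree = n := by
    rw [hP, (minpoly.monic hint).natDegree_mul (Polynomial.monic_X_pow _),
      Polynomial.natDegree_X_pow]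
    omega
  have h0 : Polynomial.aeval α P = 0 := by
    rw [hP, map_mul, minpoly.aeval, zero_mul]
  refine ⟨fun j => P.coeff j, ?_⟩
  rw [Polynomial.aeval_eq_sum_range, hd, sum_range_succ] at h0
  have h1 : P.coeff n = 1 := by
    rw [← hd]
    exact hm
  rw [h1, one_smul] at h0
  have h2 : (2 : F) = 0 := by
    have : ((2 : ZMod 2)) = 0 := by decide
    have h3 := congrArg (algebraMap (ZMod 2) F) this
    rw [map_ofNat, map_zero] at h3
    exact h3
  have h3 : α ^ n = ∑ i ∈ range n, P.coeff i • α ^ i := by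
    linear_combination h0 - (∑ i ∈ range n, P.coeff i • α ^ i) * h2
  rw [h3, ← Fin.sum_univ_eq_sum_range (fun i => P.coeff i • α ^ i)]
  apply sum_congr rfl
  intro j _
  rw [Algebra.smul_def]

/-! ### The union bound -/

/-- vectors supported on `A` -/
def supp {n : ℕ} (A : Finset (Fin n)) : Finset (Fin n → ZMod 2) :=
  univ.filter fun y => ∀ i, i ∉ A → y i = 0

theorem card_supp {n : ℕ} (A : Finset (Fin n)) : (supp A).card = 2 ^ A.card := by
  have h1 : supp A = Fintype.piFinset (fun i => if i ∈ A then univ else {0}) := by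
    ext y
    rw [supp, mem_filter, Fintype.mem_piFinset]
    constructor
    · rintro ⟨_, h⟩ i
      split_ifs with hi
      · exact mem_univ _
      · rw [mem_singleton]
        exact h i hi
    · intro h
      refine ⟨mem_univ _, fun i hi => ?_⟩
      have := h i
      rw [if_neg hi, mem_singleton] at this
      exact this
  rw [h1, Fintype.card_piFinset]
  have h2 : ∀ i : Fin n, (if i ∈ A then (univ : Finset (ZMod 2)) else {0}).card =
      if i ∈ A then 2 else 1 := by
    intro i
    split_ifs <;> simp [ZMod.card]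
  simp_rw [h2]
  rw [prod_ite_mem, univ_inter, prod_const]

/-- the kernel as a submodule -/
def kerS {n : ℕ} (q : ℕ → ZMod 2) (A B : Finset (Fin n)) : Submodule (ZMod 2) (Fin n → ZMod 2) where
  carrier := {y | (∀ i, i ∉ A → y i = 0) ∧ ∀ b ∈ B, ∑ a ∈ A, y a * q (idx n a b) = 0}
  zero_mem' := ⟨fun i _ => rfl, fun b _ => by simp⟩
  add_mem' := by
    rintro x y ⟨h1, h2⟩ ⟨h3, h4⟩
    refine ⟨fun i hi => ?_, fun b hb => ?_⟩
    · rw [Pi.add_apply, h1 i hi, h3 i hi, add_zero]
    · simp only [Pi.add_apply, add_mul, sum_add_distrib]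
      rw [h2 b hb, h4 b hb, add_zero]
  smul_mem' := by
    rintro c y ⟨h1, h2⟩
    refine ⟨fun i hi => ?_, fun b hb => ?_⟩
    · rw [Pi.smul_apply, h1 i hi, smul_zero]
    · simp only [Pi.smul_apply, smul_eq_mul, mul_assoc]
      rw [← mul_sum, h2 b hb, mul_zero]

theorem exists_li {n p : ℕ} {q : ℕ → ZMod 2} {A B : Finset (Fin n)}
    (h : 2 ^ p < (ker q A B).card) : ∃ y : Fin p → Fin n → ZMod 2,
      LinearIndependent (ZMod 2) y ∧ ∀ t, (∀ i, i ∉ A → y t i = 0) ∧
        ∀ b ∈ B, ∑ a ∈ A, y t a * q (idx n a b) = 0 := by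
  classical
  have h1 : Nat.card (kerS q A B) = (ker q A B).card := by
    refine Nat.subtype_card (ker q A B) (fun x => ?_)
    rw [ker, mem_filter]
    exact ⟨fun hx => hx.2, fun hx => ⟨mem_univ _, hx⟩⟩
  have h2 : Nat.card (kerS q A B) = 2 ^ Module.finrank (ZMod 2) (kerS q A B) := by
    have := Module.natCard_eq_pow_finrank (K := ZMod 2) (V := kerS q A B)
    simpa using this
  have h3 : p ≤ Module.finrank (ZMod 2) (kerS q A B) := by
    rw [← h1, h2] at h
    exact (Nat.pow_lt_pow_iff_right (by norm_num)).1 h |>.le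
  let bas := Module.finBasis (ZMod 2) (kerS q A B)
  refine ⟨fun t => (bas (Fin.castLE h3 t) : Fin n → ZMod 2), ?_, fun t => ?_⟩
  · have h4 : LinearIndependent (ZMod 2) (fun t : Fin p => bas (Fin.castLE h3 t)) :=
      bas.linearIndependent.comp _ (Fin.castLE_injective h3)
    exact h4.map' (kerS q A B).subtype (Submodule.ker_subtype _)
  · exact (bas (Fin.castLE h3 t)).2

/-- existence of a good pair -/
theorem exists_pair {F : Type*} [Field F] [Fintype F] [DecidableEq F] [Algebra (ZMod 2) F]
    {n m p : ℕ} (hcard : Fintype.card F = 2 ^ n)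
    {lam : F →ₗ[ZMod 2] ZMod 2} (hlam : lam ≠ 0) (hn0 : 1 ≤ n) (hm : 1 ≤ m)
    (hp : 4 * n ^ 3 ≤ 2 ^ p) (hn : n ^ 2 * 2 ^ (2 * m * p) ≤ 2 ^ n) :
    ∃ α β : F, ∀ A B : Finset (Fin n), Disjoint A B → A.card = m → B.card = 2 * m →
      (ker (fun t => lam (β * α ^ t)) A B).card ≤ 2 ^ p := by
  classical
  by_contra hcon
  push Not at hcon
  -- the triples
  set PA : Finset (Finset (Fin n)) := powersetCard m univ with hPA
  set PB : Finset (Fin n) → Finset (Finset (Fin n)) := fun A =>
    (powersetCard (2 * m) univ).filter (fun B => Disjoint A B) with hPB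
  set Y : Finset (Fin n) → Finset (Fin p → Fin n → ZMod 2) := fun A =>
    (Fintype.piFinset (fun _ => supp A)).filter (fun y => LinearIndependent (ZMod 2) y) with hY
  set cond : F × F → Finset (Fin n) → Finset (Fin n) → (Fin p → Fin n → ZMod 2) → Prop :=
    fun ab A B y => ∀ w ∈ (univ : Finset (Fin p)) ×ˢ B,
      ∑ a ∈ A, y w.1 a * lam (ab.2 * ab.1 ^ (idx n a w.2)) = 0 with hcond
  have h1 : ∀ ab : F × F, 1 ≤ ∑ A ∈ PA, ∑ B ∈ PB A, ∑ y ∈ Y A,
      (if cond ab A B y then 1 else 0) := by
    rintro ⟨α, β⟩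
    obtain ⟨A, B, hAB, hA, hB, hlt⟩ := hcon α β
    obtain ⟨y, hy, hyk⟩ := exists_li hlt
    have m1 : A ∈ PA := by
      rw [hPA, mem_powersetCard]
      exact ⟨subset_univ _, hA⟩
    have m2 : B ∈ PB A := by
      rw [hPB, mem_filter, mem_powersetCard]
      exact ⟨⟨subset_univ _, hB⟩, hAB⟩
    have m3 : y ∈ Y A := by
      rw [hY, mem_filter, Fintype.mem_piFinset]
      refine ⟨fun t => ?_, hy⟩
      rw [supp, mem_filter]
      exact ⟨mem_univ _, (hyk t).1⟩
    have m4 : cond (α, β) A B y := by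
      intro w hw
      exact (hyk w.1).2 w.2 (mem_product.1 hw).2
    calc 1 = (if cond (α, β) A B y then 1 else 0) := by rw [if_pos m4]
      _ ≤ ∑ y ∈ Y A, (if cond (α, β) A B y then 1 else 0) :=
          single_le_sum (f := fun y => if cond (α, β) A B y then 1 else 0)
            (fun _ _ => Nat.zero_le _) m3
      _ ≤ ∑ B ∈ PB A, ∑ y ∈ Y A, (if cond (α, β) A B y then 1 else 0) :=
          single_le_sum (f := fun B => ∑ y ∈ Y A, (if cond (α, β) A B y then 1 else 0))
            (fun _ _ => Nat.zero_le _) m2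
      _ ≤ _ := single_le_sum (f := fun A => ∑ B ∈ PB A, ∑ y ∈ Y A,
            (if cond (α, β) A B y then 1 else 0)) (fun _ _ => Nat.zero_le _) m1
  have h2 : Fintype.card F * Fintype.card F ≤ ∑ A ∈ PA, ∑ B ∈ PB A, ∑ y ∈ Y A,
      ((univ : Finset (F × F)).filter fun ab => cond ab A B y).card := by
    calc Fintype.card F * Fintype.card F = ∑ ab : F × F, 1 := by
          rw [sum_const, card_univ, Fintype.card_prod, smul_eq_mul, mul_one]
      _ ≤ ∑ ab : F × F, ∑ A ∈ PA, ∑ B ∈ PB A, ∑ y ∈ Y A,
          (if cond ab A B y then 1 else 0) := sum_le_sum fun ab _ => h1 ab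
      _ = _ := by
          rw [sum_comm]
          refine sum_congr rfl fun A _ => ?_
          rw [sum_comm]
          refine sum_congr rfl fun B _ => ?_
          rw [sum_comm]
          refine sum_congr rfl fun y _ => ?_
          rw [card_filter]
  set Q := Fintype.card F with hQ
  have h3 : ∀ A ∈ PA, ∀ B ∈ PB A, ∀ y ∈ Y A,
      2 ^ (2 * m * p) * ((univ : Finset (F × F)).filter fun ab => cond ab A B y).card ≤
        2 * (Q * Q) := by
    intro A hA B hB y hy
    rw [hPB, mem_filter, mem_powersetCard] at hB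
    rw [hY, mem_filter, Fintype.mem_piFinset] at hy
    have hs : ∀ t, ∀ i, i ∉ A → y t i = 0 := fun t => (mem_filter.1 (hy.1 t)).2
    have := count_le (F := F) hlam hB.2 hB.1.2 hy.2 hs
    refine this.trans ?_
    have h4 : 2 ^ (2 * m * p) * (n ^ 2 * Q) ≤ Q * Q := by
      calc 2 ^ (2 * m * p) * (n ^ 2 * Q) = (n ^ 2 * 2 ^ (2 * m * p)) * Q := by ring
        _ ≤ 2 ^ n * Q := Nat.mul_le_mul_right _ hn
        _ = Q * Q := by rw [hcard]
    calc Q * Q + 2 ^ (2 * m * p) * (n ^ 2 * Q) ≤ Q * Q + Q * Q := Nat.add_le_add_left h4 _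
      _ = 2 * (Q * Q) := by ring
  have cA : PA.card ≤ n ^ m := by
    rw [hPA, card_powersetCard, card_univ, Fintype.card_fin]
    exact Nat.choose_le_pow n m
  have cB : ∀ A, (PB A).card ≤ n ^ (2 * m) := by
    intro A
    refine (card_filter_le _ _).trans ?_
    rw [card_powersetCard, card_univ, Fintype.card_fin]
    exact Nat.choose_le_pow n (2 * m)
  have cY : ∀ A ∈ PA, (Y A).card ≤ 2 ^ (m * p) := by
    intro A hA
    rw [hPA, mem_powersetCard] at hA
    refine (card_filter_le _ _).trans ?_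
    rw [Fintype.card_piFinset, prod_const, card_univ, Fintype.card_fin, card_supp, hA.2, ← pow_mul]
  have h5 : 2 ^ (2 * m * p) * (Q * Q) ≤ n ^ m * (n ^ (2 * m) * (2 ^ (m * p) * (2 * (Q * Q)))) := by
    calc 2 ^ (2 * m * p) * (Q * Q) ≤ 2 ^ (2 * m * p) * ∑ A ∈ PA, ∑ B ∈ PB A, ∑ y ∈ Y A,
          ((univ : Finset (F × F)).filter fun ab => cond ab A B y).card :=
          Nat.mul_le_mul_left _ h2
      _ = ∑ A ∈ PA, ∑ B ∈ PB A, ∑ y ∈ Y A, 2 ^ (2 * m * p) *
          ((univ : Finset (F × F)).filter fun ab => cond ab A B y).card := by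
          simp_rw [mul_sum]
      _ ≤ ∑ A ∈ PA, ∑ B ∈ PB A, ∑ y ∈ Y A, 2 * (Q * Q) :=
          sum_le_sum fun A hA => sum_le_sum fun B hB => sum_le_sum fun y hy => h3 A hA B hB y hy
      _ ≤ ∑ A ∈ PA, ∑ B ∈ PB A, 2 ^ (m * p) * (2 * (Q * Q)) := by
          refine sum_le_sum fun A hA => sum_le_sum fun B hB => ?_
          rw [sum_const, smul_eq_mul]
          exact Nat.mul_le_mul_right _ (cY A hA)
      _ ≤ ∑ A ∈ PA, n ^ (2 * m) * (2 ^ (m * p) * (2 * (Q * Q))) := by
          refine sum_le_sum fun A hA => ?_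
          rw [sum_const, smul_eq_mul]
          exact Nat.mul_le_mul_right _ (cB A)
      _ ≤ n ^ m * (n ^ (2 * m) * (2 ^ (m * p) * (2 * (Q * Q)))) := by
          rw [sum_const, smul_eq_mul]
          exact Nat.mul_le_mul_right _ cA
  have hQ0 : 0 < Q * Q := by
    have : 0 < Q := Fintype.card_pos
    positivity
  have h6 : 2 ^ (m * p) * (2 ^ (m * p) * (Q * Q)) ≤
      2 ^ (m * p) * (n ^ (3 * m) * 2 * (Q * Q)) := by
    calc 2 ^ (m * p) * (2 ^ (m * p) * (Q * Q)) = 2 ^ (2 * m * p) * (Q * Q) := by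
          rw [← mul_assoc, ← pow_add]
          congr 2
          ring
      _ ≤ _ := h5
      _ = 2 ^ (m * p) * (n ^ (3 * m) * 2 * (Q * Q)) := by
          rw [show 3 * m = m + 2 * m by ring, pow_add]
          ring
  have h7 : 2 ^ (m * p) ≤ n ^ (3 * m) * 2 := by
    have := Nat.le_of_mul_le_mul_left h6 (by positivity)
    exact Nat.le_of_mul_le_mul_right this hQ0
  have h8 : 4 ^ m * n ^ (3 * m) ≤ 2 ^ (m * p) := by
    have := Nat.pow_le_pow_left hp m
    rw [mul_pow, ← pow_mul, ← pow_mul, mul_comm p m] at this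
    exact this
  have h9 : 4 ^ m * n ^ (3 * m) ≤ 2 * n ^ (3 * m) := by
    have := h8.trans h7
    rw [mul_comm (n ^ (3 * m)) 2] at this
    exact this
  have h10 : 4 ^ m ≤ 2 := Nat.le_of_mul_le_mul_right h9 (by positivity)
  have h11 : 4 ^ 1 ≤ 4 ^ m := Nat.pow_le_pow_right (by norm_num) hm
  omega

end Rank

/-- Task RANK. -/
theorem exists_good (n m p : ℕ) (hm : 1 ≤ m) (hp : 4 * n ^ 3 ≤ 2 ^ p)
    (hn : n ^ 2 * 2 ^ (2 * m * p) ≤ 2 ^ n) :
    ∃ g s : List Bool, g.length = n ∧ s.length = n ∧
      ∀ A B : Finset (Fin n), Disjoint A B → A.card = m → B.card = 2 * m →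
        (ker (fun t => bz (lfsr g s t)) A B).card ≤ 2 ^ p := by
  classical
  rcases Nat.eq_zero_or_pos n with h0 | h0
  · subst h0
    refine ⟨[], [], rfl, rfl, fun A B _ hA _ => ?_⟩
    have : A.card = 0 := by
      rw [card_eq_zero]
      exact eq_empty_of_isEmpty A
    omega
  · obtain ⟨k, rfl⟩ : ∃ k, n = k + 1 := ⟨n - 1, by omega⟩
    let F := GaloisField 2 (k + 1)
    let _ : Fintype F := Fintype.ofFinite F
    have hfin : Module.finrank (ZMod 2) F = k + 1 := GaloisField.finrank 2 (by omega)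
    have hcard : Fintype.card F = 2 ^ (k + 1) := by
      rw [← Nat.card_eq_fintype_card]
      exact GaloisField.card 2 (k + 1) (by omega)
    obtain ⟨lam, hlam⟩ : ∃ lam : F →ₗ[ZMod 2] ZMod 2, lam ≠ 0 := by
      refine ⟨Algebra.trace (ZMod 2) F, ?_⟩
      intro h
      obtain ⟨x, hx⟩ := Algebra.trace_surjective (ZMod 2) F 1
      rw [h] at hx
      exact zero_ne_one hx
    obtain ⟨α, β, hαβ⟩ := Rank.exists_pair (F := F) hcard hlam (by omega) hm hp hn
    obtain ⟨c, hc⟩ := Rank.exists_rec (F := F) hfin α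
    set r : ℕ → ZMod 2 := fun t => lam (β * α ^ t) with hr
    have hrec : ∀ t, r (t + (k + 1)) = ∑ j : Fin (k + 1), c j * r (t + j) := by
      intro t
      simp only [hr]
      rw [pow_add, hc, mul_sum, mul_sum, map_sum]
      apply sum_congr rfl
      intro j _
      have h := lam.map_smul (c j) (β * α ^ (t + (j : ℕ)))
      rw [smul_eq_mul] at h
      rw [← h, Algebra.smul_def, pow_add]
      congr 1
      ring
    refine ⟨List.ofFn fun j => decide (c j = 1), List.ofFn fun j : Fin (k + 1) => decide (r j = 1),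
      List.length_ofFn, List.length_ofFn, fun A B hAB hA hB => ?_⟩
    have h1 : (fun t => bz (lfsr (List.ofFn fun j => decide (c j = 1))
        (List.ofFn fun j : Fin (k + 1) => decide (r j = 1)) t)) = r := by
      funext t
      exact Rank.lfsr_eq c r hrec t
    rw [h1]
    exact hαβ A B hAB hA hB

end Pool.Agent.H774R2.QTS
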