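import Mathlib
import Pool.Agent.H774R2.QTS.Defs
import Pool.Agent.H774R2.QTS.Rank

/-!
# Taps and windows which are good for all sizes at once

Adaptation of `Rank.lean` (helper498), with binomial coefficients in the union bound.
-/

open Finset

namespace Pool.Agent.H774R2.QTS

namespace Rank

/-- a good pair for size `m` -/
def GoodPair {F : Type*} [Field F] [Algebra (ZMod 2) F] (lam : F →ₗ[ZMod 2] ZMod 2) (n m p : ℕ)
    (ab : F × F) : Prop :=
  ∀ A B : Finset (Fin n), Disjoint A B → A.card = m → B.card = 2 * m →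
      (ker (fun t => lam (ab.2 * ab.1 ^ t)) A B).card ≤ 2 ^ p

open Classical in
/-- number of bad pairs -/
theorem bad_card {F : Type*} [Field F] [Fintype F] [Algebra (ZMod 2) F]
    {n m p : ℕ} (hcard : Fintype.card F = 2 ^ n)
    {lam : F →ₗ[ZMod 2] ZMod 2} (hlam : lam ≠ 0)
    (hn : n ^ 2 * 2 ^ (2 * m * p) ≤ 2 ^ n) :
    2 ^ (m * p) * ((univ : Finset (F × F)).filter fun ab => ¬ GoodPair lam n m p ab).card ≤
      n.choose m * n.choose (2 * m) * 2 * (Fintype.card F * Fintype.card F) := by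
  set Bad := (univ : Finset (F × F)).filter fun ab => ¬ GoodPair lam n m p ab with hBad
  -- the triples
  set PA : Finset (Finset (Fin n)) := powersetCard m univ with hPA
  set PB : Finset (Fin n) → Finset (Finset (Fin n)) := fun A =>
    (powersetCard (2 * m) univ).filter (fun B => Disjoint A B) with hPB
  set Y : Finset (Fin n) → Finset (Fin p → Fin n → ZMod 2) := fun A =>
    (Fintype.piFinset (fun _ => supp A)).filter (fun y => LinearIndependent (ZMod 2) y) with hY
  set cond : F × F → Finset (Fin n) → Finset (Fin n) → (Fin p → Fin n → ZMod 2) → Prop :=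
    fun ab A B y => ∀ w ∈ (univ : Finset (Fin p)) ×ˢ B,
      ∑ a ∈ A, y w.1 a * lam (ab.2 * ab.1 ^ (idx n a w.2)) = 0 with hcond
  have h1 : ∀ ab ∈ Bad, 1 ≤ ∑ A ∈ PA, ∑ B ∈ PB A, ∑ y ∈ Y A,
      (if cond ab A B y then 1 else 0) := by
    rintro ⟨α, β⟩ hab
    rw [hBad, mem_filter] at hab
    have hab2 := hab.2
    unfold GoodPair at hab2
    push Not at hab2
    obtain ⟨A, B, hAB, hA, hB, hlt⟩ := hab2
    obtain ⟨y, hy, hyk⟩ := exists_li hlt
    have m1 : A ∈ PA := by
      rw [hPA, mem_powersetCard]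
      exact ⟨subset_univ _, hA⟩
    have m2 : B ∈ PB A := by
      rw [hPB, mem_filter, mem_powersetCard]
      exact ⟨⟨subset_univ _, hB⟩, hAB⟩
    have m3 : y ∈ Y A := by
      rw [hY, mem_filter, Fintype.mem_piFinset]
      refine ⟨fun t => ?_, hy⟩
      rw [supp, mem_filter]
      exact ⟨mem_univ _, (hyk t).1⟩
    have m4 : cond (α, β) A B y := by
      intro w hw
      exact (hyk w.1).2 w.2 (mem_product.1 hw).2
    calc 1 = (if cond (α, β) A B y then 1 else 0) := by rw [if_pos m4]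
      _ ≤ ∑ y ∈ Y A, (if cond (α, β) A B y then 1 else 0) :=
          single_le_sum (f := fun y => if cond (α, β) A B y then 1 else 0)
            (fun _ _ => Nat.zero_le _) m3
      _ ≤ ∑ B ∈ PB A, ∑ y ∈ Y A, (if cond (α, β) A B y then 1 else 0) :=
          single_le_sum (f := fun B => ∑ y ∈ Y A, (if cond (α, β) A B y then 1 else 0))
            (fun _ _ => Nat.zero_le _) m2
      _ ≤ _ := single_le_sum (f := fun A => ∑ B ∈ PB A, ∑ y ∈ Y A,
            (if cond (α, β) A B y then 1 else 0)) (fun _ _ => Nat.zero_le _) m1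
  have h2 : Bad.card ≤ ∑ A ∈ PA, ∑ B ∈ PB A, ∑ y ∈ Y A,
      ((univ : Finset (F × F)).filter fun ab => cond ab A B y).card := by
    calc Bad.card = ∑ ab ∈ Bad, 1 := by
          rw [sum_const, smul_eq_mul, mul_one]
      _ ≤ ∑ ab ∈ Bad, ∑ A ∈ PA, ∑ B ∈ PB A, ∑ y ∈ Y A,
          (if cond ab A B y then 1 else 0) := sum_le_sum fun ab hab => h1 ab hab
      _ ≤ ∑ ab : F × F, ∑ A ∈ PA, ∑ B ∈ PB A, ∑ y ∈ Y A,
          (if cond ab A B y then 1 else 0) :=
          sum_le_sum_of_subset_of_nonneg (subset_univ _) fun _ _ _ => Nat.zero_le _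
      _ = _ := by
          rw [sum_comm]
          refine sum_congr rfl fun A _ => ?_
          rw [sum_comm]
          refine sum_congr rfl fun B _ => ?_
          rw [sum_comm]
          refine sum_congr rfl fun y _ => ?_
          rw [card_filter]
  set Q := Fintype.card F with hQ
  have h3 : ∀ A ∈ PA, ∀ B ∈ PB A, ∀ y ∈ Y A,
      2 ^ (2 * m * p) * ((univ : Finset (F × F)).filter fun ab => cond ab A B y).card ≤
        2 * (Q * Q) := by
    intro A hA B hB y hy
    rw [hPB, mem_filter, mem_powersetCard] at hB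
    rw [hY, mem_filter, Fintype.mem_piFinset] at hy
    have hs : ∀ t, ∀ i, i ∉ A → y t i = 0 := fun t => (mem_filter.1 (hy.1 t)).2
    have := count_le (F := F) hlam hB.2 hB.1.2 hy.2 hs
    refine this.trans ?_
    have h4 : 2 ^ (2 * m * p) * (n ^ 2 * Q) ≤ Q * Q := by
      calc 2 ^ (2 * m * p) * (n ^ 2 * Q) = (n ^ 2 * 2 ^ (2 * m * p)) * Q := by ring
        _ ≤ 2 ^ n * Q := Nat.mul_le_mul_right _ hn
        _ = Q * Q := by rw [hcard]
    calc Q * Q + 2 ^ (2 * m * p) * (n ^ 2 * Q) ≤ Q * Q + Q * Q := Nat.add_le_add_left h4 _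
      _ = 2 * (Q * Q) := by ring
  have cA : PA.card ≤ n.choose m := by
    rw [hPA, card_powersetCard, card_univ, Fintype.card_fin]
  have cB : ∀ A, (PB A).card ≤ n.choose (2 * m) := by
    intro A
    refine (card_filter_le _ _).trans ?_
    rw [card_powersetCard, card_univ, Fintype.card_fin]
  have cY : ∀ A ∈ PA, (Y A).card ≤ 2 ^ (m * p) := by
    intro A hA
    rw [hPA, mem_powersetCard] at hA
    refine (card_filter_le _ _).trans ?_
    rw [Fintype.card_piFinset, prod_const, card_univ, Fintype.card_fin, card_supp, hA.2, ← pow_mul]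
  have h5 : 2 ^ (2 * m * p) * Bad.card ≤
      n.choose m * (n.choose (2 * m) * (2 ^ (m * p) * (2 * (Q * Q)))) := by
    calc 2 ^ (2 * m * p) * Bad.card ≤ 2 ^ (2 * m * p) * ∑ A ∈ PA, ∑ B ∈ PB A, ∑ y ∈ Y A,
          ((univ : Finset (F × F)).filter fun ab => cond ab A B y).card :=
          Nat.mul_le_mul_left _ h2
      _ = ∑ A ∈ PA, ∑ B ∈ PB A, ∑ y ∈ Y A, 2 ^ (2 * m * p) *
          ((univ : Finset (F × F)).filter fun ab => cond ab A B y).card := by
          simp_rw [mul_sum]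
      _ ≤ ∑ A ∈ PA, ∑ B ∈ PB A, ∑ y ∈ Y A, 2 * (Q * Q) :=
          sum_le_sum fun A hA => sum_le_sum fun B hB => sum_le_sum fun y hy => h3 A hA B hB y hy
      _ ≤ ∑ A ∈ PA, ∑ B ∈ PB A, 2 ^ (m * p) * (2 * (Q * Q)) := by
          refine sum_le_sum fun A hA => sum_le_sum fun B hB => ?_
          rw [sum_const, smul_eq_mul]
          exact Nat.mul_le_mul_right _ (cY A hA)
      _ ≤ ∑ A ∈ PA, n.choose (2 * m) * (2 ^ (m * p) * (2 * (Q * Q))) := by
          refine sum_le_sum fun A hA => ?_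
          rw [sum_const, smul_eq_mul]
          exact Nat.mul_le_mul_right _ (cB A)
      _ ≤ n.choose m * (n.choose (2 * m) * (2 ^ (m * p) * (2 * (Q * Q)))) := by
          rw [sum_const, smul_eq_mul]
          exact Nat.mul_le_mul_right _ cA
  have h6 : 2 ^ (m * p) * (2 ^ (m * p) * Bad.card) ≤
      2 ^ (m * p) * (n.choose m * n.choose (2 * m) * 2 * (Q * Q)) := by
    calc 2 ^ (m * p) * (2 ^ (m * p) * Bad.card) = 2 ^ (2 * m * p) * Bad.card := by
          rw [← mul_assoc, ← pow_add]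
          congr 2
          ring
      _ ≤ _ := h5
      _ = 2 ^ (m * p) * (n.choose m * n.choose (2 * m) * 2 * (Q * Q)) := by
          ring
  exact Nat.le_of_mul_le_mul_left h6 (by positivity)

theorem choose_le (n m lam : ℕ) (hm : 1 ≤ m) (h : 4 * n ≤ m * 2 ^ lam) :
    n.choose m ≤ 2 ^ (lam * m) := by
  have h1 : (n.choose m : ℝ) ≤ (n : ℝ) ^ m / m.factorial := Nat.choose_le_pow_div m n
  have h2 : (m : ℝ) ^ m / m.factorial ≤ Real.exp m := Real.pow_div_factorial_le_exp m (by positivity) m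
  have hm0 : (0 : ℝ) < m := by exact_mod_cast hm
  have hf : (0 : ℝ) < m.factorial := by exact_mod_cast Nat.factorial_pos m
  have h3 : (n : ℝ) / m * 4 ≤ 2 ^ lam := by
    rw [div_mul_eq_mul_div, div_le_iff₀ hm0]
    have : ((4 * n : ℕ) : ℝ) ≤ ((m * 2 ^ lam : ℕ) : ℝ) := by exact_mod_cast h
    push_cast at this
    linarith
  have h4 : (n : ℝ) ^ m / m.factorial ≤ ((n : ℝ) / m * 4) ^ m := by
    have e1 : (n : ℝ) ^ m / m.factorial = ((n : ℝ) / m) ^ m * ((m : ℝ) ^ m / m.factorial) := by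
      rw [div_pow]
      field_simp
    rw [e1, mul_pow]
    apply mul_le_mul_of_nonneg_left _ (by positivity)
    refine h2.trans ?_
    have e2 : Real.exp m = Real.exp 1 ^ m := by
      rw [← Real.exp_nat_mul]; simp
    rw [e2]
    apply pow_le_pow_left₀ (Real.exp_pos _).le
    have := Real.exp_one_lt_d9
    linarith
  have h5 : ((n.choose m : ℕ) : ℝ) ≤ ((2 ^ (lam * m) : ℕ) : ℝ) := by
    push_cast
    rw [pow_mul]
    exact h1.trans (h4.trans (pow_le_pow_left₀ (by positivity) h3 m))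
  exact_mod_cast h5

/-- A pair good for all sizes. -/
theorem exists_pair_all {F : Type*} [Field F] [Fintype F] [Algebra (ZMod 2) F]
    {n : ℕ} (hcard : Fintype.card F = 2 ^ n)
    {lam : F →ₗ[ZMod 2] ZMod 2} (hlam : lam ≠ 0) :
    ∃ ab : F × F, ∀ m t, 1 ≤ m → 4 * n ≤ m * 2 ^ t → n ^ 2 * 2 ^ (2 * m * (3 * t + 3)) ≤ 2 ^ n →
      1 ≤ n → GoodPair lam n m (3 * t + 3) ab := by
  classical
  by_contra hcon
  push Not at hcon
  set Q := Fintype.card F with hQ
  have hQ0 : 0 < Q := Fintype.card_pos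
  have hex : ∀ m, ∃ t, 1 ≤ m → 4 * n ≤ m * 2 ^ t := by
    intro m
    refine ⟨4 * n, fun hm => ?_⟩
    calc 4 * n ≤ 2 ^ (4 * n) := Nat.lt_two_pow_self.le
      _ ≤ m * 2 ^ (4 * n) := Nat.le_mul_of_pos_left _ hm
  set τ : ℕ → ℕ := fun m => Nat.find (hex m) with hτ
  have hτ1 : ∀ m, 1 ≤ m → 4 * n ≤ m * 2 ^ (τ m) := fun m => Nat.find_spec (hex m)
  have hτ2 : ∀ m t, 4 * n ≤ m * 2 ^ t → τ m ≤ t := fun m t h => Nat.find_min' (hex m) (fun _ => h)
  have hcov : (univ : Finset (F × F)) ⊆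
      ((Icc 1 n).filter fun m => n ^ 2 * 2 ^ (2 * m * (3 * τ m + 3)) ≤ 2 ^ n).biUnion fun m =>
      (univ : Finset (F × F)).filter fun ab => ¬ GoodPair lam n m (3 * τ m + 3) ab := by
    intro ab _
    obtain ⟨m, t, h1, h2, h3, hn1, h4⟩ := hcon ab
    have h5 := hτ2 m t h2
    rw [mem_biUnion]
    have h6 : n ^ 2 * 2 ^ (2 * m * (3 * τ m + 3)) ≤ 2 ^ n := by
      refine le_trans ?_ h3
      apply Nat.mul_le_mul_left
      apply Nat.pow_le_pow_right (by norm_num)
      apply Nat.mul_le_mul_left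
      omega
    refine ⟨m, ?_, ?_⟩
    · rw [mem_filter, mem_Icc]
      refine ⟨⟨h1, ?_⟩, h6⟩
      have h7 : 2 ^ (2 * m * (3 * τ m + 3)) ≤ 2 ^ n :=
        (Nat.le_mul_of_pos_left _ (by positivity)).trans h6
      have h8 := (Nat.pow_le_pow_iff_right (by norm_num : 1 < 2)).1 h7
      nlinarith
    · rw [mem_filter]
      refine ⟨mem_univ _, fun hg => h4 ?_⟩
      intro A B hAB hA hB
      refine (hg A B hAB hA hB).trans ?_
      apply Nat.pow_le_pow_right (by norm_num)
      omega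
  have h1 : (Q * Q : ℝ) ≤ ∑ m ∈ Icc 1 n, 2 * (Q * Q : ℝ) * (1 / 8) ^ m := by
    have h2 := (card_le_card hcov).trans card_biUnion_le
    rw [card_univ, Fintype.card_prod, ← hQ] at h2
    have h3 : ((Q * Q : ℕ) : ℝ) ≤ ∑ m ∈ (Icc 1 n).filter
        (fun m => n ^ 2 * 2 ^ (2 * m * (3 * τ m + 3)) ≤ 2 ^ n),
        2 * (Q * Q : ℝ) * (1 / 8) ^ m := by
      refine (Nat.cast_le.2 h2).trans ?_
      rw [Nat.cast_sum]
      refine sum_le_sum fun m hm => ?_
      rw [mem_filter, mem_Icc] at hm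
      have h4 := bad_card (F := F) (n := n) (m := m) (p := 3 * τ m + 3) hcard hlam hm.2
      rw [← hQ] at h4
      set b := ((univ : Finset (F × F)).filter fun ab => ¬ GoodPair lam n m (3 * τ m + 3) ab).card
        with hb
      have c1 : n.choose m ≤ 2 ^ (τ m * m) := choose_le n m (τ m) hm.1.1 (hτ1 m hm.1.1)
      have c2 : n.choose (2 * m) ≤ 2 ^ (τ m * (2 * m)) := choose_le n (2 * m) (τ m) (by omega) (by
        have := hτ1 m hm.1.1
        calc 4 * n ≤ m * 2 ^ τ m := this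
          _ ≤ 2 * m * 2 ^ τ m := Nat.mul_le_mul_right _ (by omega))
      have h6 : 2 ^ (m * (3 * τ m + 3)) * b ≤ 2 ^ (τ m * m) * 2 ^ (τ m * (2 * m)) * 2 * (Q * Q) := by
        refine h4.trans ?_
        apply Nat.mul_le_mul_right
        apply Nat.mul_le_mul_right
        exact Nat.mul_le_mul c1 c2
      have h7 : 2 ^ (3 * τ m * m) * (8 ^ m * b) ≤ 2 ^ (3 * τ m * m) * (2 * (Q * Q)) := by
        calc 2 ^ (3 * τ m * m) * (8 ^ m * b) = 2 ^ (m * (3 * τ m + 3)) * b := by
              rw [show m * (3 * τ m + 3) = 3 * τ m * m + 3 * m by ring, pow_add, pow_mul 2 3 m]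
              norm_num
              ring
          _ ≤ _ := h6
          _ = _ := by
              rw [← pow_add, show τ m * m + τ m * (2 * m) = 3 * τ m * m by ring]
              ring
      have h8 : 8 ^ m * b ≤ 2 * (Q * Q) := Nat.le_of_mul_le_mul_left h7 (by positivity)
      have h9 : (8 : ℝ) ^ m * b ≤ 2 * (Q * Q) := by exact_mod_cast h8
      rw [one_div, inv_pow, ← div_eq_mul_inv, le_div_iff₀ (by positivity)]
      linarith
    push_cast at h3
    refine h3.trans ?_
    exact sum_le_sum_of_subset_of_nonneg (filter_subset _ _) fun _ _ _ => by positivity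
  have h2 : ∑ m ∈ Icc 1 n, ((1 : ℝ) / 8) ^ m ≤ 1 / 7 := by
    have h3 : ∀ k : ℕ, ∑ m ∈ Icc 1 k, ((1 : ℝ) / 8) ^ m = (1 - (1 / 8) ^ k) / 7 := by
      intro k
      induction k with
      | zero => simp
      | succ k ih =>
        rw [sum_Icc_succ_top (by omega), ih, pow_succ]
        ring
    rw [h3]
    have : (0 : ℝ) ≤ (1 / 8) ^ n := by positivity
    linarith
  rw [← mul_sum] at h1
  have hQ1 : (0 : ℝ) < Q := by exact_mod_cast hQ0
  have hQ2 : (0 : ℝ) < Q * Q := by positivity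
  nlinarith

end Rank

/-- Good taps and window for all sizes at once. -/
theorem exists_good_all (n : ℕ) (hn1 : 1 ≤ n) :
    ∃ g s : List Bool, g.length = n ∧ s.length = n ∧
      ∀ m t, 1 ≤ m → 4 * n ≤ m * 2 ^ t → n ^ 2 * 2 ^ (2 * m * (3 * t + 3)) ≤ 2 ^ n →
      ∀ A B : Finset (Fin n), Disjoint A B → A.card = m → B.card = 2 * m →
        (ker (fun t => bz (lfsr g s t)) A B).card ≤ 2 ^ (3 * t + 3) := by
  classical
  obtain ⟨k, rfl⟩ : ∃ k, n = k + 1 := ⟨n - 1, by omega⟩
  let F := GaloisField 2 (k + 1)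
  let _ : Fintype F := Fintype.ofFinite F
  have hfin : Module.finrank (ZMod 2) F = k + 1 := GaloisField.finrank 2 (by omega)
  have hcard : Fintype.card F = 2 ^ (k + 1) := by
    rw [← Nat.card_eq_fintype_card]
    exact GaloisField.card 2 (k + 1) (by omega)
  obtain ⟨lam, hlam⟩ : ∃ lam : F →ₗ[ZMod 2] ZMod 2, lam ≠ 0 := by
    refine ⟨Algebra.trace (ZMod 2) F, ?_⟩
    intro h
    obtain ⟨x, hx⟩ := Algebra.trace_surjective (ZMod 2) F 1
    rw [h] at hx
    exact zero_ne_one hx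
  obtain ⟨⟨α, β⟩, hαβ⟩ := Rank.exists_pair_all (F := F) hcard hlam
  obtain ⟨c, hc⟩ := Rank.exists_rec (F := F) hfin α
  set r : ℕ → ZMod 2 := fun t => lam (β * α ^ t) with hr
  have hrec : ∀ t, r (t + (k + 1)) = ∑ j : Fin (k + 1), c j * r (t + j) := by
    intro t
    simp only [hr]
    rw [pow_add, hc, mul_sum, mul_sum, map_sum]
    apply sum_congr rfl
    intro j _
    have h := lam.map_smul (c j) (β * α ^ (t + (j : ℕ)))
    rw [smul_eq_mul] at h
    rw [← h, Algebra.smul_def, pow_add]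
    congr 1
    ring
  refine ⟨List.ofFn fun j => decide (c j = 1), List.ofFn fun j : Fin (k + 1) => decide (r j = 1),
    List.length_ofFn, List.length_ofFn, fun m t hm ht hn A B hAB hA hB => ?_⟩
  have h1 : (fun t => bz (lfsr (List.ofFn fun j => decide (c j = 1))
      (List.ofFn fun j : Fin (k + 1) => decide (r j = 1)) t)) = r := by
    funext t
    exact Rank.lfsr_eq c r hrec t
  rw [h1]
  exact hαβ m t hm ht hn hn1 A B hAB hA hB

end Pool.Agent.H774R2.QTS
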