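import Mathlib
import Pool.Agent.H774R2.QTS.Defs
import Pool.Agent.H774R2.QTS.GoodDefs
import Pool.Agent.H774R2.QTS.TwoParty
import Pool.Agent.H774R2.QTS.Mach
import Pool.Agent.H774R2.QTS.Fun
import Pool.Agent.H774R2.QTS.RankAll
import Pool.Agent.H774R2.QTS.Prob

/-!
# The finite form of the theorem
-/

open Finset

namespace Pool.Agent.H774R2.QTS

section

variable {n : ℕ}

/-! ### Uniqueness of the level -/

lemma aset0_subset_eset {β : Type} (ω : β → ℕ) (J : Fin n → Finset β) {c c' : ℕ} (h : c ≠ c') :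
    aset0 c ω J ⊆ eset c' ω J := by
  classical
  intro i hi
  unfold aset0 pset at hi
  unfold eset
  rw [mem_inter, mem_filter, mem_filter] at hi
  rw [mem_union]
  left
  rw [mem_symmDiff]
  right
  unfold pset
  rw [mem_filter, mem_filter]
  exact ⟨⟨hi.1.1, hi.2.2⟩, fun h' => h (hi.1.2.symm.trans h'.2)⟩

lemma Good_unique {β : Type} {ω : β → ℕ} {J : Fin n → Finset β} {Γ a0 c c' : ℕ} (hΓ : 2 ≤ Γ)
    (ha0 : 1 ≤ a0) (h : Good c Γ a0 ω J) (h' : Good c' Γ a0 ω J) : c = c' := by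
  classical
  by_contra hne
  have h1 := card_le_card (aset0_subset_eset ω J hne)
  have h2 := card_le_card (aset0_subset_eset ω J (Ne.symm hne))
  have h3 := h.2
  have h4 := h'.2
  have h5 := h.1
  have h6 := h'.1
  have h7 := min_le_left (aset0 c ω J).card (aset1 c ω J).card
  have h8 := min_le_left (aset0 c' ω J).card (aset1 c' ω J).card
  have h9 : 2 * (eset c ω J).card ≤ Γ * (eset c ω J).card := Nat.mul_le_mul_right _ hΓ
  have h10 : 2 * (eset c' ω J).card ≤ Γ * (eset c' ω J).card := Nat.mul_le_mul_right _ hΓ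
  omega

/-! ### The volume bound -/

lemma vol_zero (n : ℕ) : vol n 0 = 1 := by
  unfold vol
  have : (univ.filter fun S : Finset (Fin n) => S.card ≤ 0) = {∅} := by
    ext S; simp
  rw [this, card_singleton]

lemma vol_le (n e t : ℕ) (hen : e ≤ n) (h : 4 * n ≤ e * 2 ^ t) : (vol n e : ℝ) ≤ 2 ^ (t * e) := by
  classical
  rcases Nat.eq_zero_or_pos e with he | he
  · subst he
    rw [vol_zero]; simp
  have hn0 : (0 : ℝ) < n := by exact_mod_cast (lt_of_lt_of_le he hen)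
  have he0 : (0 : ℝ) < e := by exact_mod_cast he
  set x : ℝ := (e : ℝ) / n with hx
  have hx0 : 0 < x := by positivity
  have hx1 : x ≤ 1 := by
    rw [hx, div_le_one hn0]; exact_mod_cast hen
  have h1 : x ^ e * (vol n e : ℝ) ≤ (1 + x) ^ n := by
    have h2 := Fintype.sum_pow_mul_eq_add_pow (Fin n) x 1
    rw [Fintype.card_fin] at h2
    simp only [one_pow, mul_one] at h2
    rw [add_comm 1 x, ← h2]
    calc x ^ e * (vol n e : ℝ) = ∑ S ∈ univ.filter (fun S : Finset (Fin n) => S.card ≤ e), x ^ e := by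
          rw [sum_const, nsmul_eq_mul, vol, mul_comm]
      _ ≤ ∑ S ∈ univ.filter (fun S : Finset (Fin n) => S.card ≤ e), x ^ S.card := by
          refine sum_le_sum fun S hS => ?_
          rw [mem_filter] at hS
          exact pow_le_pow_of_le_one hx0.le hx1 hS.2
      _ ≤ _ := sum_le_sum_of_subset_of_nonneg (filter_subset _ _) fun _ _ _ => by positivity
  have h2 : (1 + x) ^ n ≤ Real.exp 1 ^ e := by
    calc (1 + x) ^ n ≤ (Real.exp x) ^ n := by
          apply pow_le_pow_left₀ (by positivity)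
          have := Real.add_one_le_exp x
          linarith
      _ = Real.exp 1 ^ e := by
          rw [← Real.exp_nat_mul, ← Real.exp_nat_mul]
          congr 1
          rw [hx]
          field_simp
  have h3 : (vol n e : ℝ) ≤ (4 / x) ^ e := by
    have h4 : x ^ e * (vol n e : ℝ) ≤ 4 ^ e := by
      refine h1.trans (h2.trans ?_)
      apply pow_le_pow_left₀ (Real.exp_pos _).le
      have := Real.exp_one_lt_d9
      linarith
    rw [div_pow, le_div_iff₀ (by positivity)]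
    linarith
  refine h3.trans ?_
  rw [pow_mul]
  apply pow_le_pow_left₀ (by positivity)
  rw [hx, div_div_eq_mul_div, div_le_iff₀ he0]
  have : ((4 * n : ℕ) : ℝ) ≤ ((e * 2 ^ t : ℕ) : ℝ) := by exact_mod_cast h
  push_cast at this
  linarith

/-! ### The two-party property -/

lemma TP_quad (q : ℕ → ZMod 2) (a m p : ℕ) (h2m : 2 * m ≤ a)
    (hker : ∀ A B : Finset (Fin n), Disjoint A B → A.card = m → B.card = 2 * m →
      (ker q A B).card ≤ 2 ^ p) :
    TP (fun x : Fin n → ZMod 2 => chi (quad q x)) a (Real.sqrt (2 ^ p / 2 ^ m)) := by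
  intro A B hAB hA hB g1 g2 h1 h2
  obtain ⟨A', hA', hA'c⟩ := exists_subset_card_eq (show m ≤ A.card by omega)
  obtain ⟨B', hB', hB'c⟩ := exists_subset_card_eq (show 2 * m ≤ B.card by omega)
  have hd : Disjoint A' B' := disjoint_of_subset_left hA' (disjoint_of_subset_right hB' hAB)
  have key := two_party q A' B' hd g1 g2 (h1.mono hB') (h2.mono hA')
  have hk := hker A' B' hd hA'c hB'c
  rw [hA'c] at key
  set X := ∑ x, ‖g1 x‖ ^ 2 with hX
  set Y := ∑ x, ‖g2 x‖ ^ 2 with hY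
  have hX0 : 0 ≤ X := sum_nonneg fun _ _ => by positivity
  have hY0 : 0 ≤ Y := sum_nonneg fun _ _ => by positivity
  have hk' : ((ker q A' B').card : ℝ) / 2 ^ m ≤ 2 ^ p / 2 ^ m := by
    apply div_le_div_of_nonneg_right _ (by positivity)
    exact_mod_cast hk
  have h3 : ‖∑ x, chi (quad q x) * (g1 x * g2 x)‖ ^ 2 ≤
      (Real.sqrt (2 ^ p / 2 ^ m) * ((X + Y) / 2)) ^ 2 := by
    rw [mul_pow, Real.sq_sqrt (by positivity)]
    calc _ ≤ ((ker q A' B').card : ℝ) / 2 ^ m * X * Y := key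
      _ ≤ 2 ^ p / 2 ^ m * X * Y := by
        apply mul_le_mul_of_nonneg_right _ hY0
        exact mul_le_mul_of_nonneg_right hk' hX0
      _ = 2 ^ p / 2 ^ m * (X * Y) := by ring
      _ ≤ _ := by
        apply mul_le_mul_of_nonneg_left _ (by positivity)
        nlinarith [sq_nonneg (X - Y)]
  exact (pow_le_pow_iff_left₀ (norm_nonneg _) (by positivity) (by norm_num)).1 h3

lemma kappa_vol (n p t m E e : ℕ) (hv : (vol n e : ℝ) ≤ 2 ^ (t * e))
    (h : p + 4 * t * e + 2 * E ≤ m) :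
    Real.sqrt (2 ^ p / 2 ^ m) * (vol n e : ℝ) ^ 2 ≤ (1 / 2) ^ E := by
  have h1 : (Real.sqrt (2 ^ p / 2 ^ m) * (vol n e : ℝ) ^ 2) ^ 2 ≤ (((1 : ℝ) / 2) ^ E) ^ 2 := by
    rw [mul_pow, Real.sq_sqrt (by positivity)]
    calc (2 : ℝ) ^ p / 2 ^ m * ((vol n e : ℝ) ^ 2) ^ 2
        ≤ (2 : ℝ) ^ p / 2 ^ m * (((2 : ℝ) ^ (t * e)) ^ 2) ^ 2 := by
          apply mul_le_mul_of_nonneg_left _ (by positivity)
          apply pow_le_pow_left₀ (by positivity)
          apply pow_le_pow_left₀ (by positivity) hv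
      _ = (2 : ℝ) ^ (p + 4 * t * e) / 2 ^ m := by
          rw [← pow_mul, ← pow_mul, div_mul_eq_mul_div, ← pow_add]
          congr 2
          ring
      _ ≤ (((1 : ℝ) / 2) ^ E) ^ 2 := by
          rw [div_le_iff₀ (by positivity)]
          have : (2 : ℝ) ^ m = 2 ^ (2 * E) * 2 ^ (m - 2 * E) := by
            rw [← pow_add]; congr 1; omega
          rw [this, ← pow_mul, mul_comm E 2, ← mul_assoc, ← mul_pow]
          norm_num
          exact pow_le_pow_right₀ (by norm_num) (by omega)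
  exact (pow_le_pow_iff_left₀ (by positivity) (by positivity) (by norm_num)).1 h1

end

/-! ### The main inequality -/

section

variable {N D T : ℕ}

open Classical in
/-- The weight of a history in the average. -/
noncomputable def theta (Q : Machine N D T) {n : ℕ} (loc : Fin N → Option (Fin n))
    (d r k Γ a0 R L : ℕ) (h : Fin r → (Fin d → Fin (Q.M + 1))) : ℝ :=
  ∑ l ∈ Icc 2 (L + 1), (∑ ω : Fin r → Fin (R ^ l), ∑ c ∈ Icc 1 (2 * k),
    if Good c Γ a0 (fun j => (ω j).val) (Jof (fun j => Q.vset loc d j) h) then (1 : ℝ) else 0) /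
      (((R : ℝ) ^ l) ^ r)

open Classical in
lemma theta_le (Q : Machine N D T) {n : ℕ} (loc : Fin N → Option (Fin n))
    (d r k Γ a0 R L : ℕ) (hΓ : 2 ≤ Γ) (ha0 : 1 ≤ a0) (h : Fin r → (Fin d → Fin (Q.M + 1))) :
    theta Q loc d r k Γ a0 R L h ≤ L := by
  unfold theta
  have h1 : ∀ l ∈ Icc 2 (L + 1), (∑ ω : Fin r → Fin (R ^ l), ∑ c ∈ Icc 1 (2 * k),
      if Good c Γ a0 (fun j => (ω j).val) (Jof (fun j => Q.vset loc d j) h) then (1 : ℝ) else 0) /
      (((R : ℝ) ^ l) ^ r) ≤ 1 := by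
    intro l _
    apply div_le_one_of_le₀ _ (by positivity)
    calc _ ≤ ∑ _ω : Fin r → Fin (R ^ l), (1 : ℝ) := by
          refine sum_le_sum fun ω _ => ?_
          rw [← sum_filter, sum_const, nsmul_eq_mul, mul_one]
          have : ((Icc 1 (2 * k)).filter fun c =>
              Good c Γ a0 (fun j => (ω j).val) (Jof (fun j => Q.vset loc d j) h)).card ≤ 1 := by
            rw [card_le_one]
            intro c hc c' hc'
            rw [mem_filter] at hc hc'
            exact Good_unique hΓ ha0 hc.2 hc'.2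
          exact_mod_cast this
      _ = ((R : ℝ) ^ l) ^ r := by
          rw [sum_const, card_univ, Fintype.card_fun, Fintype.card_fin, Fintype.card_fin, nsmul_eq_mul]
          push_cast
          ring
  calc _ ≤ ∑ _l ∈ Icc 2 (L + 1), (1 : ℝ) := sum_le_sum h1
    _ = L := by
      rw [sum_const, Nat.card_Icc, nsmul_eq_mul]
      push_cast [show L + 1 + 1 - 2 = L by omega]
      ring

open Classical in
lemma theta_ge (Q : Machine N D T) {n : ℕ} (loc : Fin N → Option (Fin n))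
    (hloc : ∀ k, ∃ i, loc i = some k)
    (d r k Γ a0 H R L : ℕ) (hr : T + N ≤ r * d) (hrk : r * d ≤ k * n)
    (hn : 1 ≤ n) (hk : 1 ≤ k) (hH : 1 ≤ H) (hΓ : 1 ≤ Γ)
    (hL : 12 * k * H ≤ L) (hR : 200 * Γ * H * (2 * k + 1) ≤ R)
    (hdn : 200 * H * k ^ 2 * d * (R ^ (L + 1)) ^ (2 * k) ≤ n)
    (ha : 8 * k * a0 * (R ^ (L + 1)) ^ (2 * k) ≤ n)
    (h : Fin r → (Fin d → Fin (Q.M + 1))) :
    (1 - 1 / (H : ℝ)) * L ≤ theta Q loc d r k Γ a0 R L h := by
  have key := prob_good (Jof (fun j : Fin r => Q.vset loc d j) h) k d Γ H R L a0 hn hk hH hΓ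
    (fun i => Q.jof_nonempty loc hloc d r hr h i)
    ((Q.jof_sum loc d r h).trans hrk) (fun j => Q.jof_block loc d r h j) hL hR hdn ha
  refine key.trans ?_
  unfold theta
  refine sum_le_sum fun l _ => ?_
  rw [Fintype.card_fin]
  apply div_le_div_of_nonneg_right _ (by positivity)
  rw [card_filter]
  push_cast
  refine sum_le_sum fun ω _ => ?_
  split_ifs with hex
  · obtain ⟨c, hc, hg⟩ := hex
    have := single_le_sum (f := fun c => if Good c Γ a0 (fun j => (ω j).val)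
      (Jof (fun j => Q.vset loc d j) h) then (1 : ℝ) else 0) (fun c _ => by split_ifs <;> norm_num) hc
    refine le_trans ?_ this
    rw [if_pos hg]
  · exact sum_nonneg fun c _ => by split_ifs <;> norm_num

open Classical in
lemma theta_sum (Q : Machine N D T) {n : ℕ} (loc : Fin N → Option (Fin n))
    (Ac : Finset (Fin D)) (d r k Γ a0 R L : ℕ) (y : Fin N → Bool) :
    ∑ h : Fin r → (Fin d → Fin (Q.M + 1)), Q.pr Ac d r y h * theta Q loc d r k Γ a0 R L h =
    ∑ l ∈ Icc 2 (L + 1), ∑ ω : Fin r → Fin (R ^ l), ∑ c ∈ Icc 1 (2 * k),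
      (∑ h : Fin r → (Fin d → Fin (Q.M + 1)),
        if Good c Γ a0 (fun j => (ω j).val) (Jof (fun j => Q.vset loc d j) h) then Q.pr Ac d r y h
          else 0) / (((R : ℝ) ^ l) ^ r) := by
  unfold theta
  simp_rw [mul_sum]
  rw [sum_comm]
  refine sum_congr rfl fun l _ => ?_
  have e : ∀ h : Fin r → (Fin d → Fin (Q.M + 1)), Q.pr Ac d r y h *
      ((∑ ω : Fin r → Fin (R ^ l), ∑ c ∈ Icc 1 (2 * k),
        if Good c Γ a0 (fun j => (ω j).val) (Jof (fun j => Q.vset loc d j) h) then (1 : ℝ) else 0) /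
      (((R : ℝ) ^ l) ^ r)) = ∑ ω : Fin r → Fin (R ^ l), ∑ c ∈ Icc 1 (2 * k),
        (if Good c Γ a0 (fun j => (ω j).val) (Jof (fun j => Q.vset loc d j) h) then Q.pr Ac d r y h
          else 0) / (((R : ℝ) ^ l) ^ r) := by
    intro h
    rw [← mul_div_assoc, mul_sum, sum_div]
    refine sum_congr rfl fun ω _ => ?_
    rw [mul_sum, sum_div]
    refine sum_congr rfl fun c _ => ?_
    split_ifs <;> simp
  rw [sum_congr rfl fun h _ => e h, sum_comm]
  refine sum_congr rfl fun ω _ => ?_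
  rw [sum_comm]
  refine sum_congr rfl fun c _ => ?_
  rw [sum_div]

/-- Upper bound for the correlation of the averaged weight of the good histories. -/
theorem corr_bound (Q : Machine N D T) (hQ : Q.Valid) (Ac : Finset (Fin D)) {n : ℕ}
    (loc : Fin N → Option (Fin n)) (X : (Fin n → ZMod 2) → (Fin N → Bool))
    (hX : ∀ x x' i, (∀ k, loc i = some k → x k = x' k) → X x i = X x' i)
    (Γ a0 k d r R L : ℕ) (hΓ : 1 ≤ Γ) (hR1 : 1 ≤ R) (F : (Fin n → ZMod 2) → ℂ)
    (κ : ℕ → ℝ) (hκ0 : ∀ a, 0 ≤ κ a) (hTP : ∀ a, a0 ≤ a → TP F a (κ a)) :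
    ‖∑ x, F x * ((∑ h : Fin r → (Fin d → Fin (Q.M + 1)),
      Q.pr Ac d r (X x) h * theta Q loc d r k Γ a0 R L h : ℝ) : ℂ)‖ ≤
      L * (2 * k * ((D : ℝ) ^ (2 * (r + 1)) * (dlt n Γ a0 κ * 2 ^ n))) := by
  classical
  have hdlt0 : 0 ≤ dlt n Γ a0 κ := sum_nonneg fun a _ => mul_nonneg (hκ0 a) (by positivity)
  set A : (Fin n → ZMod 2) → ℝ := fun x => ∑ h : Fin r → (Fin d → Fin (Q.M + 1)),
    Q.pr Ac d r (X x) h * theta Q loc d r k Γ a0 R L h with hA
  have e1 : ∑ x, F x * (A x : ℂ) = ∑ l ∈ Icc 2 (L + 1), ∑ ω : Fin r → Fin (R ^ l),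
      ∑ c ∈ Icc 1 (2 * k), (∑ x, F x * ((∑ h : Fin r → (Fin d → Fin (Q.M + 1)),
      if Good c Γ a0 (fun j => (ω j).val) (Jof (fun j => Q.vset loc d j) h) then
        Q.pr Ac d r (X x) h else 0 : ℝ) : ℂ)) / ((((R : ℝ) ^ l) ^ r : ℝ) : ℂ) := by
    have e2 : ∀ x, F x * (A x : ℂ) = ∑ l ∈ Icc 2 (L + 1), ∑ ω : Fin r → Fin (R ^ l),
        ∑ c ∈ Icc 1 (2 * k), F x * ((∑ h : Fin r → (Fin d → Fin (Q.M + 1)),
        if Good c Γ a0 (fun j => (ω j).val) (Jof (fun j => Q.vset loc d j) h) then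
        Q.pr Ac d r (X x) h else 0 : ℝ) : ℂ) / ((((R : ℝ) ^ l) ^ r : ℝ) : ℂ) := by
      intro x
      have e3 : A x = _ := theta_sum Q loc Ac d r k Γ a0 R L (X x)
      rw [e3]
      rw [Complex.ofReal_sum, mul_sum]
      refine sum_congr rfl fun l _ => ?_
      rw [Complex.ofReal_sum, mul_sum]
      refine sum_congr rfl fun ω _ => ?_
      rw [Complex.ofReal_sum, mul_sum]
      refine sum_congr rfl fun c _ => ?_
      rw [Complex.ofReal_div, mul_div_assoc]
    rw [sum_congr rfl fun x _ => e2 x, sum_comm]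
    refine sum_congr rfl fun l _ => ?_
    rw [sum_comm]
    refine sum_congr rfl fun ω _ => ?_
    rw [sum_comm]
    refine sum_congr rfl fun c _ => ?_
    rw [sum_div]
  rw [e1]
  have hW : ∀ l, (0 : ℝ) < ((R : ℝ) ^ l) ^ r := fun l => by
    have : (0 : ℝ) < R := by exact_mod_cast hR1
    positivity
  set B : ℝ := (D : ℝ) ^ (2 * (r + 1)) * (dlt n Γ a0 κ * 2 ^ n) with hB
  have hB0 : 0 ≤ B := by positivity
  calc _ ≤ ∑ l ∈ Icc 2 (L + 1), ∑ _ω : Fin r → Fin (R ^ l), ∑ _c ∈ Icc 1 (2 * k),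
        B / ((R : ℝ) ^ l) ^ r := by
        refine (norm_sum_le _ _).trans (sum_le_sum fun l _ => ?_)
        refine (norm_sum_le _ _).trans (sum_le_sum fun ω _ => ?_)
        refine (norm_sum_le _ _).trans (sum_le_sum fun c hc => ?_)
        rw [mem_Icc] at hc
        rw [norm_div, Complex.norm_real, Real.norm_of_nonneg (hW l).le]
        apply div_le_div_of_nonneg_right _ (hW l).le
        exact Q.good_bound hQ Ac loc X hX d r
          (fun j => (ω j).val) F c Γ a0 hc.1 (by omega) κ hκ0 hTP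
    _ = ∑ l ∈ Icc 2 (L + 1), 2 * k * B := by
        refine sum_congr rfl fun l _ => ?_
        rw [sum_const, sum_const, card_univ, Fintype.card_fun, Fintype.card_fin, Fintype.card_fin,
          Nat.card_Icc, nsmul_eq_mul, nsmul_eq_mul]
        have : ((R ^ l) ^ r : ℕ) = (((R : ℝ) ^ l) ^ r : ℝ) := by push_cast; rfl
        rw [this]
        have h2 : ((2 * k + 1 - 1 : ℕ) : ℝ) = 2 * k := by
          rw [Nat.add_sub_cancel]; push_cast; ring
        rw [h2]
        have := (hW l).ne'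
        field_simp
    _ = L * (2 * k * B) := by
        rw [sum_const, Nat.card_Icc, nsmul_eq_mul, show L + 1 + 1 - 2 = L by omega]

/-- The finite form of the theorem. -/
theorem finite_main (Q : Machine N D T) (hQ : Q.Valid) (S : ℕ) (δ : ℝ)
    (hf : Q.Computes S δ (fun x => quadFun (List.ofFn x)))
    (hn : 1 ≤ N / 3) (τ E Γ a0 k d r H R L : ℕ)
    (hτ : 8 * Γ * (N / 3) ≤ a0 * 2 ^ τ)
    (hstar : ∀ a, a0 ≤ a → a ≤ N / 3 → ∃ m t, 2 * m ≤ a ∧ 4 * (N / 3) ≤ m * 2 ^ t ∧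
      (N / 3) ^ 2 * 2 ^ (2 * m * (3 * t + 3)) ≤ 2 ^ (N / 3) ∧
      3 * t + 3 + 4 * τ * (a / Γ) + 2 * E ≤ m)
    (ha0 : 1 ≤ a0) (hr : T + N ≤ r * d) (hrk : r * d ≤ k * (N / 3))
    (hk : 1 ≤ k) (hH : 1 ≤ H) (hΓ : 2 ≤ Γ)
    (hL : 12 * k * H ≤ L) (hR : 200 * Γ * H * (2 * k + 1) ≤ R)
    (hdn : 200 * H * k ^ 2 * d * (R ^ (L + 1)) ^ (2 * k) ≤ N / 3)
    (ha : 8 * k * a0 * (R ^ (L + 1)) ^ (2 * k) ≤ N / 3)
    (hδH : 1 / (H : ℝ) ≤ 2 * δ) :
    (2 * δ - 1 / (H : ℝ)) * (1 / 2) ^ S ≤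
      (1 / 2) ^ E * (4 * k * (N / 3 + 1 : ℕ) * (D : ℝ) ^ (2 * (r + 1))) := by
  classical
  set n := N / 3 with hn'
  obtain ⟨g, s, hg, hs, hgood⟩ := exists_good_all n hn
  have hst : ∀ a, ∃ mt : ℕ × ℕ, a0 ≤ a → a ≤ n → 2 * mt.1 ≤ a ∧ 4 * n ≤ mt.1 * 2 ^ mt.2 ∧
      n ^ 2 * 2 ^ (2 * mt.1 * (3 * mt.2 + 3)) ≤ 2 ^ n ∧
      3 * mt.2 + 3 + 4 * τ * (a / Γ) + 2 * E ≤ mt.1 := by
    intro a
    by_cases h : a0 ≤ a ∧ a ≤ n
    · obtain ⟨m, t, hmt⟩ := hstar a h.1 h.2
      exact ⟨(m, t), fun _ _ => hmt⟩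
    · exact ⟨(0, 0), fun h1 h2 => absurd ⟨h1, h2⟩ h⟩
  choose mt hmt using hst
  set q : ℕ → ZMod 2 := fun t => bz (lfsr g s t) with hq
  set X : (Fin n → ZMod 2) → (Fin N → Bool) := inp N g s with hX
  set F : (Fin n → ZMod 2) → ℂ := fun x => chi (quad q x) with hF
  set κ : ℕ → ℝ := fun a => Real.sqrt (2 ^ (3 * (mt a).2 + 3) / 2 ^ (mt a).1) with hκ
  have hκ0 : ∀ a, 0 ≤ κ a := fun a => Real.sqrt_nonneg _
  have hTP : ∀ a, a0 ≤ a → TP F a (κ a) := by
    intro a haa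
    by_cases han : a ≤ n
    · obtain ⟨h1, h2, h3, h4⟩ := hmt a haa han
      exact TP_quad q a (mt a).1 (3 * (mt a).2 + 3) h1 (hgood (mt a).1 (mt a).2 (by omega) h2 h3)
    · intro A B _ hA _
      have : A.card ≤ n := by simpa using card_le_univ A
      omega
  have hR1 : 1 ≤ R := by
    have : 1 ≤ 200 * Γ * H * (2 * k + 1) := Nat.one_le_iff_ne_zero.2 (by positivity)
    omega
  have hdlt : dlt n Γ a0 κ ≤ (n + 1 : ℕ) * (1 / 2) ^ E := by
    unfold dlt
    calc _ ≤ ∑ _a ∈ Icc a0 n, ((1 : ℝ) / 2) ^ E := by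
          refine sum_le_sum fun a haI => ?_
          rw [mem_Icc] at haI
          refine kappa_vol n _ τ _ E (a / Γ) ?_ (hmt a haI.1 haI.2).2.2.2
          rcases Nat.eq_zero_or_pos (a / Γ) with h0 | h0
          · rw [h0, vol_zero]; simp
          · apply vol_le
            · exact (Nat.div_le_self _ _).trans haI.2
            · -- a / Γ ≥ a / (2 Γ)
              have e1 : a ≤ 2 * Γ * (a / Γ) := by
                have e2 : a < Γ * (a / Γ) + Γ := by
                  have := Nat.div_add_mod a Γ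
                  have := Nat.mod_lt a (show 0 < Γ by omega)
                  omega
                have e3 : Γ * 1 ≤ Γ * (a / Γ) := Nat.mul_le_mul_left _ h0
                calc a ≤ Γ * (a / Γ) + Γ := e2.le
                  _ ≤ Γ * (a / Γ) + Γ * (a / Γ) := by omega
                  _ = _ := by ring
              have e4 : 2 * Γ * (4 * n) ≤ 2 * Γ * (a / Γ * 2 ^ τ) := by
                calc 2 * Γ * (4 * n) = 8 * Γ * n := by ring
                  _ ≤ a0 * 2 ^ τ := hτ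
                  _ ≤ a * 2 ^ τ := Nat.mul_le_mul_right _ haI.1
                  _ ≤ 2 * Γ * (a / Γ) * 2 ^ τ := Nat.mul_le_mul_right _ e1
                  _ = _ := by ring
              exact Nat.le_of_mul_le_mul_left e4 (by omega)
      _ ≤ _ := by
          rw [sum_const, Nat.card_Icc, nsmul_eq_mul]
          apply mul_le_mul_of_nonneg_right _ (by positivity)
          exact_mod_cast Nat.sub_le _ _
  have hdlt0 : 0 ≤ dlt n Γ a0 κ := sum_nonneg fun a _ => mul_nonneg (hκ0 a) (by positivity)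
  -- the averages
  set A : Finset (Fin D) → (Fin n → ZMod 2) → ℝ := fun Ac x =>
    ∑ h : Fin r → (Fin d → Fin (Q.M + 1)),
      Q.pr Ac d r (X x) h * theta Q (loc N) d r k Γ a0 R L h with hA
  have hTr : T ≤ r * d := by omega
  have hA1 : ∀ Ac x, A Ac x ≤ L * Q.prob Ac (X x) := by
    intro Ac x
    rw [hA, Q.prob_eq Ac d r hTr, mul_sum]
    refine sum_le_sum fun h _ => ?_
    rw [mul_comm (L : ℝ)]
    exact mul_le_mul_of_nonneg_left (theta_le Q (loc N) d r k Γ a0 R L hΓ ha0 h)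
      (Q.pr_nonneg Ac d r _ h)
  have hA2 : ∀ Ac x, (1 - 1 / (H : ℝ)) * L * Q.prob Ac (X x) ≤ A Ac x := by
    intro Ac x
    rw [hA, Q.prob_eq Ac d r hTr, mul_sum]
    refine sum_le_sum fun h _ => ?_
    rw [mul_comm]
    exact mul_le_mul_of_nonneg_left (theta_ge Q (loc N) loc_surj d r k Γ a0 H R L hr hrk hn hk hH
      (by omega) hL hR hdn ha h) (Q.pr_nonneg Ac d r _ h)
  have hprob : ∀ Ac x, 0 ≤ Q.prob Ac (X x) := by
    intro Ac x
    rw [Q.prob_eq Ac d r hTr]
    exact sum_nonneg fun h _ => Q.pr_nonneg Ac d r _ h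
  have hL1 : 1 ≤ L := by
    have : 1 ≤ 12 * k * H := Nat.one_le_iff_ne_zero.2 (by positivity)
    omega
  have hLpos : (0 : ℝ) < L := by exact_mod_cast hL1
  -- the signs
  set Fr : (Fin n → ZMod 2) → ℝ := fun x => if quad q x = 0 then 1 else -1 with hFr
  have hFFr : ∀ x, F x = (Fr x : ℂ) := by
    intro x
    rw [hF, hFr]
    unfold chi
    dsimp only
    split_ifs <;> simp
  have hup : ∀ Ac, |∑ x, Fr x * A Ac x| ≤
      L * (2 * k * ((D : ℝ) ^ (2 * (r + 1)) * (dlt n Γ a0 κ * 2 ^ n))) := by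
    intro Ac
    have h1 := corr_bound Q hQ Ac (loc N) X (fun x x' i h => inp_local g s x x' i h)
      Γ a0 k d r R L (by omega) hR1 F κ hκ0 hTP
    have h5 : ∑ x, F x * (A Ac x : ℂ) = ((∑ x, Fr x * A Ac x : ℝ) : ℂ) := by
      push_cast
      refine sum_congr rfl fun x _ => ?_
      rw [hFFr]
    have h2 : ‖∑ x, F x * (A Ac x : ℂ)‖ ≤
      L * (2 * k * ((D : ℝ) ^ (2 * (r + 1)) * (dlt n Γ a0 κ * 2 ^ n))) := h1
    rw [h5, Complex.norm_real, Real.norm_eq_abs] at h2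
    exact h2
  -- lower bound for the correlation
  have hHpos : (0 : ℝ) < H := by exact_mod_cast hH
  have hlow : ∀ x, L * ((2 * δ - 1 / (H : ℝ)) * (1 / 2) ^ S) ≤ -Fr x * (A Q.yes x - A Q.no x) := by
    intro x
    obtain ⟨hc0, hc1, hc2⟩ := hf (X x)
    have hq1 := quadFun_inp (N := N) g s hg hs x
    have y1 := hA1 Q.yes x
    have y2 := hA2 Q.yes x
    have z1 := hA1 Q.no x
    have z2 := hA2 Q.no x
    have py := hprob Q.yes x
    have pn := hprob Q.no x
    set p1 := Q.prob Q.yes (X x) with hp1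
    set p0 := Q.prob Q.no (X x) with hp0
    have hinv : (0 : ℝ) < 1 / H := by positivity
    have hLP : L * ((2 * δ - 1 / (H : ℝ)) * (1 / 2) ^ S) ≤
        L * ((2 * δ - 1 / (H : ℝ)) * (p1 + p0)) := by
      apply mul_le_mul_of_nonneg_left _ hLpos.le
      exact mul_le_mul_of_nonneg_left hc0 (by linarith)
    refine hLP.trans ?_
    by_cases hqx : quad q x = 0
    · have hfr : Fr x = 1 := by rw [hFr]; simp [hqx]
      have hfalse : quadFun (List.ofFn (X x)) = false := by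
        rw [Bool.eq_false_iff]
        intro h
        have := hq1.1 h
        rw [hq] at hqx
        rw [hqx] at this
        exact absurd this (by decide)
      have h3 := hc2 hfalse
      rw [hfr]
      have h4 : (2 * δ - 1 / (H : ℝ)) * (p1 + p0) ≤ (1 - 1 / (H : ℝ)) * p0 - p1 := by
        nlinarith
      have h5 : L * ((2 * δ - 1 / (H : ℝ)) * (p1 + p0)) ≤ L * ((1 - 1 / (H : ℝ)) * p0 - p1) :=
        mul_le_mul_of_nonneg_left h4 hLpos.le
      nlinarith
    · have hqx1 : quad q x = 1 := (z2_cases _).resolve_left hqx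
      have hfr : Fr x = -1 := by rw [hFr]; simp [hqx]
      have htrue : quadFun (List.ofFn (X x)) = true := hq1.2 hqx1
      have h3 := hc1 htrue
      rw [hfr]
      have h4 : (2 * δ - 1 / (H : ℝ)) * (p1 + p0) ≤ (1 - 1 / (H : ℝ)) * p1 - p0 := by
        nlinarith
      have h5 : L * ((2 * δ - 1 / (H : ℝ)) * (p1 + p0)) ≤ L * ((1 - 1 / (H : ℝ)) * p1 - p0) :=
        mul_le_mul_of_nonneg_left h4 hLpos.le
      nlinarith
  have h2n : (0 : ℝ) < 2 ^ n := by positivity
  set B : ℝ := 2 * k * ((D : ℝ) ^ (2 * (r + 1)) * (dlt n Γ a0 κ * 2 ^ n)) with hB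
  have hlow2 : 2 ^ n * (L * ((2 * δ - 1 / (H : ℝ)) * (1 / 2) ^ S)) ≤ L * B + L * B := by
    have h1 := sum_le_sum (s := (univ : Finset (Fin n → ZMod 2))) fun x _ => hlow x
    rw [sum_const, card_univ, Fintype.card_fun, ZMod.card, Fintype.card_fin,
      nsmul_eq_mul] at h1
    push_cast at h1
    refine h1.trans ?_
    have h3 : ∑ x, -Fr x * (A Q.yes x - A Q.no x) =
        -(∑ x, Fr x * A Q.yes x) + ∑ x, Fr x * A Q.no x := by
      rw [← sum_neg_distrib, ← sum_add_distrib]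
      refine sum_congr rfl fun x _ => ?_
      ring
    rw [h3]
    have h4 := hup Q.yes
    have h5 := hup Q.no
    have h6 := neg_le_abs (∑ x, Fr x * A Q.yes x)
    have h7 := le_abs_self (∑ x, Fr x * A Q.no x)
    linarith
  have hlow3 : (2 * δ - 1 / (H : ℝ)) * (1 / 2) ^ S ≤
      4 * k * ((D : ℝ) ^ (2 * (r + 1)) * dlt n Γ a0 κ) := by
    have h1 : (2 ^ n * L) * ((2 * δ - 1 / (H : ℝ)) * (1 / 2) ^ S) ≤
        (2 ^ n * L) * (4 * k * ((D : ℝ) ^ (2 * (r + 1)) * dlt n Γ a0 κ)) := by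
      calc _ = 2 ^ n * (L * ((2 * δ - 1 / (H : ℝ)) * (1 / 2) ^ S)) := by ring
        _ ≤ L * B + L * B := hlow2
        _ = _ := by rw [hB]; ring
    exact le_of_mul_le_mul_left h1 (by positivity)
  refine hlow3.trans ?_
  calc 4 * (k : ℝ) * ((D : ℝ) ^ (2 * (r + 1)) * dlt n Γ a0 κ)
      ≤ 4 * k * ((D : ℝ) ^ (2 * (r + 1)) * ((n + 1 : ℕ) * (1 / 2) ^ E)) := by
        apply mul_le_mul_of_nonneg_left _ (by positivity)
        exact mul_le_mul_of_nonneg_left hdlt (by positivity)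
    _ = _ := by ring

end

end Pool.Agent.H774R2.QTS
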