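import Mathlib
import Pool.Agent.H774R2.QTS.Finite

/-!
# Choice of the parameters
-/

open Finset

namespace Pool.Agent.H774R2.QTS

namespace Param

lemma pow_ge_lin (t : ℕ) (ht : 10 ≤ t) : 93 * (t + 1) ≤ 2 ^ t := by
  induction t, ht using Nat.le_induction with
  | base => norm_num
  | succ t ht ih => rw [pow_succ]; omega

lemma pcongr {a b : ℕ} (h : a = b) : (2 : ℕ) ^ a = 2 ^ b := by rw [h]

lemma pcongrR {a b : ℕ} (h : a = b) : (2 : ℝ) ^ a = 2 ^ b := by rw [h]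

lemma lin_le_pow (x : ℕ) : 5 * x + 50 ≤ 2 ^ (x + 6) := by
  induction x with
  | zero => norm_num
  | succ x ih =>
    have : 2 ^ (x + 1 + 6) = 2 * 2 ^ (x + 6) := by ring
    omega

lemma sq_le_pow (n : ℕ) (hn : 64 ≤ n) : n ^ 2 ≤ 2 ^ (n / 4) := by
  have key : ∀ j, 16 ≤ j → (4 * j + 3) ^ 2 ≤ 2 ^ j := by
    intro j hj
    induction j, hj using Nat.le_induction with
    | base => norm_num
    | succ j hj ih =>
      rw [pow_succ 2 j]
      nlinarith
  have h1 := key (n / 4) (by omega)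
  refine le_trans ?_ h1
  apply Nat.pow_le_pow_left
  omega

lemma le_two_mul_div (n q : ℕ) (hq : 0 < q) (h : q ≤ n) : n ≤ 2 * q * (n / q) := by
  have h1 : n < q * (n / q) + q := by
    have := Nat.div_add_mod n q
    have := Nat.mod_lt n hq
    omega
  have h2 : 1 ≤ n / q := (Nat.one_le_div_iff hq).2 h
  have h3 : q * 1 ≤ q * (n / q) := Nat.mul_le_mul_left _ h2
  calc n ≤ q * (n / q) + q := h1.le
    _ ≤ q * (n / q) + q * (n / q) := by omega
    _ = _ := by ring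

/-- The sizes for a given `a`. -/
lemma sizes (n a0 a Γ τ K : ℕ) (hn : 1024 ≤ n) (h1 : 48 * τ + 144 ≤ a0) (h2 : 128 * a0 ≤ n)
    (ha : a0 ≤ a) (han : a ≤ n) (hΓ : 8192 * τ ≤ Γ)
    (hK : n ≤ K * a0) (hKτ : 32 * K ≤ 2 ^ (τ + 2)) :
    ∃ m t, 2 * m ≤ a ∧ 4 * n ≤ m * 2 ^ t ∧
      n ^ 2 * 2 ^ (2 * m * (3 * t + 3)) ≤ 2 ^ n ∧
      3 * t + 3 + 4 * τ * (a / Γ) + 2 * (a0 / 32) ≤ m := by
  have hex : ∃ t, 4 * n ≤ min (a / 2) (n / 256) * 2 ^ t := by
    refine ⟨4 * n, ?_⟩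
    calc 4 * n ≤ 2 ^ (4 * n) := Nat.lt_two_pow_self.le
      _ ≤ _ := Nat.le_mul_of_pos_left _ (by omega)
  set m := min (a / 2) (n / 256) with hm
  classical
  set t := Nat.find hex with ht
  have ht1 : 4 * n ≤ m * 2 ^ t := Nat.find_spec hex
  have hmn : m ≤ n / 256 := min_le_right _ _
  have ht10 : 10 ≤ t := by
    by_contra hcon
    have h3 : 2 ^ t ≤ 2 ^ 9 := Nat.pow_le_pow_right (by norm_num) (by omega)
    have h4 : m * 2 ^ t ≤ (n / 256) * 2 ^ 9 := Nat.mul_le_mul hmn h3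
    norm_num at h4
    omega
  have ht2 : m * 2 ^ t < 8 * n := by
    have h3 := Nat.find_min hex (show t - 1 < t by omega)
    rw [not_le] at h3
    have h4 : 2 ^ t = 2 * 2 ^ (t - 1) := by
      rw [← pow_succ']; exact pcongr (by omega)
    rw [h4]
    calc m * (2 * 2 ^ (t - 1)) = 2 * (m * 2 ^ (t - 1)) := by ring
      _ < 2 * (4 * n) := by omega
      _ = 8 * n := by ring
  have hma : a0 / 2 ≤ m := by
    rw [hm]
    omega
  -- t ≤ τ + 1
  have ht3 : t < τ + 2 := by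
    have h3 : a0 ≤ 4 * m := by omega
    have h4 : m * 2 ^ t < m * (32 * K) := by
      calc m * 2 ^ t < 8 * n := ht2
        _ ≤ 8 * (K * a0) := by omega
        _ ≤ 8 * (K * (4 * m)) := by
          apply Nat.mul_le_mul_left
          exact Nat.mul_le_mul_left _ h3
        _ = m * (32 * K) := by ring
    have h5 : 2 ^ t < 2 ^ (τ + 2) := lt_of_lt_of_le (Nat.lt_of_mul_lt_mul_left h4) hKτ
    exact (Nat.pow_lt_pow_iff_right (by norm_num)).1 h5
  refine ⟨m, t, by omega, ht1, ?_, ?_⟩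
  · have h3 := pow_ge_lin t ht10
    have h4 : m * (93 * (t + 1)) < 8 * n := lt_of_le_of_lt (Nat.mul_le_mul_left _ h3) ht2
    have h5 : 2 * m * (3 * t + 3) ≤ 3 * n / 4 := by
      have h6 : 2 * m * (3 * t + 3) = 6 * (m * (t + 1)) := by ring
      have h7 : m * (93 * (t + 1)) = 93 * (m * (t + 1)) := by ring
      rw [h6]
      rw [h7] at h4
      omega
    calc n ^ 2 * 2 ^ (2 * m * (3 * t + 3)) ≤ 2 ^ (n / 4) * 2 ^ (3 * n / 4) := by
          apply Nat.mul_le_mul (sq_le_pow n (by omega))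
          exact Nat.pow_le_pow_right (by norm_num) h5
      _ = 2 ^ (n / 4 + 3 * n / 4) := by rw [pow_add]
      _ ≤ 2 ^ n := Nat.pow_le_pow_right (by norm_num) (by omega)
  · have h3 : 8192 * (τ * (a / Γ)) ≤ a := by
      calc 8192 * (τ * (a / Γ)) = 8192 * τ * (a / Γ) := by ring
        _ ≤ Γ * (a / Γ) := Nat.mul_le_mul_right _ hΓ
        _ ≤ a := Nat.mul_div_le a Γ
    have h4 : 4 * τ * (a / Γ) = 4 * (τ * (a / Γ)) := by ring
    rw [h4]
    omega

lemma step1 (D S Z k n κ ν : ℕ) (hD : D ≤ 2 ^ S) (hk : k ≤ 2 ^ κ) (hn : n + 1 ≤ 2 ^ ν) :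
    4 * (k : ℝ) * (n + 1 : ℕ) * (D : ℝ) ^ Z ≤ 2 ^ (κ + ν + 2 + S * Z) := by
  have hDZ : (D : ℝ) ^ Z ≤ (2 ^ S) ^ Z := by
    apply pow_le_pow_left₀ (by positivity)
    exact_mod_cast hD
  rw [← pow_mul] at hDZ
  set A : ℝ := 2 ^ (S * Z) with hA
  set B : ℝ := 2 ^ κ with hB
  set C : ℝ := 2 ^ ν with hC
  have a1 : (1 : ℝ) ≤ B := one_le_pow₀ (by norm_num)
  have a2 : (1 : ℝ) ≤ C := one_le_pow₀ (by norm_num)
  have a3 : (1 : ℝ) ≤ A := one_le_pow₀ (by norm_num)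
  have e1 : ((n + 1 : ℕ) : ℝ) ≤ C := by rw [hC]; exact_mod_cast hn
  have e2 : (k : ℝ) ≤ B := by rw [hB]; exact_mod_cast hk
  have b0 : (1 : ℝ) ≤ B * C := by nlinarith
  have b00 : (1 : ℝ) ≤ B * C * A := by nlinarith
  have b1 : (k : ℝ) * (n + 1 : ℕ) ≤ B * C :=
    mul_le_mul e2 e1 (by positivity) (by positivity)
  have b2 : (k : ℝ) * (n + 1 : ℕ) * (D : ℝ) ^ Z ≤ B * C * A :=
    mul_le_mul b1 hDZ (by positivity) (by positivity)
  have e5 : (2 : ℝ) ^ (κ + ν + 2 + S * Z) = 4 * (B * C * A) := by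
    rw [pow_add, pow_add, pow_add, ← hA, ← hB, ← hC]
    ring
  rw [e5]
  have e6 : (4 : ℝ) * k * (n + 1 : ℕ) * (D : ℝ) ^ Z = 4 * (k * (n + 1 : ℕ) * (D : ℝ) ^ Z) := by ring
  rw [e6]
  linarith

lemma step2 (H h E W S : ℕ) (δ : ℝ) (hδ : 0 < δ) (hH : 2 / δ ≤ H) (hHh : H ≤ 2 ^ h) (hH1 : 1 ≤ H)
    (B : ℝ) (hB : B ≤ 2 ^ W)
    (key : (2 * δ - 1 / (H : ℝ)) * (1 / 2) ^ S ≤ (1 / 2) ^ E * B) : E ≤ h + W + S := by
  have hHr : (0 : ℝ) < H := by exact_mod_cast hH1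
  have hδH : 2 / (H : ℝ) ≤ δ := by
    rw [div_le_iff₀ hHr]
    rw [div_le_iff₀ hδ] at hH
    linarith
  have k1 : 1 / (H : ℝ) ≤ 2 * δ - 1 / H := by
    have : 2 / (H : ℝ) = 1 / H + 1 / H := by ring
    linarith
  have e1 : (H : ℝ) ≤ 2 ^ h := by exact_mod_cast hHh
  have e2 : 1 / (H : ℝ) * (1 / 2) ^ S ≤ (1 / 2) ^ E * 2 ^ W := by
    refine (mul_le_mul_of_nonneg_right k1 (by positivity)).trans (key.trans ?_)
    exact mul_le_mul_of_nonneg_left hB (by positivity)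
  have e6 : (2 : ℝ) ^ S * (1 / 2) ^ S = 1 := by
    rw [← mul_pow]; norm_num
  have e3 : (1 : ℝ) ≤ (1 / 2) ^ E * 2 ^ W * H * 2 ^ S := by
    have h1 : (1 : ℝ) = (1 / (H : ℝ) * (1 / 2) ^ S) * (H * 2 ^ S) := by
      have : (1 / (H : ℝ) * (1 / 2) ^ S) * (H * 2 ^ S) =
          (1 / (H : ℝ) * H) * (2 ^ S * (1 / 2) ^ S) := by ring
      rw [this, e6, mul_one, one_div, inv_mul_cancel₀ hHr.ne']
    calc (1 : ℝ) = (1 / (H : ℝ) * (1 / 2) ^ S) * (H * 2 ^ S) := h1
      _ ≤ ((1 / 2) ^ E * 2 ^ W) * (H * 2 ^ S) := mul_le_mul_of_nonneg_right e2 (by positivity)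
      _ = _ := by ring
  have e4 : (1 : ℝ) ≤ (1 / 2) ^ E * 2 ^ W * 2 ^ h * 2 ^ S := by
    refine e3.trans ?_
    apply mul_le_mul_of_nonneg_right _ (by positivity)
    exact mul_le_mul_of_nonneg_left e1 (by positivity)
  have e5 : (2 : ℝ) ^ E * (1 / 2) ^ E = 1 := by
    rw [← mul_pow]; norm_num
  have k3 : (2 : ℝ) ^ E ≤ 2 ^ (h + W + S) := by
    calc (2 : ℝ) ^ E = 2 ^ E * 1 := by ring
      _ ≤ 2 ^ E * ((1 / 2) ^ E * 2 ^ W * 2 ^ h * 2 ^ S) :=
        mul_le_mul_of_nonneg_left e4 (by positivity)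
      _ = (2 ^ E * (1 / 2) ^ E) * (2 ^ h * 2 ^ W * 2 ^ S) := by ring
      _ = _ := by rw [e5, one_mul, pow_add, pow_add]
  have : (2 : ℕ) ^ E ≤ 2 ^ (h + W + S) := by exact_mod_cast k3
  exact (Nat.pow_le_pow_iff_right (by norm_num)).1 this

lemma sq_log (n : ℕ) (hn : 1024 ≤ n) : (Nat.log 2 n + 1) ^ 2 ≤ 2 * n := by
  have hlog : 2 ^ (Nat.log 2 n) ≤ n := Nat.pow_log_le_self 2 (by omega)
  have h10 : 10 ≤ Nat.log 2 n := by
    calc 10 = Nat.log 2 1024 := by norm_num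
      _ ≤ _ := Nat.log_mono_right hn
  have h6 : ∀ j : ℕ, 10 ≤ j → (j + 1) ^ 2 ≤ 2 * 2 ^ j := by
    intro j hj
    induction j, hj using Nat.le_induction with
    | base => norm_num
    | succ j hj ih => rw [pow_succ 2 j]; nlinarith
  calc _ ≤ 2 * 2 ^ (Nat.log 2 n) := h6 _ h10
    _ ≤ 2 * n := Nat.mul_le_mul_left _ hlog

lemma step3 (n M k H S r d h κ a0 : ℕ) (hn : 1024 ≤ n) (hk : 1 ≤ k) (hH : 1 ≤ H) (hS : 1 ≤ S)
    (hM1 : 1 ≤ M) (hkH : k ^ 4 * H ≤ M) (hk2M : k ^ 2 ≤ M) (K : ℕ) (hKdef : K = 2097152)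
    (hc' : K * (S * M ^ 3) ≤ n)
    (hnM3 : K * M ^ 3 ≤ n) (hd1 : 1 ≤ d)
    (hna0 : n ≤ 16 * k * M * a0) (hnd : n ≤ 400 * H * k ^ 2 * M * d)
    (hr2 : r * d ≤ k * n) (hM4 : h + κ + 4 ≤ M)
    (k4 : a0 / 32 ≤ h + (κ + (Nat.log 2 n + 1) + 2 + S * (2 * (r + 1))) + S) : False := by
  set ν := Nat.log 2 n + 1 with hν
  set Z := 2 * (r + 1) with hZ
  have k5 : r ≤ 400 * H * k ^ 3 * M := by
    have h1 : r * d ≤ 400 * H * k ^ 3 * M * d := by
      calc r * d ≤ k * n := hr2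
        _ ≤ k * (400 * H * k ^ 2 * M * d) := Nat.mul_le_mul_left _ hnd
        _ = _ := by ring
    exact Nat.le_of_mul_le_mul_right h1 hd1
  set W := S * H * k ^ 3 * M with hW
  have hk0 : 0 < k := hk
  have hH0 : 0 < H := hH
  have hHk3 : 1 ≤ H * k ^ 3 := Nat.one_le_iff_ne_zero.2 (by positivity)
  have hWM : M ≤ W := by
    calc M = 1 * 1 * M := by ring
      _ ≤ S * (H * k ^ 3) * M := by
        apply Nat.mul_le_mul_right
        exact Nat.mul_le_mul hS hHk3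
      _ = W := by rw [hW]; ring
  have hWS : S ≤ W := by
    calc S = S * 1 * 1 := by ring
      _ ≤ S * (H * k ^ 3) * M := by
        apply Nat.mul_le_mul _ hM1
        exact Nat.mul_le_mul_left _ hHk3
      _ = W := by rw [hW]; ring
  have k7 : S * Z + S ≤ 804 * W := by
    calc S * Z + S = 2 * (S * r) + 3 * S := by rw [hZ]; ring
      _ ≤ 2 * (S * (400 * H * k ^ 3 * M)) + 3 * W := by
        apply Nat.add_le_add
        · apply Nat.mul_le_mul_left
          exact Nat.mul_le_mul_left _ k5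
        · exact Nat.mul_le_mul_left _ hWS
      _ = 803 * W := by rw [hW]; ring
      _ ≤ 804 * W := Nat.mul_le_mul_right _ (by norm_num)
  have k8 : a0 ≤ 32 * (805 * W + ν) := by
    have := Nat.div_add_mod a0 32
    have := Nat.mod_lt a0 (show 0 < 32 by norm_num)
    omega
  have k9 : n ≤ 16 * k * M * (32 * (805 * W + ν)) := hna0.trans (Nat.mul_le_mul_left _ k8)
  have k10 : 16 * k * M * (32 * (805 * W)) * 5 ≤ n := by
    calc 16 * k * M * (32 * (805 * W)) * 5 = 2060800 * (S * (k ^ 4 * H) * M ^ 2) := by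
          rw [hW]; ring
      _ ≤ K * (S * M * M ^ 2) := by
          apply Nat.mul_le_mul (by rw [hKdef]; norm_num)
          apply Nat.mul_le_mul_right
          exact Nat.mul_le_mul_left _ hkH
      _ = K * (S * M ^ 3) := by ring
      _ ≤ n := hc'
  have k11 : (512 * (k * M) * ν) ^ 2 * 4 ≤ n ^ 2 := by
    have e1 : (k * M) ^ 2 * K ≤ n := by
      calc (k * M) ^ 2 * K = K * (k ^ 2 * M ^ 2) := by ring
        _ ≤ K * (M * M ^ 2) := by
          apply Nat.mul_le_mul_left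
          exact Nat.mul_le_mul_right _ hk2M
        _ = K * M ^ 3 := by ring
        _ ≤ n := hnM3
    have e2 : ν ^ 2 ≤ 2 * n := sq_log n hn
    calc (512 * (k * M) * ν) ^ 2 * 4 = 1048576 * (k * M) ^ 2 * ν ^ 2 := by ring
      _ ≤ 1048576 * (k * M) ^ 2 * (2 * n) := Nat.mul_le_mul_left _ e2
      _ = ((k * M) ^ 2 * K) * n := by rw [hKdef]; ring
      _ ≤ n * n := Nat.mul_le_mul_right _ e1
      _ = n ^ 2 := by ring
  have k12 : 512 * (k * M) * ν * 2 ≤ n := by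
    have : (512 * (k * M) * ν * 2) ^ 2 ≤ n ^ 2 := by
      calc _ = (512 * (k * M) * ν) ^ 2 * 4 := by ring
        _ ≤ _ := k11
    exact (Nat.pow_le_pow_iff_left (by norm_num)).1 this
  have k13 : 16 * k * M * (32 * (805 * W + ν)) =
      16 * k * M * (32 * (805 * W)) + 512 * (k * M) * ν := by ring
  rw [k13] at k9
  omega

/-- The finite contradiction. -/
theorem contra {N D T S : ℕ} (Q : Machine N D T) (hQ : Q.Valid) (δ : ℝ) (hδ : 0 < δ)
    (hf : Q.Computes S δ (fun x => quadFun (List.ofFn x)))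
    (H h k κ : ℕ) (hH : 2 / δ ≤ H) (hHh : H ≤ 2 ^ h) (hk : 1 ≤ k) (hkκ : k ≤ 2 ^ κ)
    (hD : D ≤ 2 ^ S) (hS : 1 ≤ S) (hn : 1024 ≤ N / 3)
    (hT : T + N + N / 3 ≤ k * (N / 3))
    (hc : S * 2 ^ (21 + 3 * (2 * k * (12 * k * H + 1) * (5 * (κ + h) + 50))) ≤ N / 3) : False := by
  set n := N / 3 with hn'
  set μ := 2 * k * (12 * k * H + 1) * (5 * (κ + h) + 50) with hμ
  set M := 2 ^ μ with hM
  have hHpos : 1 ≤ H := by
    have h1 : (0 : ℝ) < H := lt_of_lt_of_le (by positivity) hH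
    exact_mod_cast h1
  have hM1 : 1 ≤ M := Nat.one_le_two_pow
  have hx : 5 * (κ + h) + 50 ≤ μ := by
    rw [hμ]
    have : 1 ≤ 2 * k * (12 * k * H + 1) := Nat.one_le_iff_ne_zero.2 (by positivity)
    exact Nat.le_mul_of_pos_left _ this
  have hc' : 2 ^ 21 * (S * M ^ 3) ≤ n := by
    calc 2 ^ 21 * (S * M ^ 3) = S * 2 ^ (21 + 3 * μ) := by
          rw [hM, pow_add, ← pow_mul, mul_comm 3 μ]; ring
      _ ≤ n := hc
  -- consequences of k, H being small compared to M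
  have hkH : k ^ 4 * H ≤ M := by
    calc k ^ 4 * H ≤ (2 ^ κ) ^ 4 * 2 ^ h := Nat.mul_le_mul (Nat.pow_le_pow_left hkκ 4) hHh
      _ = 2 ^ (4 * κ + h) := by rw [pow_add, ← pow_mul, mul_comm κ 4]
      _ ≤ M := Nat.pow_le_pow_right (by norm_num) (by omega)
  have hkM : k ≤ M := by
    calc k = k * 1 * 1 := by ring
      _ ≤ k * k ^ 3 * H := by
        apply Nat.mul_le_mul _ hHpos
        exact Nat.mul_le_mul_left _ (Nat.one_le_pow _ _ hk)
      _ = k ^ 4 * H := by ring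
      _ ≤ M := hkH
  have hk2M : k ^ 2 ≤ M := by
    calc k ^ 2 = k ^ 2 * 1 * 1 := by ring
      _ ≤ k ^ 2 * k ^ 2 * H := by
        apply Nat.mul_le_mul _ hHpos
        exact Nat.mul_le_mul_left _ (Nat.one_le_pow _ _ hk)
      _ = k ^ 4 * H := by ring
      _ ≤ M := hkH
  have hHk2 : H * k ^ 2 ≤ M := by
    calc H * k ^ 2 = k ^ 2 * 1 * H := by ring
      _ ≤ k ^ 2 * k ^ 2 * H := by
        apply Nat.mul_le_mul_right
        exact Nat.mul_le_mul_left _ (Nat.one_le_pow _ _ hk)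
      _ = k ^ 4 * H := by ring
      _ ≤ M := hkH
  have hM2 : M ≤ M ^ 2 := by nlinarith
  have hM3 : M ^ 2 ≤ M ^ 3 := by nlinarith [sq_nonneg M]
  have hnM3 : 2 ^ 21 * M ^ 3 ≤ n := by
    refine le_trans ?_ hc'
    apply Nat.mul_le_mul_left
    exact Nat.le_mul_of_pos_left _ hS
  -- parameters
  set γ := 4 * (κ + h) + 40 with hγ
  set Γ := 2 ^ γ with hΓdef
  set ρ := 5 * (κ + h) + 50 with hρ
  set R := 2 ^ ρ with hRdef
  set L := 12 * k * H with hL
  have hRM : (R ^ (L + 1)) ^ (2 * k) = M := by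
    have e : ρ * ((L + 1) * (2 * k)) = μ := by rw [hμ]; ring
    rw [hRdef, hM, ← pow_mul, ← pow_mul]
    exact pcongr e
  set τ := μ + γ + κ + 7 with hτ
  set a0 := n / (8 * k * M) with ha0
  set d := n / (200 * H * k ^ 2 * M) with hd
  -- size of a0 and d
  have hq1 : 8 * k * M ≤ n := by
    calc 8 * k * M ≤ 8 * M * M := by
          apply Nat.mul_le_mul_right
          exact Nat.mul_le_mul_left _ hkM
      _ = 8 * M ^ 2 := by ring
      _ ≤ 2 ^ 21 * M ^ 3 := by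
        apply Nat.mul_le_mul _ hM3
        norm_num
      _ ≤ n := hnM3
  have hq2 : 200 * H * k ^ 2 * M ≤ n := by
    calc 200 * H * k ^ 2 * M = 200 * (H * k ^ 2) * M := by ring
      _ ≤ 200 * M * M := by
          apply Nat.mul_le_mul_right
          exact Nat.mul_le_mul_left _ hHk2
      _ = 200 * M ^ 2 := by ring
      _ ≤ 2 ^ 21 * M ^ 3 := by
        apply Nat.mul_le_mul _ hM3
        norm_num
      _ ≤ n := hnM3
  have hk0 : 0 < k := hk
  have hM0 : 0 < M := hM1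
  have hH0 : 0 < H := hHpos
  have hna0 : n ≤ 16 * k * M * a0 := by
    have := le_two_mul_div n (8 * k * M) (by positivity) hq1
    calc n ≤ 2 * (8 * k * M) * (n / (8 * k * M)) := this
      _ = 16 * k * M * a0 := by rw [ha0]; ring
  have hnd : n ≤ 400 * H * k ^ 2 * M * d := by
    have := le_two_mul_div n (200 * H * k ^ 2 * M) (by positivity) hq2
    calc n ≤ 2 * (200 * H * k ^ 2 * M) * (n / (200 * H * k ^ 2 * M)) := this
      _ = 400 * H * k ^ 2 * M * d := by rw [hd]; ring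
  have hd1 : 1 ≤ d := (Nat.one_le_div_iff (by positivity)).2 hq2
  have ha0n : 8 * k * a0 * M ≤ n := by
    calc 8 * k * a0 * M = 8 * k * M * (n / (8 * k * M)) := by rw [ha0]; ring
      _ ≤ n := Nat.mul_div_le _ _
  have hdn : 200 * H * k ^ 2 * d * M ≤ n := by
    calc 200 * H * k ^ 2 * d * M = 200 * H * k ^ 2 * M * (n / (200 * H * k ^ 2 * M)) := by
          rw [hd]; ring
      _ ≤ n := Nat.mul_div_le _ _
  -- γ, τ
  have hτΓ : 8192 * τ ≤ Γ := by
    have e1 : μ ≤ 26 * (2 ^ (2 * (κ + h)) * (5 * (κ + h) + 50)) := by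
      rw [hμ]
      have e2 : 2 * k * (12 * k * H + 1) ≤ 26 * 2 ^ (2 * (κ + h)) := by
        calc 2 * k * (12 * k * H + 1) = 24 * (k * k * H) + 2 * k := by ring
          _ ≤ 24 * (k * k * H) + 2 * (k * k * H) := by
            apply Nat.add_le_add_left
            apply Nat.mul_le_mul_left
            calc k = k * 1 * 1 := by ring
              _ ≤ k * k * H := Nat.mul_le_mul (Nat.mul_le_mul_left _ hk) hHpos
          _ = 26 * (k * k * H) := by ring
          _ ≤ 26 * (2 ^ κ * 2 ^ κ * 2 ^ h) := by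
            apply Nat.mul_le_mul_left
            exact Nat.mul_le_mul (Nat.mul_le_mul hkκ hkκ) hHh
          _ = 26 * 2 ^ (2 * κ + h) := by
            rw [← pow_add, ← pow_add, pcongr (show κ + κ + h = 2 * κ + h by omega)]
          _ ≤ 26 * 2 ^ (2 * (κ + h)) := by
            apply Nat.mul_le_mul_left
            exact Nat.pow_le_pow_right (by norm_num) (by omega)
      calc _ ≤ 26 * 2 ^ (2 * (κ + h)) * (5 * (κ + h) + 50) := Nat.mul_le_mul_right _ e2
        _ = _ := by ring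
    have e3 : τ ≤ 27 * (2 ^ (2 * (κ + h)) * (5 * (κ + h) + 50)) := by
      have e4 : γ + κ + 7 ≤ 2 ^ (2 * (κ + h)) * (5 * (κ + h) + 50) := by
        calc γ + κ + 7 ≤ 1 * (5 * (κ + h) + 50) := by rw [hγ]; omega
          _ ≤ _ := Nat.mul_le_mul_right _ Nat.one_le_two_pow
      rw [hτ]
      omega
    have e5 := lin_le_pow (κ + h)
    calc 8192 * τ ≤ 8192 * (27 * (2 ^ (2 * (κ + h)) * (5 * (κ + h) + 50))) :=
          Nat.mul_le_mul_left _ e3
      _ ≤ 8192 * (32 * (2 ^ (2 * (κ + h)) * 2 ^ (κ + h + 6))) := by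
          apply Nat.mul_le_mul_left
          apply Nat.mul_le_mul (by norm_num)
          exact Nat.mul_le_mul_left _ e5
      _ = 2 ^ (24 + 3 * (κ + h)) := by
          rw [show (8192 : ℕ) = 2 ^ 13 by norm_num, show (32 : ℕ) = 2 ^ 5 by norm_num,
            ← pow_add, ← pow_add, ← pow_add]
          exact pcongr (by omega)
      _ ≤ Γ := Nat.pow_le_pow_right (by norm_num) (by omega)
  have hΓM : Γ ≤ M := Nat.pow_le_pow_right (by norm_num) (by omega)
  have hτM : 8192 * τ ≤ M := hτΓ.trans hΓM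
  have ha0M : 2 ^ 17 * M ≤ a0 := by
    have h1 : 16 * M ^ 2 * (2 ^ 17 * M) ≤ 16 * M ^ 2 * a0 := by
      calc 16 * M ^ 2 * (2 ^ 17 * M) = 2 ^ 21 * M ^ 3 := by ring
        _ ≤ n := hnM3
        _ ≤ 16 * k * M * a0 := hna0
        _ ≤ 16 * M * M * a0 := by
          apply Nat.mul_le_mul_right
          apply Nat.mul_le_mul_right
          exact Nat.mul_le_mul_left _ hkM
        _ = _ := by ring
    exact Nat.le_of_mul_le_mul_left h1 (by positivity)
  have hM16 : 2 ^ 16 ≤ M := Nat.pow_le_pow_right (by norm_num) (by omega)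
  have ha128 : 128 * a0 ≤ n := by
    calc 128 * a0 = 8 * 1 * a0 * 16 := by ring
      _ ≤ 8 * k * a0 * M := by
        apply Nat.mul_le_mul _ (by omega)
        apply Nat.mul_le_mul_right
        exact Nat.mul_le_mul_left _ hk
      _ ≤ n := ha0n
  have hτ2 : 16 * k * M ≤ 2 ^ (τ - 3) := by
    calc 16 * k * M ≤ 2 ^ 4 * 2 ^ κ * 2 ^ μ := by
          apply Nat.mul_le_mul_right
          exact Nat.mul_le_mul (by norm_num) hkκ
      _ = 2 ^ (4 + κ + μ) := by rw [pow_add, pow_add]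
      _ ≤ _ := Nat.pow_le_pow_right (by norm_num) (by omega)
  -- r
  set r := (T + N) / d + 1 with hr
  have hr1 : T + N ≤ r * d := by
    have := Nat.lt_mul_div_succ (T + N) hd1
    rw [hr]
    calc T + N ≤ d * ((T + N) / d + 1) := this.le
      _ = _ := by ring
  have hdn' : d ≤ n := Nat.div_le_self _ _
  have hr2 : r * d ≤ k * n := by
    have h1 : (T + N) / d * d ≤ T + N := Nat.div_mul_le_self _ _
    calc r * d = (T + N) / d * d + d := by rw [hr]; ring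
      _ ≤ T + N + n := by omega
      _ ≤ k * n := hT
  have hδH : 1 / (H : ℝ) ≤ 2 * δ := by
    have hHr : (0 : ℝ) < H := by exact_mod_cast hHpos
    rw [div_le_iff₀ hHr]
    rw [div_le_iff₀ hδ] at hH
    linarith
  have key := finite_main Q hQ S δ hf (show 1 ≤ N / 3 by omega) τ (a0 / 32) Γ a0 k d r H R L
    (by
      calc 8 * Γ * n ≤ 8 * Γ * (16 * k * M * a0) := Nat.mul_le_mul_left _ hna0
        _ = a0 * (2 ^ 7 * (Γ * (k * M))) := by ring
        _ ≤ a0 * (2 ^ 7 * (2 ^ γ * (2 ^ κ * 2 ^ μ))) := by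
          apply Nat.mul_le_mul_left
          apply Nat.mul_le_mul_left
          apply Nat.mul_le_mul_left
          exact Nat.mul_le_mul_right _ hkκ
        _ = a0 * 2 ^ τ := by
          rw [← pow_add, ← pow_add, ← pow_add]
          rw [pcongr (show 7 + (γ + (κ + μ)) = τ by omega)])
    (fun a h1 h2 => sizes n a0 a Γ τ (16 * k * M) hn (by omega) ha128 h1 h2 hτΓ hna0 (by
      calc 32 * (16 * k * M) ≤ 32 * 2 ^ (τ - 3) := Nat.mul_le_mul_left _ hτ2
        _ = 2 ^ (τ + 2) := by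
          rw [show (32 : ℕ) = 2 ^ 5 by norm_num, ← pow_add]
          exact pcongr (by omega)))
    (by omega) hr1 hr2 hk hHpos (by omega) le_rfl
    (by
      calc 200 * Γ * H * (2 * k + 1) ≤ 200 * Γ * 2 ^ h * (3 * 2 ^ κ) := by
            apply Nat.mul_le_mul
            · exact Nat.mul_le_mul_left _ hHh
            · omega
        _ = 600 * (Γ * 2 ^ h * 2 ^ κ) := by ring
        _ ≤ 2 ^ 10 * (2 ^ γ * 2 ^ h * 2 ^ κ) := Nat.mul_le_mul_right _ (by norm_num)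
        _ = R := by
          rw [← pow_add, ← pow_add, ← pow_add]
          exact pcongr (by omega))
    (by rw [hRM]; exact hdn) (by rw [hRM]; exact ha0n) hδH
  -- the final contradiction
  have hν1 : n + 1 ≤ 2 ^ (Nat.log 2 n + 1) := Nat.lt_pow_succ_log_self (by norm_num) n
  have k2 := step1 D S (2 * (r + 1)) k n κ (Nat.log 2 n + 1) hD hkκ hν1
  have k4 := step2 H h (a0 / 32) _ S δ hδ hH hHh hHpos _ k2 key
  exact step3 n M k H S r d h κ a0 hn hk hHpos hS hM1 hkH hk2M (2 ^ 21) (by norm_num) hc' hnM3 hd1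
    hna0 hnd hr2 (by omega) k4

end Param

end Pool.Agent.H774R2.QTS
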