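import Mathlib
import Pool.Agent.H774R2.QTS.Param

/-!
# The asymptotic form
-/

open Finset

namespace Pool.Agent.H774R2.QTS

namespace Asym

lemma clog_le (k : ℕ) (hk : 1 ≤ k) : (Nat.clog 2 k : ℝ) ≤ 2 * Real.log k + 1 := by
  rcases Nat.lt_or_ge k 2 with h | h
  · have : k = 1 := by omega
    subst this
    simp
  · have h1 : 2 ^ (Nat.clog 2 k - 1) < k := Nat.pow_pred_clog_lt_self (by norm_num) h
    have h2 : 1 ≤ Nat.clog 2 k := Nat.clog_pos (by norm_num) h
    have h3 : ((Nat.clog 2 k - 1 : ℕ) : ℝ) * Real.log 2 ≤ Real.log k := by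
      rw [← Real.log_pow]
      apply Real.log_le_log (by positivity)
      exact_mod_cast h1.le
    have h4 := Real.log_two_gt_d9
    have h5 : 0 ≤ Real.log k := Real.log_natCast_nonneg k
    rw [Nat.cast_sub h2] at h3
    push_cast at h3
    set x : ℝ := (Nat.clog 2 k : ℝ)
    have hx : 1 ≤ x := by
      have : (1 : ℝ) ≤ (Nat.clog 2 k : ℝ) := by exact_mod_cast h2
      exact this
    nlinarith

/-- The exponent. -/
def psi (H h k : ℕ) : ℕ := 21 + 3 * (2 * k * (12 * k * H + 1) * (5 * (Nat.clog 2 k + h) + 50))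

lemma psi_le (H h k : ℕ) (hH : 1 ≤ H) (hk : 1 ≤ k) :
    (psi H h k : ℝ) ≤ (21 + 78 * H * (55 + 5 * h)) * (k ^ 2 * (Real.log k + 1)) := by
  unfold psi
  push_cast
  have h1 := clog_le k hk
  have hk' : (1 : ℝ) ≤ k := by exact_mod_cast hk
  have hH' : (1 : ℝ) ≤ H := by exact_mod_cast hH
  have hh : (0 : ℝ) ≤ h := Nat.cast_nonneg h
  have h5 : 0 ≤ Real.log k := Real.log_natCast_nonneg k
  set ℓ := Real.log k with hℓ
  set κ : ℝ := (Nat.clog 2 k : ℝ) with hκ
  have e1 : (12 : ℝ) * k * H + 1 ≤ 13 * (k * H) := by nlinarith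
  have e2 : (5 : ℝ) * (κ + h) + 50 ≤ (55 + 5 * h) * (ℓ + 1) := by nlinarith
  have e3 : (2 : ℝ) * k * (12 * k * H + 1) ≤ 26 * (k ^ 2 * H) := by
    calc (2 : ℝ) * k * (12 * k * H + 1) ≤ 2 * k * (13 * (k * H)) :=
          mul_le_mul_of_nonneg_left e1 (by positivity)
      _ = _ := by ring
  have e4 : (2 : ℝ) * k * (12 * k * H + 1) * (5 * (κ + h) + 50) ≤
      26 * (k ^ 2 * H) * ((55 + 5 * h) * (ℓ + 1)) := by
    apply mul_le_mul e3 e2 _ (by positivity)
    have : 0 ≤ κ := Nat.cast_nonneg _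
    positivity
  have e5 : (1 : ℝ) ≤ k ^ 2 * (ℓ + 1) := by
    have : (1 : ℝ) ≤ (k : ℝ) ^ 2 := one_le_pow₀ hk'
    nlinarith
  calc (21 : ℝ) + 3 * (2 * k * (12 * k * H + 1) * (5 * (κ + h) + 50))
      ≤ 21 * (k ^ 2 * (ℓ + 1)) + 3 * (26 * (k ^ 2 * H) * ((55 + 5 * h) * (ℓ + 1))) := by linarith
    _ = _ := by ring

theorem asym (δ : ℝ) (hδ : 0 < δ) : ∃ c : ℝ, 0 < c ∧
    ∀ (N D T S : ℕ) (Q : Machine N D T), 1 ≤ S → (S : ℝ) ≤ c * N → D ≤ 2 ^ S → Q.Valid →
      Q.Computes S δ (fun x => quadFun (List.ofFn x)) →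
      c * N * Real.sqrt (Real.log (N / S) / Real.log (Real.log (N / S))) ≤ T := by
  set H := ⌈2 / δ⌉₊ with hH
  have hH1 : 1 ≤ H := by
    rw [hH, Nat.one_le_ceil_iff]; positivity
  have hHδ : 2 / δ ≤ H := Nat.le_ceil _
  have hHh : H ≤ 2 ^ H := Nat.lt_two_pow_self.le
  set C0 : ℝ := 21 + 78 * H * (55 + 5 * H) with hC0
  have hC0pos : 1 ≤ C0 := by
    have : (0 : ℝ) ≤ H := Nat.cast_nonneg H
    rw [hC0]; nlinarith
  set c1 : ℝ := 1 / (3 * C0) with hc1
  have hc1pos : 0 < c1 := by positivity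
  have hc11 : c1 ≤ 1 := by
    rw [hc1, div_le_one (by positivity)]; linarith
  have hc12 : c1 ^ 2 * (3 * C0) ≤ 1 := by
    have : c1 * (3 * C0) = 1 := by rw [hc1]; field_simp
    calc c1 ^ 2 * (3 * C0) = c1 * (c1 * (3 * C0)) := by ring
      _ = c1 := by rw [this, mul_one]
      _ ≤ 1 := hc11
  set Z0 : ℝ := max 9 ((288 / c1 ^ 2) ^ 2) with hZ0
  have hZ9 : 9 ≤ Z0 := le_max_left _ _
  have hZ2 : (288 / c1 ^ 2) ^ 2 ≤ Z0 := le_max_right _ _
  refine ⟨min (c1 / 8) (Real.exp (-Z0)), lt_min (by positivity) (Real.exp_pos _), ?_⟩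
  set c : ℝ := min (c1 / 8) (Real.exp (-Z0)) with hc
  have hcpos : 0 < c := lt_min (by positivity) (Real.exp_pos _)
  intro N D T S Q hS hSc hD hQ hf
  have hS' : (1 : ℝ) ≤ S := by exact_mod_cast hS
  have hSpos : (0 : ℝ) < S := by linarith
  set y : ℝ := (N : ℝ) / S with hy
  have hcexp : c ≤ Real.exp (-Z0) := min_le_right _ _
  have hyc : Real.exp Z0 ≤ y := by
    rw [hy, le_div_iff₀ hSpos]
    have h1 : Real.exp Z0 * S ≤ Real.exp Z0 * (Real.exp (-Z0) * N) := by
      apply mul_le_mul_of_nonneg_left _ (Real.exp_pos _).le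
      refine hSc.trans ?_
      exact mul_le_mul_of_nonneg_right hcexp (Nat.cast_nonneg N)
    calc Real.exp Z0 * S ≤ Real.exp Z0 * (Real.exp (-Z0) * N) := h1
      _ = (Real.exp Z0 * Real.exp (-Z0)) * N := by ring
      _ = N := by rw [← Real.exp_add]; simp
  have hypos : 0 < y := lt_of_lt_of_le (Real.exp_pos _) hyc
  have hyN : y ≤ N := by
    rw [hy]
    exact div_le_self (Nat.cast_nonneg N) hS'
  set z : ℝ := Real.log y with hz
  have hzZ : Z0 ≤ z := by
    rw [hz, ← Real.log_exp Z0]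
    exact Real.log_le_log (Real.exp_pos _) hyc
  have hz9 : 9 ≤ z := hZ9.trans hzZ
  have hyz : y = Real.exp z := by rw [hz, Real.exp_log hypos]
  set w : ℝ := Real.log z with hw
  have hw1 : 1 ≤ w := by
    rw [hw, Real.le_log_iff_exp_le (by linarith)]
    have := Real.exp_one_lt_d9
    linarith
  have hwz : w ≤ 2 * Real.sqrt z := by
    have h1 : w = 2 * Real.log (Real.sqrt z) := by
      rw [hw, Real.log_sqrt (by linarith)]; ring
    rw [h1]
    have h2 := Real.log_le_sub_one_of_pos (show 0 < Real.sqrt z by positivity)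
    linarith
  set g : ℝ := Real.sqrt (z / w) with hg
  have hwpos : 0 < w := by linarith
  have hzpos : 0 < z := by linarith
  have hg2 : g ^ 2 = z / w := Real.sq_sqrt (by positivity)
  have hg0 : 0 ≤ g := Real.sqrt_nonneg _
  -- c1 g ≥ 12
  have hcg : 12 ≤ c1 * g := by
    have h1 : 144 ≤ (c1 * g) ^ 2 := by
      rw [mul_pow, hg2]
      have h2 : 288 / c1 ^ 2 ≤ Real.sqrt z := by
        apply Real.le_sqrt_of_sq_le
        exact hZ2.trans hzZ
      have h3 : Real.sqrt z / 2 ≤ z / w := by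
        rw [div_le_div_iff₀ (by norm_num) hwpos]
        have h4 : Real.sqrt z * Real.sqrt z = z := Real.mul_self_sqrt hzpos.le
        nlinarith [Real.sqrt_nonneg z]
      have h5 : 288 ≤ c1 ^ 2 * Real.sqrt z := by
        rw [div_le_iff₀ (by positivity)] at h2
        linarith
      have h6 : c1 ^ 2 * (Real.sqrt z / 2) ≤ c1 ^ 2 * (z / w) :=
        mul_le_mul_of_nonneg_left h3 (by positivity)
      linarith
    nlinarith [mul_nonneg hc1pos.le hg0]
  -- the parameter k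
  set k := ⌊c1 * g⌋₊ with hk
  have hkle : (k : ℝ) ≤ c1 * g := Nat.floor_le (by positivity)
  have hkge : c1 * g - 1 ≤ k := by
    have := Nat.lt_floor_add_one (c1 * g)
    linarith
  have hk12 : 12 ≤ k := by
    rw [hk]
    exact Nat.le_floor (by exact_mod_cast hcg)
  have hk1 : 1 ≤ k := by omega
  have hkpos : (0 : ℝ) < k := by exact_mod_cast hk1
  have hkg : (k : ℝ) ≤ g := hkle.trans (by nlinarith)
  have hlogk : Real.log k ≤ w / 2 := by
    have h1 : Real.log k ≤ Real.log g := Real.log_le_log hkpos hkg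
    have hgpos : 0 < g := lt_of_lt_of_le hkpos hkg
    have h2 : Real.log g = Real.log (z / w) / 2 := by
      rw [hg, Real.log_sqrt (by positivity)]
    have h3 : Real.log (z / w) ≤ Real.log z := by
      apply Real.log_le_log (by positivity)
      exact div_le_self hzpos.le hw1
    rw [h2] at h1
    linarith
  have hk2 : (k : ℝ) ^ 2 ≤ c1 ^ 2 * (z / w) := by
    calc (k : ℝ) ^ 2 ≤ (c1 * g) ^ 2 := pow_le_pow_left₀ hkpos.le hkle 2
      _ = _ := by rw [mul_pow, hg2]
  have hlk0 : 0 ≤ Real.log k := Real.log_natCast_nonneg k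
  have hpsi : (psi H H k : ℝ) ≤ z / 2 := by
    refine (psi_le H H k hH1 hk1).trans ?_
    have h1 : Real.log k + 1 ≤ 3 / 2 * w := by linarith
    calc (21 + 78 * (H : ℝ) * (55 + 5 * H)) * ((k : ℝ) ^ 2 * (Real.log k + 1))
        = C0 * ((k : ℝ) ^ 2 * (Real.log k + 1)) := by rw [hC0]
      _ ≤ C0 * ((c1 ^ 2 * (z / w)) * (3 / 2 * w)) := by
          apply mul_le_mul_of_nonneg_left _ (by linarith)
          exact mul_le_mul hk2 h1 (by linarith) (by positivity)
      _ = (c1 ^ 2 * (3 * C0)) * (z / 2) := by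
          field_simp
      _ ≤ 1 * (z / 2) := mul_le_mul_of_nonneg_right hc12 (by linarith)
      _ = z / 2 := one_mul _
  -- N is large
  have hN : (4096 : ℝ) ≤ N := by
    have h1 : Real.exp 9 ≤ y := (Real.exp_le_exp.2 hZ9).trans hyc
    have h2 : (4096 : ℝ) ≤ Real.exp 9 := by
      have h3 := Real.exp_one_gt_d9
      have h4 : Real.exp 9 = Real.exp 1 ^ 9 := by
        rw [← Real.exp_nat_mul]; norm_num
      rw [h4]
      calc (4096 : ℝ) ≤ 2.7 ^ 9 := by norm_num
        _ ≤ _ := pow_le_pow_left₀ (by norm_num) (by linarith) 9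
    linarith
  have hN' : 4096 ≤ N := by exact_mod_cast hN
  have hn : 1024 ≤ N / 3 := by omega
  -- the hypothesis on S
  have hc3 : S * 2 ^ (psi H H k) ≤ N / 3 := by
    have h1 : (S : ℝ) * 2 ^ (psi H H k) ≤ N / 4 := by
      have h2 : (2 : ℝ) ^ (psi H H k) ≤ y / 4 := by
        have h3 : (2 : ℝ) ^ (psi H H k) ≤ Real.exp (z / 2) := by
          calc (2 : ℝ) ^ (psi H H k) ≤ Real.exp 1 ^ (psi H H k) := by
                apply pow_le_pow_left₀ (by norm_num)
                have := Real.exp_one_gt_d9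
                linarith
            _ = Real.exp (psi H H k) := by rw [← Real.exp_nat_mul]; simp
            _ ≤ _ := Real.exp_le_exp.2 hpsi
        have h4 : Real.exp (z / 2) * 4 ≤ y := by
          have h5 : y = Real.exp (z / 2) * Real.exp (z / 2) := by
            rw [hyz, ← Real.exp_add]; ring_nf
          rw [h5]
          apply mul_le_mul_of_nonneg_left _ (Real.exp_pos _).le
          have h6 : (4 : ℝ) ≤ z / 2 := by linarith
          have := Real.add_one_le_exp (z / 2)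
          linarith
        linarith
      calc (S : ℝ) * 2 ^ (psi H H k) ≤ S * (y / 4) := mul_le_mul_of_nonneg_left h2 hSpos.le
        _ = N / 4 := by rw [hy]; field_simp
    have h2 : ((S * 2 ^ (psi H H k) * 4 : ℕ) : ℝ) ≤ (N : ℝ) := by
      push_cast
      linarith
    have h3 : S * 2 ^ (psi H H k) * 4 ≤ N := by exact_mod_cast h2
    omega
  have hcontra : ¬ (T + N + N / 3 ≤ k * (N / 3)) := by
    intro hT
    exact Param.contra Q hQ δ hδ hf H H k (Nat.clog 2 k) hHδ hHh hk1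
      (Nat.le_pow_clog (by norm_num) k) hD hS hn hT hc3
  rw [not_le] at hcontra
  have hT : k * (N / 3) ≤ T + 5 * (N / 3) := by omega
  have hT' : (k : ℝ) * ((N / 3 : ℕ) : ℝ) ≤ T + 5 * ((N / 3 : ℕ) : ℝ) := by exact_mod_cast hT
  have hn4 : (N : ℝ) / 4 ≤ ((N / 3 : ℕ) : ℝ) := by
    have : N ≤ 4 * (N / 3) := by omega
    have h2 : (N : ℝ) ≤ 4 * ((N / 3 : ℕ) : ℝ) := by exact_mod_cast this
    linarith
  have h1 : (c1 * g - 6) * ((N / 3 : ℕ) : ℝ) ≤ T := by
    have : (c1 * g - 6) * ((N / 3 : ℕ) : ℝ) ≤ (k - 5) * ((N / 3 : ℕ) : ℝ) :=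
      mul_le_mul_of_nonneg_right (by linarith) (Nat.cast_nonneg _)
    linarith
  have h2 : c * N * g ≤ (c1 * g - 6) * ((N / 3 : ℕ) : ℝ) := by
    calc c * N * g ≤ (c1 / 8) * N * g := by
          apply mul_le_mul_of_nonneg_right _ hg0
          exact mul_le_mul_of_nonneg_right (min_le_left _ _) (Nat.cast_nonneg N)
      _ = (c1 * g / 2) * (N / 4) := by ring
      _ ≤ (c1 * g - 6) * (N / 4) := mul_le_mul_of_nonneg_right (by linarith) (by positivity)
      _ ≤ _ := mul_le_mul_of_nonneg_left hn4 (by linarith)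
  exact h2.trans h1

end Asym

end Pool.Agent.H774R2.QTS
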