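import Mathlib
import Pool.Agent.NPC.Hard
import Pool.Agent.H774R2.QTS.Defs

/-! Task PMEM: the explicit function is computable in polynomial time. -/

namespace Pool.Agent.H774R2.QTS

namespace PMem

open Pool.Agent.NPC

section

variable {α β : Type} [TEnc α] [TEnc β]

lemma p_par {l : α → List Bool} (hl : Poly l) : Poly (fun a => par (l a)) := by
  refine Poly.foldr (F := fun _ a b => (a ^^ b)) (s := fun _ => false) hl (NPC.Poly.const false)
    (Poly.xor (Poly.fst (Poly.snd Poly.id)) (Poly.snd (Poly.snd Poly.id))) (Polynomial.C 3) ?_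
  intro a k _
  rw [Polynomial.eval_C]
  exact sz_bool_le _

lemma p_zipAnd {l l' : α → List Bool} (hl : Poly l) (hl' : Poly l') :
    Poly (fun a => List.zipWith (fun a b => a && b) (l a) (l' a)) := by
  refine (NPC.Poly.map (l := fun a => (l a).zip (l' a)) (F := fun _ p => p.1 && p.2)
    (Poly.zip hl hl') (Poly.and (Poly.fst (Poly.snd Poly.id)) (Poly.snd (Poly.snd Poly.id)))).congr
    fun a => ?_
  rw [List.zip, List.map_zipWith]

lemma p_shift {g w : α → List Bool} (hg : Poly g) (hw : Poly w) :
    Poly (fun a => shift (g a) (w a)) :=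
  Poly.append (Poly.tail hw) (Poly.cons (p_par (p_zipAnd hg hw)) (NPC.Poly.const []))

lemma tail_iter (l : List β) : ∀ k, (List.tail)^[k] l = l.drop k := by
  intro k
  induction k generalizing l with
  | zero => rfl
  | succ k ih => rw [Function.iterate_succ_apply, ih, List.drop_tail]

lemma p_drop {l : α → List β} {n : α → ℕ} (hl : Poly l) (hn : UPoly n) :
    Poly (fun a => (l a).drop (n a)) := by
  obtain ⟨r, hr⟩ := hl.sz_le
  refine (Poly.iterLen (l := fun a => List.replicate (n a) ()) (s := l)
    (F := fun _ s => s.tail) hn hl (Poly.tail (Poly.snd Poly.id)) r ?_).congr fun a => ?_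
  · intro a k _
    rw [tail_iter]
    exact (Poly.sz_drop_le _ _).trans (hr a)
  · rw [tail_iter, List.length_replicate]

lemma p_take {l : α → List β} {n : α → ℕ} (hl : Poly l) (hn : UPoly n) :
    Poly (fun a => (l a).take (n a)) := by
  have h1 : UPoly (fun a => (l a).length - n a) :=
    UPoly.of_le (Poly.sub (Poly.length hl) hn.toPoly) (UPoly.length hl) (fun _ => Nat.sub_le _ _)
  refine (Poly.reverse (p_drop (Poly.reverse hl) h1)).congr fun a => ?_
  by_cases h : n a ≤ (l a).length
  · rw [← List.reverse_inj, List.reverse_reverse, List.reverse_take]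
  · rw [List.take_of_length_le (by omega), Nat.sub_eq_zero_of_le (by omega), List.drop_zero,
      List.reverse_reverse]

lemma shift_length (g w : List Bool) : (shift g w).length ≤ w.length + 1 - min w.length 1 := by
  unfold shift
  rw [List.length_append, List.length_tail, List.length_singleton]
  omega

lemma iter_length (g s : List Bool) (k : ℕ) : ((shift g)^[k] s).length ≤ s.length + 1 := by
  induction k with
  | zero => simp
  | succ k ih =>
    rw [Function.iterate_succ_apply']
    have := shift_length g ((shift g)^[k] s)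
    omega

lemma p_lfsr {g s : α → List Bool} {t : α → ℕ} (hg : Poly g) (hs : Poly s) (ht : UPoly t) :
    Poly (fun a => lfsr (g a) (s a) (t a)) := by
  obtain ⟨r, hr⟩ := hs.sz_le
  have h1 : Poly (fun a => (shift (g a))^[t a] (s a)) := by
    refine (Poly.iterLen (l := fun a => List.replicate (t a) ()) (s := s)
      (F := fun a w => shift (g a) w) ht hs
      (p_shift (hg.comp (Poly.fst Poly.id)) (Poly.snd Poly.id))
      (Polynomial.C 4 * (r + Polynomial.C 1) + Polynomial.C 1) ?_).congr fun a => ?_
    · intro a k _
      have e1 := sz_listBool_le ((shift (g a))^[k] (s a))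
      have e2 := iter_length (g a) (s a) k
      have e3 := hr a
      have e4 := length_lt_sz (s a)
      simp only [Polynomial.eval_add, Polynomial.eval_mul, Polynomial.eval_C]
      change sz ((shift (g a))^[k] (s a)) ≤ _
      omega
    · rw [List.length_replicate]
  refine (Poly.head?_getD h1 false).congr fun a => ?_
  unfold lfsr
  rw [List.headD_eq_head?_getD]

lemma u_third {l : α → List Bool} (hl : Poly l) : UPoly (fun a => (l a).length / 3) :=
  UPoly.of_le (Poly.div (Poly.length hl) (NPC.Poly.const 3)) (UPoly.length hl)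
    (fun _ => Nat.div_le_self _ _)

lemma p_pairs {n : α → ℕ} (hn : UPoly n) : Poly (fun a => pairs (n a)) := by
  unfold pairs
  refine Poly.flatMap (l := fun a => List.range (n a))
    (F := fun a i => (List.range (n a)).map fun j => (i, j)) hn.range ?_
  exact NPC.Poly.map (l := fun x : α × ℕ => List.range (n x.1)) (F := fun x j => (x.2, j))
    (hn.comp (Poly.fst Poly.id)).range
    (Poly.pair (Poly.snd (Poly.fst Poly.id)) (Poly.snd Poly.id))

lemma mem_pairs {n : ℕ} {p : ℕ × ℕ} (hp : p ∈ pairs n) : p.1 < n ∧ p.2 < n := by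
  unfold pairs at hp
  rw [List.mem_flatMap] at hp
  obtain ⟨i, hi, hp⟩ := hp
  rw [List.mem_map] at hp
  obtain ⟨j, hj, rfl⟩ := hp
  rw [List.mem_range] at hi hj
  exact ⟨hi, hj⟩

/-- The condition, with the time cut off. -/
def cnd (l : List Bool) (p : ℕ × ℕ) : Bool :=
  decide (p.1 < p.2) && l.getD p.1 false && l.getD p.2 false &&
      lfsr ((l.drop (l.length / 3)).take (l.length / 3))
        ((l.drop (2 * (l.length / 3))).take (l.length / 3))
        (min (p.1 * (l.length / 3) + p.2) ((l.length / 3) * (l.length / 3)))

lemma quad_eq (l : List Bool) : quadFun l =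
    decide (((pairs (l.length / 3)).filter (cnd l)).length % 2 = 1) := by
  unfold quadFun
  rw [decide_eq_decide, Nat.odd_iff]
  have : (pairs (l.length / 3)).filter (fun p =>
    decide (p.1 < p.2) && l.getD p.1 false && l.getD p.2 false &&
      lfsr ((l.drop (l.length / 3)).take (l.length / 3))
        ((l.drop (2 * (l.length / 3))).take (l.length / 3))
        (p.1 * (l.length / 3) + p.2)) = (pairs (l.length / 3)).filter (cnd l) := by
    apply List.filter_congr
    intro p hp
    obtain ⟨h1, h2⟩ := mem_pairs hp
    unfold cnd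
    rw [min_eq_left]
    calc p.1 * (l.length / 3) + p.2 ≤ p.1 * (l.length / 3) + (l.length / 3) := by omega
      _ = (p.1 + 1) * (l.length / 3) := by ring
      _ ≤ (l.length / 3) * (l.length / 3) := Nat.mul_le_mul_right _ h1
  rw [this]

lemma p_cnd {l : α → List Bool} {p : α → ℕ × ℕ} (hl : Poly l) (hp : Poly p) :
    Poly (fun a => cnd (l a) (p a)) := by
  have hn : UPoly (fun a => (l a).length / 3) := u_third hl
  have h1 : Poly (fun a => (p a).1) := Poly.fst hp
  have h2 : Poly (fun a => (p a).2) := Poly.snd hp
  have ht : UPoly (fun a => min ((p a).1 * ((l a).length / 3) + (p a).2)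
      (((l a).length / 3) * ((l a).length / 3))) :=
    UPoly.of_le (Poly.min (Poly.add (Poly.mul h1 hn.toPoly) h2) (Poly.mul hn.toPoly hn.toPoly))
      (UPoly.mul hn hn) (fun _ => min_le_right _ _)
  have h2n : UPoly (fun a => 2 * ((l a).length / 3)) := UPoly.mul (UPoly.const 2) hn
  exact Poly.and (Poly.and (Poly.and (Poly.decide_lt h1 h2)
    (Poly.getD hl h1 (NPC.Poly.const false))) (Poly.getD hl h2 (NPC.Poly.const false)))
    (p_lfsr (p_take (p_drop hl hn) hn) (p_take (p_drop hl h2n) hn) ht)

lemma p_quadFun {l : α → List Bool} (hl : Poly l) : Poly (fun a => quadFun (l a)) := by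
  have h1 : Poly (fun a => (pairs ((l a).length / 3)).filter (cnd (l a))) :=
    Poly.filter (l := fun a => pairs ((l a).length / 3)) (p := fun a c => cnd (l a) c)
      (p_pairs (u_third hl))
      (p_cnd (l := fun x : α × (ℕ × ℕ) => l x.1) (p := fun x : α × (ℕ × ℕ) => x.2)
        (hl.comp (Poly.fst Poly.id)) (Poly.snd Poly.id))
  exact (Poly.decide_eq (Poly.mod (Poly.length h1) (NPC.Poly.const 2))
    (NPC.Poly.const 1)).congr fun a => (quad_eq _).symm

end

end PMem

open Pool.Agent.NPC in
/-- Task PMEM. -/
theorem quadFun_in_P : ∃ V : List Bool → List Bool, Pool.Agent.NPC.PolyTime V ∧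
    ∀ x : List Bool, quadFun x = true ↔ V x = [true] := by
  refine ⟨fun x => if toT (quadFun x) = T.nil then [false] else [true], ?_, ?_⟩
  · have h2 : PC (bits : List Bool → List Bool) T.enc
        (fun x : List Bool => toT (quadFun x)) :=
      PMem.p_quadFun (α := List Bool) (l := fun x => x) Poly.id
    have h3 : PC (fun x : List Bool => x) (bits : List Bool → List Bool) (fun x => x) := PC.ofBits
    have h1 : PC (fun x : List Bool => x) T.enc
        (fun x : List Bool => toT (quadFun x)) :=
      PC.comp (g := fun x : List Bool => toT (quadFun x))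
        (f := fun x : List Bool => x) h2 h3
    exact PC.toPolyTime (PC.ite (eb := fun x : List Bool => x) h1 (PC.const _) (PC.const _))
  · intro x
    have e0 : (toT false : T) = T.nil := rfl
    have e1 : (toT true : T) ≠ T.nil := by
      change T.ofBool true ≠ T.nil
      simp [T.ofBool]
    beta_reduce
    generalize quadFun x = b
    cases b
    · simp [e0]
    · simp [e1]

end Pool.Agent.H774R2.QTS
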