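import Mathlib
import Pool.Agent.NPC.Hard
import Pool.Agent.H774R2.QTS.Defs
import Pool.Agent.H774R2.QTS.GoodDefs

open Finset

namespace Pool.Agent.H774R2.QTS

/-- Task RANK. -/
theorem exists_good (n m p : ℕ) (hm : 1 ≤ m) (hp : 4 * n ^ 3 ≤ 2 ^ p)
    (hn : n ^ 2 * 2 ^ (2 * m * p) ≤ 2 ^ n) :
    ∃ g s : List Bool, g.length = n ∧ s.length = n ∧
      ∀ A B : Finset (Fin n), Disjoint A B → A.card = m → B.card = 2 * m →
        (ker (fun t => bz (lfsr g s t)) A B).card ≤ 2 ^ p := by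
  sorry

/-- Task PMEM. -/
theorem quadFun_in_P : ∃ V : List Bool → List Bool, Pool.Agent.NPC.PolyTime V ∧
    ∀ x : List Bool, quadFun x = true ↔ V x = [true] := by
  sorry

open Classical in
/-- Task PROB. -/
theorem prob_good {n : ℕ} {β : Type} [Fintype β] [DecidableEq β] (J : Fin n → Finset β)
    (k d Γ H R L a0 : ℕ) (hn : 1 ≤ n) (hk : 1 ≤ k) (hH : 1 ≤ H) (hΓ : 1 ≤ Γ)
    (hJ : ∀ i, (J i).Nonempty) (hsum : ∑ i, (J i).card ≤ k * n)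
    (hd : ∀ j, (univ.filter fun i => j ∈ J i).card ≤ d)
    (hL : 12 * k * H ≤ L) (hR : 200 * Γ * H * (2 * k + 1) ≤ R)
    (hdn : 200 * H * k ^ 2 * d * (R ^ (L + 1)) ^ (2 * k) ≤ n)
    (ha : 8 * k * a0 * (R ^ (L + 1)) ^ (2 * k) ≤ n) :
    (1 - 1 / (H : ℝ)) * L ≤ ∑ l ∈ Icc 2 (L + 1),
      ((univ.filter fun ω : β → Fin (R ^ l) =>
        ∃ c ∈ Icc 1 (2 * k), Good c Γ a0 (fun j => (ω j).val) J).card : ℝ) /
        ((R : ℝ) ^ l) ^ (Fintype.card β) := by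
  sorry

end Pool.Agent.H774R2.QTS
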